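import Pool.Agent.W622.SC.Fin1

/-! # The limit group -/

set_option autoImplicit false

open unitInterval Topology ContinuousMap

namespace Pool.Agent.W622.SC

theorem limit_eq {G : Type*} [Group G] (φ : G →* Multiplicative ℤ) (f : Monoid.End G)
    (h1 : ∀ g, φ (f g) = φ g ^ 2) (h2 : ∀ g, φ g = 1 → ∃ g', φ g' = 1 ∧ f g' = g) :
    (⨅ k : ℕ, MonoidHom.range (f ^ (k + 1) : Monoid.End G)) = φ.ker := by
  apply le_antisymm
  · intro g hg
    rw [Subgroup.mem_iInf] at hg
    rw [MonoidHom.mem_ker]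
    have hp : ∀ (k : ℕ) (g : G), φ ((f ^ k : Monoid.End G) g) = φ g ^ (2 ^ k) := by
      intro k
      induction k with
      | zero =>
        intro g
        simp
      | succ k ih =>
        intro g
        rw [pow_succ]
        change φ ((f ^ k : Monoid.End G) (f g)) = _
        rw [ih, h1, ← pow_mul]
        congr 1
        ring
    have hd : ∀ k : ℕ, (2 : ℤ) ^ k ∣ Multiplicative.toAdd (φ g) := by
      intro k
      obtain ⟨g', hg'⟩ := hg k
      have h3 : φ g = φ g' ^ (2 ^ (k + 1)) := by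
        rw [← hp, ← hg']
        rfl
      rw [h3, toAdd_pow, nsmul_eq_mul]
      refine ⟨2 * Multiplicative.toAdd (φ g'), ?_⟩
      push_cast
      ring
    by_contra hne
    have hne' : Multiplicative.toAdd (φ g) ≠ 0 := fun h => hne h
    obtain ⟨k, hk⟩ : ∃ k : ℕ, (Multiplicative.toAdd (φ g)).natAbs < 2 ^ k :=
      ⟨(Multiplicative.toAdd (φ g)).natAbs, Nat.lt_two_pow_self⟩
    have h4 := Int.natAbs_dvd_natAbs.mpr (hd k)
    rw [Int.natAbs_pow] at h4
    have h5 := Nat.le_of_dvd (Int.natAbs_pos.mpr hne') h4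
    have h6 : (2 : ℤ).natAbs = 2 := rfl
    rw [h6] at h5
    omega
  · apply le_iInf
    intro k g hg
    rw [MonoidHom.mem_ker] at hg
    have hp : ∀ (k : ℕ) (g : G), φ g = 1 → ∃ g', φ g' = 1 ∧ (f ^ k : Monoid.End G) g' = g := by
      intro k
      induction k with
      | zero =>
        intro g hg
        exact ⟨g, hg, by simp⟩
      | succ k ih =>
        intro g hg
        obtain ⟨g1, hg1, hg2⟩ := ih g hg
        obtain ⟨g2, hg3, hg4⟩ := h2 g1 hg1
        refine ⟨g2, hg3, ?_⟩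
        rw [pow_succ]
        change (f ^ k : Monoid.End G) (f g2) = g
        rw [hg4, hg2]
    obtain ⟨g', -, hg'⟩ := hp (k + 1) g hg
    exact ⟨g', hg'⟩

/-- The endomorphism `h_# = (q ∘ h)_#` of the fundamental group. -/
noncomputable def hsharp {X X' : Type} [TopologicalSpace X] [TopologicalSpace X'] {x₀ : X}
    (q : C(X', X)) (h : C(X, X')) (hx : q (h x₀) = x₀) : Monoid.End (FundamentalGroup X x₀) :=
  FundamentalGroup.mapOfEq (q.comp h) hx

theorem hsharp_path {X X' : Type} [TopologicalSpace X] [TopologicalSpace X'] {x₀ : X}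
    (q : C(X', X)) (h : C(X, X')) (hx : q (h x₀) = x₀) (γ : Path x₀ x₀) :
    hsharp q h hx (FundamentalGroup.fromPath (Quotient.mk _ γ)) =
      FundamentalGroup.fromPath (Quotient.mk _
        (((γ.map h.continuous).map q.continuous).cast hx.symm hx.symm)) :=
  FundamentalGroup.mapOfEq_apply (q.comp h) hx _

theorem exists_path {X : Type} [TopologicalSpace X] {x₀ : X} (g : FundamentalGroup X x₀) :
    ∃ γ : Path x₀ x₀, g = FundamentalGroup.fromPath (Quotient.mk _ γ) := by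
  obtain ⟨γ, hγ⟩ := Quotient.exists_rep (FundamentalGroup.toPath g)
  exact ⟨γ, hγ.symm⟩

/-- The example in terms of the limit group. -/
theorem Hyps.limit (hy : Hyps) : ∃ (X : Type) (_ : TopologicalSpace X) (_ : T2Space X)
    (_ : Topology.CWComplex (Set.univ : Set X)) (x₀ : X)
    (X' : Type) (_ : TopologicalSpace X') (q : C(X', X)) (h : C(X, X')) (hx : q (h x₀) = x₀)
    (Z : Type) (_ : TopologicalSpace Z) (p : C(Z, X)) (z₀ : Z) (G : Subgroup (FundamentalGroup X x₀)),
    G = ⨅ k : ℕ, MonoidHom.range (hsharp q h hx ^ (k + 1) : Monoid.End _) ∧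
    Topology.RelCWComplex.Finite (Set.univ : Set X) ∧ PathConnectedSpace X ∧
    PathConnectedSpace X' ∧ PathConnectedSpace Z ∧
    IsCoveringMap q ∧ (∀ x, Nat.card (q ⁻¹' {x}) = 2) ∧
    (∃ g : C(X', X), g (h x₀) = x₀ ∧ (g.comp h).Homotopic (ContinuousMap.id X) ∧
      (h.comp g).Homotopic (ContinuousMap.id X')) ∧
    G.Normal ∧
    (∃ (n : ℕ) (R : Finset (FreeGroup (Fin n))),
      Nonempty (↥G ≃* PresentedGroup (R : Set (FreeGroup (Fin n))))) ∧
    IsCoveringMap p ∧ p z₀ = x₀ ∧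
    (∀ γ : Path x₀ x₀, (∃ γ' : Path z₀ z₀, ∀ s, p (γ' s) = γ s) ↔
      FundamentalGroup.fromPath (Quotient.mk _ γ) ∈ G) ∧
    (∀ (Y : Type) (_ : TopologicalSpace Y) (_ : CompactSpace Y) (i : C(Z, Y)) (r : C(Y, Z)),
      ¬ (r.comp i).Homotopic (ContinuousMap.id Z)) ∧
    ¬ FinTyp Z := by
  obtain ⟨X, _, _, cw, x₀, φ, X₂, _, p, h, Z, _, pz, z₀, hx, hfin, hX, hX₂, hZ, hs, hfp, hcov,
    hcard, h2, ⟨g, hg0, hg1, hg2⟩, hφ2, hcond, hcz, hz0, hzl, hnd, hnf⟩ := hy.final
  have hG : (⨅ k : ℕ, MonoidHom.range (hsharp p h hx.symm ^ (k + 1) : Monoid.End _)) = φ.ker := by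
    apply limit_eq
    · intro g
      obtain ⟨γ, rfl⟩ := exists_path g
      rw [hsharp_path]
      exact hφ2 γ
    · intro g hg
      obtain ⟨γ, rfl⟩ := exists_path g
      obtain ⟨γ', hγ'⟩ := (h2 γ).mpr (by rw [hg]; exact dvd_zero _)
      obtain ⟨γ'', h3, ⟨h4⟩⟩ := (hcond γ').mp ⟨γ, hg, hγ'⟩
      refine ⟨_, h3, ?_⟩
      rw [hsharp_path]
      have h5 : ((γ''.map h.continuous).map p.continuous).Homotopic (γ'.map p.continuous) :=
        ⟨h4.map p⟩
      have h6 : (γ'.map p.continuous).cast hx hx = γ := by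
        ext s
        exact hγ' s
      have h7 : (((γ''.map h.continuous).map p.continuous).cast hx hx).Homotopic γ := by
        rw [← h6]
        obtain ⟨H⟩ := h5
        exact ⟨H.cast rfl rfl⟩
      exact Quotient.sound h7
  refine ⟨X, inferInstance, inferInstance, cw, x₀, X₂, inferInstance, p, h, hx.symm, Z,
    inferInstance, pz, z₀, φ.ker, hG.symm, hfin, hX, hX₂, hZ, hcov, hcard, ⟨g, hg0, hg1, hg2⟩,
    inferInstance, hfp, hcz, hz0, ?_, hnd, hnf⟩
  intro γ
  rw [hzl γ, MonoidHom.mem_ker]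

end Pool.Agent.W622.SC
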