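import Pool.Agent.W622.SC.All
import Pool.Agent.W622.SC.Fin3
import Pool.Agent.W930.SC.Push

/-! # The theorem without hypotheses -/

set_option autoImplicit false

namespace Pool.Agent.W622.SC

theorem hyps : Hyps := hyps' Pool.Agent.W930.SC.Push.main

end Pool.Agent.W622.SC
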