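import Pool.Agent.W622.SC.Defs

/-! # Statements of the parts of the self-covering example

Each `S_...` is a proposition to be proved in its own file. -/

set_option autoImplicit false

open unitInterval Topology ContinuousMap

namespace Pool.Agent.W622.SC

noncomputable section

/-! ## Mapping tori -/

/-- `T(g ∘ f) ≃ T(f ∘ g)` by `[x, u] ↦ [f x, u]`. -/
def S_swap : Prop := ∀ (E E' B : Type) [TopologicalSpace E] [TopologicalSpace E']
  (f : C(E, E')) (g : C(E', E)) (x : B → E) (y : B → E'),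
  (∀ i, f (x i) = y i) → (∀ i, g (y i) = x i) →
  HE (MT.ht (g.comp f)) (MT.ht (f.comp g)) (fun i => MT.mk (g.comp f) (x i, 0))
    (fun i => MT.mk (f.comp g) (y i, 0))

/-- `T(f) ≃ T(f')` for homotopic maps. -/
def S_htpy : Prop := ∀ (E B : Type) [TopologicalSpace E] (f f' : C(E, E)) (x : B → E),
  f.Homotopic f' →
  HE (MT.ht f) (MT.ht f') (fun i => MT.mk f (x i, 0)) (fun i => MT.mk f' (x i, 0))

/-- `T(f ∘ f)` is homotopy equivalent to the double cover of `T(f)`. -/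
def S_dbl : Prop := ∀ (E B : Type) [TopologicalSpace E] (f : C(E, E)) (x : B → E),
  HE (MT.ht (f.comp f)) (MT.ht2 f) (fun i => MT.mk (f.comp f) (x i, 0))
    (fun i => MT.mk (lvl f not) ((x i, false), 0))

/-- The projection `T(f × ν) → T(f)` is a covering map for `ν` bijective. -/
def S_cov : Prop := ∀ (E J : Type) [TopologicalSpace E] [TopologicalSpace J] [DiscreteTopology J]
  (f : C(E, E)) (ν : J → J), Function.Bijective ν → IsCoveringMap (MT.down f ν)

/-! ## Point-set properties -/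

/-- `Q` is Hausdorff. -/
def S_QQ : Prop := T2Space QQ

/-- `Q` is nicely pointed, compatibly with its `1`-skeleton `{(w, 0)}`. -/
def S_WPQ : Prop := ∃ W : WP QQ QQ.pt, ∀ w : I, ∃ w' : I, W.lam (1, QQ.mk (w, 0)) = QQ.mk (w', 0)

/-- Double suspensions of nicely pointed compact Hausdorff spaces are nicely pointed. -/
def S_WPS2 : Prop := ∀ (Q : Type) [TopologicalSpace Q] [CompactSpace Q] [T2Space Q] (q0 : Q)
  (W : WP Q q0), ∃ W' : WP (S2 q0) (S2.pt q0), ∀ t q, ∃ t', W'.lam (1, S2.mk q0 (t, q)) =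
    S2.mk q0 (t', W.lam (1, q))

/-- Maps into and out of attached spaces: for a family of maps `D → C` over `K`, indexed by a finite
discrete space `J`, there is a continuous map `D × ⋁_J P → K ∪ (C × P)`. -/
def S_act : Prop := ∀ (K C P D J : Type) [TopologicalSpace K] [TopologicalSpace C]
  [TopologicalSpace P] [CompactSpace P] [T2Space P] [TopologicalSpace D] [TopologicalSpace J]
  [DiscreteTopology J] [Finite J] (e : C(C, K)) (p0 : P), WP P p0 →
  ∀ (θ : J → C(D, C)) (b : C(D, K)), (∀ j d, e (θ j d) = b d) →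
  ∃ Λ : C(D × Wd J p0, At e p0), (∀ d j p, Λ (d, Wd.inJ p0 j p) = At.inP e p0 (θ j d, p)) ∧
    ∀ d, Λ (d, Wd.pt J p0) = At.inK e p0 (b d)

/-- If `C` is contractible then `K ∨ P → K ∪ (C × P)` is a homotopy equivalence. -/
def S_trans : Prop := ∀ (K C P : Type) [TopologicalSpace K] [TopologicalSpace C]
  [TopologicalSpace P] (e : C(C, K)) (p0 : P) (W : WP P p0) (c0 : C) (h : C(I × C, C)),
  (∀ c, h (0, c) = c) → (∀ c, h (1, c) = c0) → (∀ s, h (s, c0) = c0) →
  ∃ (i : C(Wg (e c0) p0, At e p0)) (j : C(At e p0, Wg (e c0) p0)),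
    (i.comp j).Homotopic (ContinuousMap.id _) ∧ (j.comp i).Homotopic (ContinuousMap.id _) ∧
    (∀ k, i (At.inK _ p0 k) = At.inK e p0 k) ∧ (∀ k, j (At.inK e p0 k) = At.inK _ p0 k) ∧
    (∀ p, i (At.inP _ p0 ((), p)) = At.inP e p0 (c0, p)) ∧
    ∀ c p, (∃ k, j (At.inP e p0 (c, p)) = At.inK _ p0 k) ∨
      j (At.inP e p0 (c, p)) = At.inP _ p0 ((), W.lam (1, p))

/-! ## The groups `[Σ²Q, Y]` -/

/-- A map which is constant on the double suspension of the `1`-skeleton `{(w, 0)}` of `Q` has order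
two. -/
def S_J2 : Prop := ∀ (Y : Type) [TopologicalSpace Y] (y0 : Y) (g : LP QQ.pt y0),
  (∀ (t : Fin 2 → I) (w : I), (g t).1 (QQ.mk (w, 0)) = y0) → g.cls ^ 2 = 1

/-- The restriction of `g` to the double suspension of the circle `{(v / 2, 0)}` is
null-homotopic. -/
def BotNull {Y : Type} [TopologicalSpace Y] {y0 : Y} (g : LP QQ.pt y0) : Prop :=
  ∃ h : C(I × ((Fin 2 → I) × I), Y),
    (∀ (t : Fin 2 → I) (v w : I), (w : ℝ) = v / 2 → h (0, (t, v)) = (g t).1 (QQ.mk (w, 0))) ∧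
    (∀ x, h (1, x) = y0) ∧
    ∀ s t v, (t ∈ Cube.boundary (Fin 2) ∨ v = 0 ∨ v = 1) → h (s, (t, v)) = y0

/-- If the restriction to the bottom cell is null-homotopic then the map can be deformed to one
which is constant there. -/
def S_Jlift : Prop := ∀ (Y : Type) [TopologicalSpace Y] (y0 : Y) (g : LP QQ.pt y0), BotNull g →
  ∃ g' : LP QQ.pt y0, g'.cls = g.cls ∧ ∀ (t : Fin 2 → I) (w : I), (g' t).1 (QQ.mk (w, 0)) = y0

/-- Twice a map is null-homotopic on the bottom cell. -/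
def S_Rsq : Prop := ∀ (Y : Type) [TopologicalSpace Y] (y0 : Y) (g : LP QQ.pt y0),
  ∃ g' : LP QQ.pt y0, g'.cls = g.cls ^ 2 ∧ BotNull g'

/-- There is an essential map `Σ²Q → W` (the pinch map to the `4`-sphere) which is constant on the
bottom cell. -/
def S_det : Prop := ∀ [LocallyCompactSpace QQ], ∃ (W : Type) (_ : TopologicalSpace W) (w0 : W)
  (d : LP QQ.pt w0), (∀ (t : Fin 2 → I) (w : I), (d t).1 (QQ.mk (w, 0)) = w0) ∧
    ¬ d.toMap.Nullhomotopic

/-- The homotopies used in the detection of `Σ²Q`. -/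
def S_PhiA : Prop := ∀ (Q : Type) [TopologicalSpace Q] [CompactSpace Q] [T2Space Q] (q0 : Q)
  (F : LP q0 (Wd.pt (Fin 3) (S2.pt q0))),
  F.cls = (LP.inJ q0 0).cls * (LP.inJ q0 1).cls ^ 2 * (LP.inJ q0 2).cls →
  ∀ (Y : Type) [TopologicalSpace Y] (y0 : Y) (d : LP q0 y0), d.cls ^ 2 = 1 →
  ∀ ε : Fin 3 → Bool, ∃ H : C(I × S2 q0, Y),
    (∀ p, H (0, p) = if (xor (ε 0) (ε 2)) = true then d.toMap p else y0) ∧
    (∀ p j p', F.toMap p = Wd.inJ (S2.pt q0) j p' →
      H (1, p) = if ε j = true then d.toMap p' else y0) ∧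
    ∀ s, H (s, S2.pt q0) = y0

/-! ## The contractible space over `K` -/

/-- `f` and `g` are homotopic over `e`. -/
def OverH {K C : Type} [TopologicalSpace K] [TopologicalSpace C] (e : C(C, K)) (f g : C(C, C)) :
    Prop :=
  ∃ H : C(I × C, C), (∀ c, H (0, c) = f c) ∧ (∀ c, H (1, c) = g c) ∧ ∀ s c, e (H (s, c)) = e c

/-- There is a contractible space `C` over `K = KK` (for example the space of Moore paths starting
at the base point) on which the loops `a` (`u ↦ [u, 0]`) and `s` (`u ↦ [0, u]`) and the inverse loop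
of `s` act (by prepending), with `s⁻¹ a s = a²` up to homotopy over `K`. -/
def S_C : Prop := ∃ (C : Type) (_ : TopologicalSpace C) (e : C(C, KK)) (c0 : C) (h : C(I × C, C))
  (A S S' : C(C, C)), e c0 = kk0 ∧ (∀ c, h (0, c) = c) ∧ (∀ c, h (1, c) = c0) ∧
  (∀ s, h (s, c0) = c0) ∧ (∀ c, e (A c) = e c) ∧ (∀ c, e (S c) = e c) ∧ (∀ c, e (S' c) = e c) ∧
  OverH e (S'.comp S) (ContinuousMap.id C) ∧ OverH e (S.comp S') (ContinuousMap.id C) ∧
  OverH e (S'.comp (A.comp S)) (A.comp A) ∧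
  ∀ s : I, e (h (s, A c0)) = MT.mk dbl (((1 - (s : ℝ) : ℝ) : Cir), 0)

/-- There is a regular covering of `KK`, with group `G`, in which all powers of the loop `a` are
open. -/
def S_Khat : Prop := ∃ (Kh : Type) (_ : TopologicalSpace Kh) (G : Type) (_ : Group G)
  (_ : MulAction G Kh) (q : Kh → KK) (k : C(I, Kh)) (α : G), IsQuotientCoveringMap q G ∧
  (∀ s : I, q (k s) = MT.mk dbl (((s : ℝ) : Cir), 0)) ∧ k 1 = α • k 0 ∧
  ∀ n : ℕ, 0 < n → α ^ n ≠ 1

/-- Detection: `τ` is the self-map of `K ∪ (C × Σ²Q)` over `K` given by `1 + 2a + a²`. In the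
infinite cyclic cover of its mapping torus the copy of `Σ²Q` at level `n` cannot be homotoped
into the part of height at most `N < n`. -/
def S_Phi : Prop := ∀ (Q : Type) [TopologicalSpace Q] [CompactSpace Q] [T2Space Q] (q0 : Q)
  (K C Kh G : Type) [TopologicalSpace K] [TopologicalSpace C] [TopologicalSpace Kh]
  [Group G] [MulAction G Kh] (e : C(C, K)) (c0 : C) (q : Kh → K), IsQuotientCoveringMap q G →
  ∀ (c' : C(C, Kh)), (∀ c, q (c' c) = e c) → ∀ (A : C(C, C)), (∀ c, e (A c) = e c) →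
  ∀ (α : G), (∀ c, c' (A c) = α • c' c) → (∀ n : ℕ, 0 < n → α ^ n ≠ 1) →
  ∀ (F : LP q0 (Wd.pt (Fin 3) (S2.pt q0))),
  F.cls = (LP.inJ q0 0).cls * (LP.inJ q0 1).cls ^ 2 * (LP.inJ q0 2).cls →
  ∀ (τ : C(At e (S2.pt q0), At e (S2.pt q0))), (∀ k, τ (At.inK e _ k) = At.inK e _ k) →
  (∀ c p, ∃ (j : Fin 3) (p' : S2 q0), F.toMap p = Wd.inJ (S2.pt q0) j p' ∧
    τ (At.inP e _ (c, p)) = At.inP e _ (A^[(j : ℕ)] c, p')) →
  ∀ (Y : Type) [TopologicalSpace Y] (y0 : Y) (d : LP q0 y0), d.cls ^ 2 = 1 →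
  ¬ d.toMap.Nullhomotopic →
  ∀ (N n : ℤ), N < n → ∀ g : C(S2 q0, MT (lvl τ sh)), (∀ p, MT.htZ τ (g p) ≤ N) →
  ¬ (((MT.mk (lvl τ sh)).comp ⟨fun p => ((At.inP e (S2.pt q0) (c0, p), n), 0), by fun_prop⟩ :
    C(S2 q0, MT (lvl τ sh))).Homotopic g)

/-! ## Fundamental groups -/

/-- Every path in `K ∨ Σ²Q` between points of `K` can be deformed into `K`. -/
def S_push : Prop := ∀ (Q : Type) [TopologicalSpace Q] [CompactSpace Q] [T2Space Q] (q0 : Q),
  WP Q q0 → ∀ (K : Type) [TopologicalSpace K] [PathConnectedSpace K] (k0 x y : K)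
  (γ : Path (At.inK (⟨fun _ => k0, continuous_const⟩ : C(Unit, K)) (S2.pt q0) x)
    (At.inK (⟨fun _ => k0, continuous_const⟩ : C(Unit, K)) (S2.pt q0) y)),
  ∃ δ : Path x y, γ.Homotopic (δ.map (At.inK (⟨fun _ => k0, continuous_const⟩ : C(Unit, K))
    (S2.pt q0)).continuous)

/-- The fundamental group of `KK` (it is `BS(1,2)`) is finitely presented. -/
def S_pi1K : Prop := Group.IsFinitelyPresented (FundamentalGroup KK kk0)

/-- Loops in the mapping torus which lift to loops in the infinite cyclic cover come from `K`. -/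
def S_kerZ : Prop := ∀ (K E : Type) [TopologicalSpace K] [TopologicalSpace E] (j : C(K, E))
  (f : C(E, E)), (∀ k, f (j k) = j k) →
  (∀ (x y : K) (γ : Path (j x) (j y)), ∃ δ : Path x y, γ.Homotopic (δ.map j.continuous)) →
  ∀ (k0 : K) (γ : Path (MT.mk f (j k0, 0)) (MT.mk f (j k0, 0)))
    (γ' : Path (MT.mk (lvl f sh) ((j k0, 0), 0)) (MT.mk (lvl f sh) ((j k0, 0), 0))),
  (∀ s, MT.down f sh (γ' s) = γ s) →
  ∃ δ : Path k0 k0, γ.Homotopic (δ.map (((MT.mk f).comp ⟨fun k => (j k, 0), by fun_prop⟩ :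
    C(K, MT f)).continuous))

/-- The winding number homomorphism. -/
def S_wind : Prop := ∀ (X : Type) [TopologicalSpace X] (x₀ : X) (ht : C(X, Cir)),
  ∃ φ : FundamentalGroup X x₀ →* Multiplicative ℤ, ∀ (γ : Path x₀ x₀) (l : C(I, ℝ)),
    (∀ s, ((l s : ℝ) : Cir) = ht (γ s)) →
    l 1 - l 0 = ((Multiplicative.toAdd (φ (FundamentalGroup.fromPath (Quotient.mk _ γ))) : ℤ) : ℝ)

/-- Loops which lift to the infinite cyclic cover. -/
def S_loopZ : Prop := ∀ (E : Type) [TopologicalSpace E] (f : C(E, E)) (x : E), f x = x →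
  ∀ (γ : Path (MT.mk f (x, 0)) (MT.mk f (x, 0))) (l : C(I, ℝ)),
  (∀ s, ((l s : ℝ) : Cir) = MT.ht f (γ s)) →
  ((∃ γ' : Path (MT.mk (lvl f sh) ((x, 0), 0)) (MT.mk (lvl f sh) ((x, 0), 0)),
    ∀ s, MT.down f sh (γ' s) = γ s) ↔ l 1 = l 0)

/-- Loops which lift to the double cover. -/
def S_loop2 : Prop := ∀ (E : Type) [TopologicalSpace E] (f : C(E, E)) (x : E), f x = x →
  ∀ (γ : Path (MT.mk f (x, 0)) (MT.mk f (x, 0))) (l : C(I, ℝ)),
  (∀ s, ((l s : ℝ) : Cir) = MT.ht f (γ s)) →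
  ((∃ γ' : Path (MT.mk (lvl f not) ((x, false), 0)) (MT.mk (lvl f not) ((x, false), 0)),
    ∀ s, MT.down f not (γ' s) = γ s) ↔ ∃ m : ℤ, l 1 - l 0 = 2 * m)

/-- The kernel is the fundamental group of a retract. -/
def S_fp : Prop := ∀ (X K : Type) [TopologicalSpace X] [TopologicalSpace K] (k0 : K)
  (i : C(K, X)) (r : C(X, K)), (∀ k, r (i k) = k) →
  ∀ φ : FundamentalGroup X (i k0) →* Multiplicative ℤ,
  (∀ γ : Path (i k0) (i k0), φ (FundamentalGroup.fromPath (Quotient.mk _ γ)) = 1 →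
    ∃ δ : Path k0 k0, γ.Homotopic (δ.map i.continuous)) →
  (∀ δ : Path k0 k0,
    φ (FundamentalGroup.fromPath (Quotient.mk _ (δ.map i.continuous))) = 1) →
  Group.IsFinitelyPresented (FundamentalGroup K k0) →
  ∃ (n : ℕ) (R : Finset (FreeGroup (Fin n))),
      Nonempty (↥φ.ker ≃* PresentedGroup (R : Set (FreeGroup (Fin n))))

/-- The effect of `h : X → X₂` on the fundamental group. -/
def S_cond : Prop := ∀ (X Xk : Type) [TopologicalSpace X] [TopologicalSpace Xk] (x₀ : X)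
  (ht : C(X, Cir)) (hk : C(Xk, Cir)) (pk : C(Xk, X)) (h : C(X, Xk))
  (φ : FundamentalGroup X x₀ →* Multiplicative ℤ),
  (∀ (γ : Path x₀ x₀) (l : C(I, ℝ)), (∀ s, ((l s : ℝ) : Cir) = ht (γ s)) →
    l 1 - l 0 =
      ((Multiplicative.toAdd (φ (FundamentalGroup.fromPath (Quotient.mk _ γ))) : ℤ) : ℝ)) →
  ∀ hx : x₀ = pk (h x₀), (∀ y, ht (pk y) = hk y + hk y) → (hk.comp h).Homotopic ht →
  (∃ g : C(Xk, X), (g.comp h).Homotopic (ContinuousMap.id X) ∧
    (h.comp g).Homotopic (ContinuousMap.id Xk)) →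
  (∀ γ : Path x₀ x₀, φ (FundamentalGroup.fromPath (Quotient.mk _
      (((γ.map h.continuous).map pk.continuous).cast hx hx))) =
    φ (FundamentalGroup.fromPath (Quotient.mk _ γ)) ^ 2) ∧
  ∀ δ : Path (h x₀) (h x₀),
    (∃ γ : Path x₀ x₀, φ (FundamentalGroup.fromPath (Quotient.mk _ γ)) = 1 ∧
        ∀ s, pk (δ s) = γ s) ↔
    (∃ γ : Path x₀ x₀, φ (FundamentalGroup.fromPath (Quotient.mk _ γ)) = 1 ∧
        (γ.map h.continuous).Homotopic δ)

/-! ## CW structures -/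

/-- `f` maps each skeleton of the CW complex `cw` to itself. -/
def Cellular {E : Type} [TopologicalSpace E] [T2Space E]
    (cw : Topology.CWComplex (Set.univ : Set E)) (f : C(E, E)) : Prop :=
  ∀ n : ℕ, ∀ x ∈ (Topology.RelCWComplex.skeletonLT (Set.univ : Set E) (n : ℕ∞) : Set E),
    f x ∈ (Topology.RelCWComplex.skeletonLT (Set.univ : Set E) (n : ℕ∞) : Set E)

/-- The mapping torus of a cellular self-map of a finite CW complex is a finite CW complex. -/
def S_cwMT : Prop := ∀ (E : Type) [TopologicalSpace E] [T2Space E]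
  (cw : Topology.CWComplex (Set.univ : Set E)),
  Topology.RelCWComplex.Finite (Set.univ : Set E) → ∀ (f : C(E, E)), Cellular cw f →
  ∃ (_ : T2Space (MT f)) (cw' : Topology.CWComplex (Set.univ : Set (MT f))),
    Topology.RelCWComplex.Finite (Set.univ : Set (MT f)) ∧
    ∀ m : ℕ, (∀ n, m < n → IsEmpty (cw.cell n)) → ∀ n, m + 1 < n → IsEmpty (cw'.cell n)

/-- The circle is a finite CW complex of dimension one for which the map of degree two is
cellular. -/
def S_cwCir : Prop := ∃ (cw : Topology.CWComplex (Set.univ : Set Cir)),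
  Topology.RelCWComplex.Finite (Set.univ : Set Cir) ∧ Cellular cw dbl ∧
  ∀ n, 1 < n → IsEmpty (cw.cell n)

/-- For a finite CW complex `K` of dimension at most two, `K ∨ Σ²Q` is a finite CW complex, and
self-maps which fix `K` and respect `K ∪ Σ²(1-skeleton of Q)` are cellular. -/
def S_cwAt : Prop := ∀ (K : Type) [TopologicalSpace K] [T2Space K]
  (cw : Topology.CWComplex (Set.univ : Set K)),
  Topology.RelCWComplex.Finite (Set.univ : Set K) → (∀ n, 2 < n → IsEmpty (cw.cell n)) →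
  ∀ (k0 : K), ∃ (_ : T2Space (Wg k0 (S2.pt QQ.pt)))
    (cw' : Topology.CWComplex (Set.univ : Set (Wg k0 (S2.pt QQ.pt)))),
    Topology.RelCWComplex.Finite (Set.univ : Set (Wg k0 (S2.pt QQ.pt))) ∧
    ∀ (g : C(Wg k0 (S2.pt QQ.pt), Wg k0 (S2.pt QQ.pt))),
      (∀ k, g (At.inK _ _ k) = At.inK _ _ k) →
      (∀ (t : Fin 2 → I) (w : I),
        (∃ k, g (At.inP _ _ ((), S2.mk QQ.pt (t, QQ.mk (w, 0)))) = At.inK _ _ k) ∨
        ∃ t' w', g (At.inP _ _ ((), S2.mk QQ.pt (t, QQ.mk (w, 0)))) =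
          At.inP _ _ ((), S2.mk QQ.pt (t', QQ.mk (w', 0)))) →
      Cellular cw' g

/-! ## Cellular approximation for maps of `Σ²Q` -/

/-- A map from a compact set of dimension at most four in a Euclidean space to a CW complex can be
deformed into the `4`-skeleton. -/
def S_CA : Prop := ∀ (N : ℕ) (A : Set (EuclideanSpace ℝ (Fin N))), IsCompact A → dimH A ≤ 4 →
  ∀ (Y : Type) [TopologicalSpace Y] [T2Space Y] (cw : Topology.CWComplex (Set.univ : Set Y))
  (g : C(A, Y)), ∃ g' : C(A, Y), g.Homotopic g' ∧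
    ∀ x, g' x ∈ (Topology.RelCWComplex.skeletonLT (Set.univ : Set Y) (5 : ℕ∞) : Set Y)

/-- A map from a compact set of dimension at most four to `ℝᵐ`, `m ≥ 5`, can be approximated by maps
missing a point near the origin. -/
def S_CA1 : Prop := ∀ (N : ℕ) (V : Set (EuclideanSpace ℝ (Fin N))), IsCompact V → dimH V ≤ 4 →
  ∀ (m : ℕ), 5 ≤ m → ∀ (f : C(V, Fin m → ℝ)) (ε : ℝ), 0 < ε →
  ∃ (f' : C(V, Fin m → ℝ)) (b : Fin m → ℝ), (∀ x, ‖f' x - f x‖ < ε) ∧ ‖b‖ < ε ∧ ∀ x, f' x ≠ b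

/-- `Σ²Q` embeds in a Euclidean space as a set of dimension at most four. -/
def S_emb : Prop := ∃ (N : ℕ) (φ : S2 QQ.pt → EuclideanSpace ℝ (Fin N)),
  Topology.IsEmbedding φ ∧ dimH (Set.range φ) ≤ 4

end

end Pool.Agent.W622.SC
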