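import Pool.Agent.W622.SC.Tw

/-! # `S_act` -/

set_option autoImplicit false

open unitInterval Topology ContinuousMap

namespace Pool.Agent.W622.SC

noncomputable section

theorem t2_Wd {J P : Type} [TopologicalSpace J] [DiscreteTopology J] [TopologicalSpace P]
    [T2Space P] (p0 : P) : T2Space (Wd J p0) := by
  classical
  let pr : J → C(Wd J p0, P) := fun j => Wd.desc (fun j' => if j' = j then ContinuousMap.id P else
    ContinuousMap.const P p0) p0 (by
      intro j'
      split_ifs <;> rfl)
  have hpr : ∀ j j' p, pr j (Wd.inJ p0 j' p) = if j' = j then p else p0 := by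
    intro j j' p
    change (if j' = j then ContinuousMap.id P else ContinuousMap.const P p0 : C(P, P)) p = _
    split_ifs <;> rfl
  have hcont : Continuous fun (x : Wd J p0) (j : J) => pr j x := by
    apply continuous_pi
    intro j
    exact (pr j).continuous
  refine T2Space.of_injective_continuous (f := fun (x : Wd J p0) (j : J) => pr j x) ?_ hcont
  intro x y hxy
  have hxy : ∀ j, pr j x = pr j y := fun j => congr_fun hxy j
  have key : ∀ z : Wd J p0, z = Wd.pt J p0 ∨ ∃ j p, p ≠ p0 ∧ z = Wd.inJ p0 j p := by
    apply At.ind
    · intro k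
      exact Or.inl rfl
    · intro j p
      by_cases hp : p = p0
      · left
        rw [hp]
        exact Wd.inJ_pt j
      · exact Or.inr ⟨j, p, hp, rfl⟩
  have hpt : ∀ j, pr j (Wd.pt J p0) = p0 := fun j => rfl
  rcases key x with rfl | ⟨j, p, hp, rfl⟩
  · rcases key y with rfl | ⟨j, p, hp, rfl⟩
    · rfl
    · have := hxy j
      rw [hpt, hpr, if_pos rfl] at this
      exact absurd this.symm hp
  · rcases key y with rfl | ⟨j', p', hp', rfl⟩
    · have := hxy j
      rw [hpt, hpr, if_pos rfl] at this
      exact absurd this hp
    · have h1 := hxy j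
      rw [hpr, hpr, if_pos rfl] at h1
      split_ifs at h1 with h2
      · rw [h1, h2]
      · exact absurd h1 hp

theorem act : S_act := by
  intro K C P D J _ _ _ _ _ _ _ _ _ e p0 W θ b hθ
  have : T2Space (Wd J p0) := t2_Wd p0
  let Q : Unit ⊕ J × P → Wd J p0 := At.mk (⟨fun _ => (), continuous_const⟩ : C(J, Unit)) p0
  have hQc : Continuous Q := (At.mk _ p0).continuous
  have hQs : Function.Surjective Q := (At.isQuotientMap _ p0).surjective
  have : CompactSpace J := inferInstance
  have hprop : IsProperMap Q := hQc.isProperMap
  have h2 : IsProperMap (Prod.map (id : D → D) Q) := by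
    have h3 : IsClosedMap (Prod.map Q (id : D → D)) := hprop.universally_closed D
    have h4 : IsProperMap (Prod.map (id : D → D) Q) := by
      exact IsProperMap.prodMap isProperMap_id hprop
    exact h4
  have hq : IsQuotientMap (Prod.map (id : D → D) Q) :=
    h2.isClosedMap.isQuotientMap h2.continuous (Function.surjective_id.prodMap hQs)
  let L : D × Wd J p0 → At e p0 := fun x => At.lift
    (e := (⟨fun _ => (), continuous_const⟩ : C(J, Unit))) (p0 := p0)
    (ContinuousMap.const Unit (At.inK e p0 (b x.1)))
    (⟨fun y => At.inP e p0 (θ y.1 x.1, y.2), by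
      apply (At.inP e p0).continuous.comp
      rw [continuous_prod_of_discrete_left]
      intro j
      fun_prop⟩) (by
      intro j
      change At.inP e p0 (θ j x.1, p0) = At.inK e p0 (b x.1)
      rw [At.glue, hθ]) x.2
  have hL : Continuous L := by
    rw [hq.continuous_iff]
    have h5 : Continuous fun x : (Unit ⊕ J × P) × D => (L (x.2, Q x.1)) := by
      apply (Homeomorph.sumProdDistrib (X := Unit) (Y := J × P) (Z := D)).symm.comp_continuous_iff'.mp
      rw [continuous_sum_dom]
      constructor
      · change Continuous fun x : Unit × D => At.inK e p0 (b x.2)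
        fun_prop
      · change Continuous fun x : (J × P) × D => At.inP e p0 (θ x.1.1 x.2, x.1.2)
        have h6 : Continuous fun x : J × (P × D) => At.inP e p0 (θ x.1 x.2.2, x.2.1) := by
          rw [continuous_prod_of_discrete_left]
          intro j
          change Continuous fun x : P × D => At.inP e p0 (θ j x.2, x.1)
          fun_prop
        have h7 : Continuous fun x : (J × P) × D => (x.1.1, (x.1.2, x.2)) := by fun_prop
        exact h6.comp h7
    exact h5.comp continuous_swap
  exact ⟨⟨L, hL⟩, fun _ _ _ => rfl, fun _ => rfl⟩

end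

end Pool.Agent.W622.SC
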