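import Pool.Agent.W622.SC.Tw

/-! # The words `1 + 2a + a²` and `1 + 2a² + a⁴` -/

set_option autoImplicit false

open unitInterval Topology ContinuousMap

namespace Pool.Agent.W622.SC

noncomputable section

/-- The word preserves the `Q`-coordinate. -/
def QPres {Q J : Type} [TopologicalSpace Q] [TopologicalSpace J] {q0 : Q}
    (G : LP q0 (Wd.pt J (S2.pt q0))) : Prop :=
  ∀ t, ∃ j t', ∀ q, (G t).1 q = Wd.inJ (S2.pt q0) j (S2.mk q0 (t', q))

section F

variable {Q J : Type} [TopologicalSpace Q] [TopologicalSpace J] {q0 : Q}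

theorem qpres_inJ (j : J) : QPres (LP.inJ q0 j) := fun t => ⟨j, t, fun _ => rfl⟩

theorem qpres_transAt (i : Fin 2) {G G' : LP q0 (Wd.pt J (S2.pt q0))} (h : QPres G)
    (h' : QPres G') : QPres (GenLoop.transAt i G G') := by
  intro t
  by_cases ht : (t i : ℝ) ≤ 1 / 2
  · obtain ⟨j, t', h1⟩ := h (Function.update t i <| Set.projIcc 0 1 zero_le_one (2 * t i))
    refine ⟨j, t', fun q => ?_⟩
    rw [← h1]
    simp only [GenLoop.transAt, GenLoop.coe_copy, if_pos ht]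
  · obtain ⟨j, t', h1⟩ := h' (Function.update t i <| Set.projIcc 0 1 zero_le_one (2 * t i - 1))
    refine ⟨j, t', fun q => ?_⟩
    rw [← h1]
    simp only [GenLoop.transAt, GenLoop.coe_copy, if_neg ht]

theorem exists_F (q0 : Q) : ∃ F : LP q0 (Wd.pt (Fin 3) (S2.pt q0)),
    F.cls = (LP.inJ q0 0).cls * (LP.inJ q0 1).cls ^ 2 * (LP.inJ q0 2).cls ∧ QPres F := by
  refine ⟨GenLoop.transAt 0 (LP.inJ q0 2) (GenLoop.transAt 0 (GenLoop.transAt 0 (LP.inJ q0 1)
    (LP.inJ q0 1)) (LP.inJ q0 0)), ?_, ?_⟩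
  · rw [← cls_mul, ← cls_mul, ← cls_mul, sq]
  · exact qpres_transAt 0 (qpres_inJ 2) (qpres_transAt 0 (qpres_transAt 0 (qpres_inJ 1)
      (qpres_inJ 1)) (qpres_inJ 0))

theorem qpres_toMap [LocallyCompactSpace Q] {G : LP q0 (Wd.pt J (S2.pt q0))} (h : QPres G)
    (t : Fin 2 → I) (q : Q) : ∃ j t', G.toMap (S2.mk q0 (t, q)) =
      Wd.inJ (S2.pt q0) j (S2.mk q0 (t', q)) := by
  obtain ⟨j, t', h1⟩ := h t
  exact ⟨j, t', h1 q⟩

end F

section Word

variable {Q : Type} [TopologicalSpace Q] [CompactSpace Q] [T2Space Q] {q0 : Q}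

/-- the sum of two indices -/
def add35 (i j : Fin 3) : Fin 5 := ⟨i + j, by omega⟩

/-- twice an index -/
def dbl35 (j : Fin 3) : Fin 5 := ⟨2 * j, by omega⟩

/-- the inclusion `j ↦ i + j` -/
def shW (q0 : Q) (i : Fin 3) : C(Wd (Fin 3) (S2.pt q0), Wd (Fin 5) (S2.pt q0)) :=
  Wd.desc (fun j => Wd.inJ (S2.pt q0) (add35 i j)) (Wd.pt _ _) (fun _ => Wd.inJ_pt _)

/-- the inclusion `j ↦ 2 j` -/
def dbW (q0 : Q) : C(Wd (Fin 3) (S2.pt q0), Wd (Fin 5) (S2.pt q0)) :=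
  Wd.desc (fun j => Wd.inJ (S2.pt q0) (dbl35 j)) (Wd.pt _ _) (fun _ => Wd.inJ_pt _)

/-- the substitution -/
def kap (F : LP q0 (Wd.pt (Fin 3) (S2.pt q0))) :
    C(Wd (Fin 3) (S2.pt q0), Wd (Fin 5) (S2.pt q0)) :=
  Wd.desc (fun i => (shW q0 i).comp F.toMap) (Wd.pt _ _) (fun i => by
    change shW q0 i (F.toMap (S2.pt q0)) = _
    rw [LP.toMap_pt]
    rfl)

theorem shW_pt (q0 : Q) (i : Fin 3) : shW q0 i (Wd.pt (Fin 3) (S2.pt q0)) =
    Wd.pt (Fin 5) (S2.pt q0) := rfl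

theorem dbW_pt (q0 : Q) : dbW q0 (Wd.pt (Fin 3) (S2.pt q0)) = Wd.pt (Fin 5) (S2.pt q0) := rfl

theorem kap_pt (F : LP q0 (Wd.pt (Fin 3) (S2.pt q0))) :
    kap F (Wd.pt (Fin 3) (S2.pt q0)) = Wd.pt (Fin 5) (S2.pt q0) := rfl

theorem post_inJ {Z J : Type} [TopologicalSpace Z] [TopologicalSpace J] [DiscreteTopology J]
    (g : J → C(S2 q0, Z)) (z : Z) (h : ∀ j, g j (S2.pt q0) = z) (j : J) (G : LP q0 z)
    (hG : ∀ t q, (G t).1 q = g j (S2.mk q0 (t, q))) :
    LP.post (Wd.desc g z h) (Wd.desc_pt g z h) (LP.inJ q0 j) = G := by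
  apply GenLoop.ext
  intro t
  apply Subtype.ext
  ext q
  exact (hG t q).symm

theorem shW_inJ (i j : Fin 3) : postHom q0 (shW q0 i) (shW_pt q0 i) (LP.inJ q0 j).cls =
    (LP.inJ q0 (add35 i j)).cls := by
  rw [postHom_cls]
  congr 1

theorem dbW_inJ (j : Fin 3) : postHom q0 (dbW q0) (dbW_pt q0) (LP.inJ q0 j).cls =
    (LP.inJ q0 (dbl35 j)).cls := by
  rw [postHom_cls]
  congr 1

theorem kap_inJ (F : LP q0 (Wd.pt (Fin 3) (S2.pt q0))) (i : Fin 3) :
    postHom q0 (kap F) (kap_pt F) (LP.inJ q0 i).cls = postHom q0 (shW q0 i) (shW_pt q0 i) F.cls := by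
  rw [postHom_cls, postHom_cls]
  congr 1

theorem alg {G : Type*} [CommGroup G] (h4 : ∀ x : G, x ^ 4 = 1) (a b c d e : G) :
    (a * b ^ 2 * c) * (b * c ^ 2 * d) ^ 2 * (c * d ^ 2 * e) = a * c ^ 2 * e := by
  have h1 : (a * b ^ 2 * c) * (b * c ^ 2 * d) ^ 2 * (c * d ^ 2 * e) =
      a * c ^ 2 * e * (b ^ 4 * c ^ 4 * d ^ 4) := by
    simp only [mul_pow, ← pow_mul]
    have e1 : ∀ x : G, x ^ 4 = x * x * x * x := fun x => by rw [pow_succ, pow_succ, pow_succ, pow_one]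
    simp only [show 2 * 2 = 4 from rfl, e1, sq]
    ac_rfl
  rw [h1, h4, h4, h4]
  simp

theorem cls_kap (h4 : ∀ x : PG q0 (Wd.pt (Fin 5) (S2.pt q0)), x ^ 4 = 1)
    (F : LP q0 (Wd.pt (Fin 3) (S2.pt q0)))
    (hF : F.cls = (LP.inJ q0 0).cls * (LP.inJ q0 1).cls ^ 2 * (LP.inJ q0 2).cls) :
    (LP.post (kap F) (kap_pt F) F).cls = (LP.post (dbW q0) (dbW_pt q0) F).cls := by
  have h1 : ∀ i, postHom q0 (shW q0 i) (shW_pt q0 i) F.cls = (LP.inJ q0 (add35 i 0)).cls *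
      (LP.inJ q0 (add35 i 1)).cls ^ 2 * (LP.inJ q0 (add35 i 2)).cls := by
    intro i
    rw [hF, map_mul, map_mul, map_pow, shW_inJ, shW_inJ, shW_inJ]
  have h2 : (LP.post (dbW q0) (dbW_pt q0) F).cls = (LP.inJ q0 (dbl35 0)).cls *
      (LP.inJ q0 (dbl35 1)).cls ^ 2 * (LP.inJ q0 (dbl35 2)).cls := by
    rw [← postHom_cls, hF, map_mul, map_mul, map_pow, dbW_inJ, dbW_inJ, dbW_inJ]
  rw [h2, ← postHom_cls, hF, map_mul, map_mul, map_pow, kap_inJ, kap_inJ, kap_inJ, h1, h1, h1]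
  exact @alg _ (HomotopyGroup.commGroup (N := Fin 2)) h4
    (LP.inJ q0 (0 : Fin 5)).cls (LP.inJ q0 (1 : Fin 5)).cls (LP.inJ q0 (2 : Fin 5)).cls
    (LP.inJ q0 (3 : Fin 5)).cls (LP.inJ q0 (4 : Fin 5)).cls

variable {K C : Type} [TopologicalSpace K] [TopologicalSpace C] {e : C(C, K)}

/-- iterates -/
def pwr (A : C(C, C)) (n : ℕ) : C(C, C) := ⟨A^[n], A.continuous.iterate n⟩

@[simp] theorem pwr_apply (A : C(C, C)) (n : ℕ) (c : C) : pwr A n c = A^[n] c := rfl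

theorem e_pwr {A : C(C, C)} (hA : ∀ c, e (A c) = e c) (n : ℕ) (c : C) :
    e (A^[n] c) = e c := by
  induction n with
  | zero => rfl
  | succ n ih => rw [Function.iterate_succ_apply', hA, ih]

theorem tw_sq {A : C(C, C)} (hA : ∀ c, e (A c) = e c)
    {F : LP q0 (Wd.pt (Fin 3) (S2.pt q0))} {τ : C(At e (S2.pt q0), At e (S2.pt q0))}
    (hτ : IsTw e (fun j : Fin 3 => pwr A j) F τ) :
    IsTw e (fun k : Fin 5 => pwr A k) (LP.post (kap F) (kap_pt F) F) (τ.comp τ) := by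
  refine isTw_of _ (fun j c => e_pwr hA _ _) _ _ ?_ ?_
  · intro k
    rw [ContinuousMap.comp_apply, hτ.1, hτ.1]
  · intro c p
    obtain ⟨i, p1, h1⟩ := Wd.exists_inJ (F.toMap p)
    obtain ⟨l, p2, h2⟩ := Wd.exists_inJ (F.toMap p1)
    refine ⟨add35 i l, p2, ?_, ?_⟩
    · rw [LP.toMap_post, ContinuousMap.comp_apply, h1]
      change shW q0 i (F.toMap p1) = _
      rw [h2]
      rfl
    · rw [ContinuousMap.comp_apply, hτ.2 c p i p1 h1, hτ.2 _ p1 l p2 h2]
      congr 2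
      change A^[(l : ℕ)] (A^[(i : ℕ)] c) = A^[((i : ℕ) + l : ℕ)] c
      rw [add_comm, Function.iterate_add_apply]

theorem tw_dbl {A : C(C, C)} (hA : ∀ c, e (A c) = e c)
    {F : LP q0 (Wd.pt (Fin 3) (S2.pt q0))} {τ : C(At e (S2.pt q0), At e (S2.pt q0))}
    (hτ : IsTw e (fun j : Fin 3 => pwr A (2 * j)) F τ) :
    IsTw e (fun k : Fin 5 => pwr A k) (LP.post (dbW q0) (dbW_pt q0) F) τ := by
  refine isTw_of _ (fun j c => e_pwr hA _ _) _ _ hτ.1 ?_
  intro c p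
  obtain ⟨i, p1, h1⟩ := Wd.exists_inJ (F.toMap p)
  refine ⟨dbl35 i, p1, ?_, ?_⟩
  · rw [LP.toMap_post, ContinuousMap.comp_apply, h1]
    rfl
  · rw [hτ.2 c p i p1 h1]
    rfl

/-- The self-map induced by a self-map of `C` over `K`. -/
def ovr (e : C(C, K)) {P : Type} [TopologicalSpace P] (p0 : P) (S : C(C, C))
    (hS : ∀ c, e (S c) = e c) : C(At e p0, At e p0) :=
  At.lift (At.inK e p0) ⟨fun x => At.inP e p0 (S x.1, x.2), by fun_prop⟩ (fun c => by
    change At.inP e p0 (S c, p0) = _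
    rw [At.glue, hS])

@[simp] theorem ovr_inK {P : Type} [TopologicalSpace P] (p0 : P) (S : C(C, C))
    (hS : ∀ c, e (S c) = e c) (k : K) : ovr e p0 S hS (At.inK e p0 k) = At.inK e p0 k := rfl

@[simp] theorem ovr_inP {P : Type} [TopologicalSpace P] (p0 : P) (S : C(C, C))
    (hS : ∀ c, e (S c) = e c) (c : C) (p : P) :
    ovr e p0 S hS (At.inP e p0 (c, p)) = At.inP e p0 (S c, p) := rfl

theorem ovr_htpy {P : Type} [TopologicalSpace P] (p0 : P) (S S' : C(C, C))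
    (hS : ∀ c, e (S c) = e c) (hS' : ∀ c, e (S' c) = e c)
    (h : OverH e (S.comp S') (ContinuousMap.id C)) :
    ((ovr e p0 S hS).comp (ovr e p0 S' hS')).Homotopic (ContinuousMap.id _) := by
  obtain ⟨H, h0, h1, h2⟩ := h
  refine ⟨⟨At.liftH (e := e) (p0 := p0) ⟨fun x => At.inK e _ x.2, by fun_prop⟩
    ⟨fun x => At.inP e p0 (H (x.1, x.2.1), x.2.2), by fun_prop⟩ ?_, ?_, ?_⟩⟩
  · intro s c
    change At.inP e p0 (H (s, c), p0) = At.inK e p0 (e c)
    rw [At.glue, h2]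
  · apply At.ind
    · intro k
      rfl
    · intro c p
      change At.inP e p0 (H (0, c), p) = _
      rw [h0]
      rfl
  · apply At.ind
    · intro k
      rfl
    · intro c p
      change At.inP e p0 (H (1, c), p) = _
      rw [h1]
      rfl

theorem tw_conj {A S S' : C(C, C)} (hA : ∀ c, e (A c) = e c) (hS : ∀ c, e (S c) = e c)
    (hS' : ∀ c, e (S' c) = e c)
    {F : LP q0 (Wd.pt (Fin 3) (S2.pt q0))} {τ : C(At e (S2.pt q0), At e (S2.pt q0))}
    (hτ : IsTw e (fun j : Fin 3 => pwr A j) F τ) :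
    IsTw e (fun j : Fin 3 => S'.comp ((pwr A j).comp S)) F
      ((ovr e _ S' hS').comp (τ.comp (ovr e _ S hS))) := by
  refine isTw_of _ (fun j c => ?_) _ _ ?_ ?_
  · change e (S' (A^[(j : ℕ)] (S c))) = e c
    rw [hS', e_pwr hA, hS]
  · intro k
    rw [ContinuousMap.comp_apply, ContinuousMap.comp_apply, ovr_inK, hτ.1, ovr_inK]
  · intro c p
    obtain ⟨i, p1, h1⟩ := Wd.exists_inJ (F.toMap p)
    refine ⟨i, p1, h1, ?_⟩
    rw [ContinuousMap.comp_apply, ContinuousMap.comp_apply, ovr_inP, hτ.2 _ p i p1 h1, ovr_inP]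
    rfl

/-! ### Homotopies over `K` -/

theorem OverH.trans {f g h : C(C, C)} (h1 : OverH e f g) (h2 : OverH e g h) : OverH e f h := by
  obtain ⟨H, a0, a1, a2⟩ := h1
  obtain ⟨H', b0, b1, b2⟩ := h2
  let U : ContinuousMap.Homotopy f g := ⟨H, a0, a1⟩
  let V : ContinuousMap.Homotopy g h := ⟨H', b0, b1⟩
  refine ⟨(U.trans V).toContinuousMap, (U.trans V).map_zero_left, (U.trans V).map_one_left, ?_⟩
  intro s c
  change e ((U.trans V) (s, c)) = e c
  rw [ContinuousMap.Homotopy.trans_apply]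
  split_ifs
  · exact a2 _ _
  · exact b2 _ _

theorem OverH.refl {f : C(C, C)} (hf : ∀ c, e (f c) = e c) : OverH e f f :=
  ⟨⟨fun x => f x.2, by fun_prop⟩, fun _ => rfl, fun _ => rfl, fun _ c => hf c⟩

theorem OverH.symm {f g : C(C, C)} (h : OverH e f g) : OverH e g f := by
  obtain ⟨H, a0, a1, a2⟩ := h
  refine ⟨⟨fun x => H (σ x.1, x.2), by fun_prop⟩, fun c => ?_, fun c => ?_, fun s c => a2 _ _⟩
  · change H (σ 0, c) = g c
    rw [unitInterval.symm_zero, a1]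
  · change H (σ 1, c) = f c
    rw [unitInterval.symm_one, a0]

theorem OverH.comp {f g f' g' : C(C, C)} (h : OverH e f g) (h' : OverH e f' g') :
    OverH e (f.comp f') (g.comp g') := by
  obtain ⟨H, a0, a1, a2⟩ := h
  obtain ⟨H', b0, b1, b2⟩ := h'
  refine ⟨⟨fun x => H (x.1, H' x), by fun_prop⟩, fun c => ?_, fun c => ?_, fun s c => ?_⟩
  · change H (0, H' (0, c)) = f (f' c)
    rw [b0, a0]
  · change H (1, H' (1, c)) = g (g' c)
    rw [b1, a1]
  · change e (H (s, H' (s, c))) = e c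
    rw [a2, b2]

theorem over_conj {A S S' : C(C, C)} (hA : ∀ c, e (A c) = e c) (hS : ∀ c, e (S c) = e c)
    (hS' : ∀ c, e (S' c) = e c)
    (h1 : OverH e (S'.comp S) (ContinuousMap.id C))
    (h2 : OverH e (S.comp S') (ContinuousMap.id C))
    (h3 : OverH e (S'.comp (A.comp S)) (A.comp A)) (n : ℕ) :
    OverH e (S'.comp ((pwr A n).comp S)) (pwr A (2 * n)) := by
  induction n with
  | zero => exact h1
  | succ n ih =>
    have e0 : (pwr A (2 * (n + 1)) : C(C, C)) = (pwr A (2 * n)).comp (A.comp A) := by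
      ext c
      change A^[2 * (n + 1)] c = A^[2 * n] (A (A c))
      rw [show 2 * (n + 1) = 2 * n + 1 + 1 from by ring, Function.iterate_succ_apply,
        Function.iterate_succ_apply]
    have e1 : S'.comp ((pwr A (n + 1)).comp S) =
        (S'.comp (pwr A n)).comp ((ContinuousMap.id C).comp (A.comp S)) := by
      ext c
      change S' (A^[n + 1] (S c)) = S' (A^[n] (A (S c)))
      rw [Function.iterate_succ_apply]
    rw [e0, e1]
    have h4 : OverH e ((S'.comp (pwr A n)).comp ((ContinuousMap.id C).comp (A.comp S)))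
        ((S'.comp (pwr A n)).comp ((S.comp S').comp (A.comp S))) := by
      apply OverH.comp (OverH.refl _) (OverH.comp h2.symm (OverH.refl _))
      · intro c
        change e (S' (A^[n] c)) = e c
        rw [hS', e_pwr hA]
      · intro c
        change e (A (S c)) = e c
        rw [hA, hS]
    have h5 : OverH e ((S'.comp ((pwr A n).comp S)).comp (S'.comp (A.comp S)))
        ((pwr A (2 * n)).comp (A.comp A)) := OverH.comp ih h3
    exact h4.trans h5

end Word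

end

end Pool.Agent.W622.SC
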