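import Pool.Agent.W622.SC.Flow
import Pool.Agent.W622.SC.Word

/-! # `S_C`: Moore paths -/

set_option autoImplicit false

open unitInterval Topology ContinuousMap

namespace Pool.Agent.W622.SC

noncomputable section

section Pre

variable {K : Type} [TopologicalSpace K] {k0 : K}

theorem Moore.ext' {γ δ : Moore k0} (h1 : ∀ x, γ.1.1 x = δ.1.1 x) (h2 : γ.1.2 = δ.1.2) : γ = δ :=
  Subtype.ext (Prod.ext (ContinuousMap.ext h1) h2)

theorem Moore.zero_eq (γ : Moore k0) : γ.1.1 0 = k0 := γ.2.2.1 0 le_rfl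

theorem Moore.cont_eval : Continuous fun x : Moore k0 × ℝ => x.1.1.1 x.2 :=
  (continuous_fst.comp (continuous_subtype_val.comp continuous_fst)).eval continuous_snd

theorem Moore.cont_len : Continuous fun γ : Moore k0 => γ.1.2 :=
  continuous_snd.comp continuous_subtype_val

/-- Prepending a family of loops. -/
def preT {T : Type} [TopologicalSpace T] (W : C(T × ℝ, K)) (B : C(T, ℝ)) (hB : ∀ t, 0 ≤ B t)
    (h0 : ∀ t x, x ≤ 0 → W (t, x) = k0) (h1 : ∀ t x, B t ≤ x → W (t, x) = k0) :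
    C(T × Moore k0, Moore k0) where
  toFun y := ⟨(⟨fun x => if x ≤ B y.1 then W (y.1, x) else y.2.1.1 (x - B y.1), by
      apply Continuous.if_le
      · fun_prop
      · fun_prop
      · fun_prop
      · fun_prop
      · rintro x hx
        rw [h1 _ _ hx.ge, hx, sub_self, Moore.zero_eq]⟩, B y.1 + y.2.1.2), by
    obtain ⟨t, γ, hγ0, hγ1, hγ2⟩ := y
    have hB := hB t
    refine ⟨add_nonneg hB hγ0, ?_, ?_⟩
    · intro x hx
      change (if x ≤ B t then W (t, x) else γ.1 (x - B t)) = k0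
      rw [if_pos (hx.trans hB), h0 _ _ hx]
    · intro x hx
      simp only at hx
      have key : ∀ z, B t + γ.2 ≤ z → (if z ≤ B t then W (t, z) else γ.1 (z - B t)) = γ.1 γ.2 := by
        intro z hz
        split_ifs with h
        · have h3 : γ.2 = 0 := by linarith
          rw [h1 _ _ (by linarith), h3, hγ1 0 le_rfl]
        · exact hγ2 _ (by linarith)
      change (if x ≤ B t then W (t, x) else γ.1 (x - B t)) =
        (if B t + γ.2 ≤ B t then W (t, B t + γ.2) else γ.1 (B t + γ.2 - B t))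
      rw [key x hx, key _ le_rfl]⟩
  continuous_toFun := by
    apply Continuous.subtype_mk
    apply Continuous.prodMk
    · apply ContinuousMap.continuous_of_continuous_uncurry
      change Continuous fun z : (T × Moore k0) × ℝ =>
        if z.2 ≤ B z.1.1 then W (z.1.1, z.2) else z.1.2.1.1 (z.2 - B z.1.1)
      apply Continuous.if_le
      · fun_prop
      · have h2 : Continuous fun z : (T × Moore k0) × ℝ => (z.1.2, z.2 - B z.1.1) := by fun_prop
        exact Moore.cont_eval.comp h2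
      · fun_prop
      · fun_prop
      · rintro ⟨⟨t, γ⟩, x⟩ hx
        simp only at hx ⊢
        rw [h1 _ _ hx.ge, hx, sub_self, Moore.zero_eq]
    · have h2 := Moore.cont_len (k0 := k0)
      fun_prop

theorem preT_len {T : Type} [TopologicalSpace T] (W : C(T × ℝ, K)) (B : C(T, ℝ))
    (hB : ∀ t, 0 ≤ B t) (h0 : ∀ t x, x ≤ 0 → W (t, x) = k0)
    (h1 : ∀ t x, B t ≤ x → W (t, x) = k0) (t : T) (γ : Moore k0) :
    (preT W B hB h0 h1 (t, γ)).1.2 = B t + γ.1.2 := rfl

theorem preT_val {T : Type} [TopologicalSpace T] (W : C(T × ℝ, K)) (B : C(T, ℝ))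
    (hB : ∀ t, 0 ≤ B t) (h0 : ∀ t x, x ≤ 0 → W (t, x) = k0)
    (h1 : ∀ t x, B t ≤ x → W (t, x) = k0) (t : T) (γ : Moore k0) (x : ℝ) :
    (preT W B hB h0 h1 (t, γ)).1.1 x = if x ≤ B t then W (t, x) else γ.1.1 (x - B t) := rfl

theorem preT_fin {T : Type} [TopologicalSpace T] (W : C(T × ℝ, K)) (B : C(T, ℝ))
    (hB : ∀ t, 0 ≤ B t) (h0 : ∀ t x, x ≤ 0 → W (t, x) = k0)
    (h1 : ∀ t x, B t ≤ x → W (t, x) = k0) (t : T) (γ : Moore k0) :
    Moore.fin k0 (preT W B hB h0 h1 (t, γ)) = Moore.fin k0 γ := by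
  change (if B t + γ.1.2 ≤ B t then W (t, B t + γ.1.2) else γ.1.1 (B t + γ.1.2 - B t)) =
    γ.1.1 γ.1.2
  have h2 := γ.2.1
  split_ifs with h
  · have h3 : γ.1.2 = 0 := by linarith
    rw [h1 _ _ (by linarith), h3, Moore.zero_eq]
  · rw [add_sub_cancel_left]

/-- Prepending a loop. -/
def preF (w : C(ℝ, K)) (b : ℝ) (hb : 0 ≤ b) (h0 : ∀ x, x ≤ 0 → w x = k0)
    (h1 : ∀ x, b ≤ x → w x = k0) : C(Moore k0, Moore k0) :=
  (preT (T := Unit) (w.comp ⟨Prod.snd, continuous_snd⟩) (ContinuousMap.const _ b) (fun _ => hb)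
    (fun _ x hx => h0 x hx) (fun _ x hx => h1 x hx)).comp ⟨fun γ => ((), γ), by fun_prop⟩

theorem preF_len (w : C(ℝ, K)) (b : ℝ) (hb : 0 ≤ b) (h0 : ∀ x, x ≤ 0 → w x = k0)
    (h1 : ∀ x, b ≤ x → w x = k0) (γ : Moore k0) :
    (preF w b hb h0 h1 γ).1.2 = b + γ.1.2 := rfl

theorem preF_val (w : C(ℝ, K)) (b : ℝ) (hb : 0 ≤ b) (h0 : ∀ x, x ≤ 0 → w x = k0)
    (h1 : ∀ x, b ≤ x → w x = k0) (γ : Moore k0) (x : ℝ) :
    (preF w b hb h0 h1 γ).1.1 x = if x ≤ b then w x else γ.1.1 (x - b) := rfl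

theorem preF_fin (w : C(ℝ, K)) (b : ℝ) (hb : 0 ≤ b) (h0 : ∀ x, x ≤ 0 → w x = k0)
    (h1 : ∀ x, b ≤ x → w x = k0) (γ : Moore k0) :
    Moore.fin k0 (preF w b hb h0 h1 γ) = Moore.fin k0 γ :=
  preT_fin (T := Unit) (w.comp ⟨Prod.snd, continuous_snd⟩) (ContinuousMap.const _ b)
    (fun _ => hb) (fun _ x hx => h0 x hx) (fun _ x hx => h1 x hx) () γ

theorem preF_comp (w w' w'' : C(ℝ, K)) (b b' : ℝ) (hb : 0 ≤ b) (h0 : ∀ x, x ≤ 0 → w x = k0)
    (h1 : ∀ x, b ≤ x → w x = k0) (hb' : 0 ≤ b') (h0' : ∀ x, x ≤ 0 → w' x = k0)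
    (h1' : ∀ x, b' ≤ x → w' x = k0) (b'' : ℝ) (hbb : b'' = b + b') (hb'' : 0 ≤ b'')
    (h0'' : ∀ x, x ≤ 0 → w'' x = k0)
    (h1'' : ∀ x, b'' ≤ x → w'' x = k0) (hw : ∀ x, x ≤ b → w'' x = w x)
    (hw' : ∀ x, b ≤ x → x ≤ b + b' → w'' x = w' (x - b)) :
    (preF w b hb h0 h1).comp (preF w' b' hb' h0' h1') = preF w'' b'' hb'' h0'' h1'' := by
  subst hbb
  ext γ
  apply Moore.ext'
  · intro x
    rw [ContinuousMap.comp_apply, preF_val, preF_val, preF_val]
    by_cases h2 : x ≤ b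
    · rw [if_pos h2, if_pos (by linarith), hw x h2]
    · rw [if_neg h2]
      by_cases h3 : x ≤ b + b'
      · rw [if_pos (by linarith), if_pos h3, hw' x (by linarith) h3]
      · rw [if_neg (by linarith), if_neg h3, sub_sub]
  · rw [ContinuousMap.comp_apply, preF_len, preF_len, preF_len]
    ring

theorem over_fam (W : C(I × ℝ, K)) (B : C(I, ℝ)) (hB : ∀ t, 0 ≤ B t)
    (h0 : ∀ t x, x ≤ 0 → W (t, x) = k0) (h1 : ∀ t x, B t ≤ x → W (t, x) = k0)
    (w w' : C(ℝ, K)) (b b' : ℝ) (hb : 0 ≤ b) (hw0 : ∀ x, x ≤ 0 → w x = k0)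
    (hw1 : ∀ x, b ≤ x → w x = k0) (hb' : 0 ≤ b') (hw0' : ∀ x, x ≤ 0 → w' x = k0)
    (hw1' : ∀ x, b' ≤ x → w' x = k0) (e0 : ∀ x, W (0, x) = w x) (e1 : ∀ x, W (1, x) = w' x)
    (b0 : B 0 = b) (b1 : B 1 = b') :
    OverH (Moore.fin k0) (preF w b hb hw0 hw1) (preF w' b' hb' hw0' hw1') := by
  subst b0 b1
  refine ⟨preT W B hB h0 h1, fun γ => ?_, fun γ => ?_, fun s γ => preT_fin _ _ _ _ _ _ _⟩
  · apply Moore.ext'
    · intro x
      rw [preT_val, preF_val, e0]
    · rfl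
  · apply Moore.ext'
    · intro x
      rw [preT_val, preF_val, e1]
    · rfl

/-- Truncation. -/
def truncH (k0 : K) : C(I × Moore k0, Moore k0) where
  toFun y := ⟨(⟨fun x => y.2.1.1 (min x ((1 - (y.1 : ℝ)) * y.2.1.2)), by fun_prop⟩,
      (1 - (y.1 : ℝ)) * y.2.1.2), by
    obtain ⟨s, γ, hγ0, hγ1, hγ2⟩ := y
    refine ⟨mul_nonneg (by linarith [s.2.2]) hγ0, ?_, ?_⟩
    · intro x hx
      exact hγ1 _ ((min_le_left _ _).trans hx)
    · intro x hx
      change γ.1 (min x ((1 - (s : ℝ)) * γ.2)) = γ.1 (min ((1 - (s : ℝ)) * γ.2) ((1 - (s : ℝ)) * γ.2))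
      rw [min_eq_right hx, min_self]⟩
  continuous_toFun := by
    have h2 := Moore.cont_len (k0 := k0)
    apply Continuous.subtype_mk
    apply Continuous.prodMk
    · apply ContinuousMap.continuous_of_continuous_uncurry
      change Continuous fun z : (I × Moore k0) × ℝ =>
        z.1.2.1.1 (min z.2 ((1 - (z.1.1 : ℝ)) * z.1.2.1.2))
      have h3 : Continuous fun z : (I × Moore k0) × ℝ =>
        (z.1.2, min z.2 ((1 - (z.1.1 : ℝ)) * z.1.2.1.2)) := by
        have h4 : Continuous fun z : (I × Moore k0) × ℝ => z.1.2.1.2 :=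
          h2.comp (by fun_prop)
        fun_prop
      exact Moore.cont_eval.comp h3
    · have h4 : Continuous fun z : I × Moore k0 => z.2.1.2 := h2.comp (by fun_prop)
      fun_prop

theorem truncH_zero (γ : Moore k0) : truncH k0 (0, γ) = γ := by
  have e0 : ((0 : I) : ℝ) = 0 := rfl
  apply Moore.ext'
  · intro x
    change γ.1.1 (min x ((1 - ((0 : I) : ℝ)) * γ.1.2)) = γ.1.1 x
    rw [e0, sub_zero, one_mul]
    rcases le_total x γ.1.2 with h | h
    · rw [min_eq_left h]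
    · rw [min_eq_right h, γ.2.2.2 x h]
  · change (1 - ((0 : I) : ℝ)) * γ.1.2 = γ.1.2
    rw [e0, sub_zero, one_mul]

theorem truncH_one (γ : Moore k0) : truncH k0 (1, γ) = Moore.nil k0 := by
  have e1 : ((1 : I) : ℝ) = 1 := rfl
  apply Moore.ext'
  · intro x
    change γ.1.1 (min x ((1 - ((1 : I) : ℝ)) * γ.1.2)) = k0
    rw [e1, sub_self, zero_mul]
    exact γ.2.2.1 _ (min_le_right _ _)
  · change (1 - ((1 : I) : ℝ)) * γ.1.2 = 0
    rw [e1, sub_self, zero_mul]

theorem truncH_nil (s : I) : truncH k0 (s, Moore.nil k0) = Moore.nil k0 := by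
  apply Moore.ext'
  · intro x
    rfl
  · change (1 - (s : ℝ)) * 0 = 0
    rw [mul_zero]

theorem truncH_fin (s : I) (γ : Moore k0) :
    Moore.fin k0 (truncH k0 (s, γ)) = γ.1.1 ((1 - (s : ℝ)) * γ.1.2) := by
  change γ.1.1 (min ((1 - (s : ℝ)) * γ.1.2) ((1 - (s : ℝ)) * γ.1.2)) = _
  rw [min_self]

end Pre

/-! ### The loops in `KK` -/

/-- A point of `KK`. -/
def pk (p : ℝ) (h : ℝ) : KK := MT.mk dbl ((p : Cir), cl h)

theorem continuous_pk : Continuous fun x : ℝ × ℝ => pk x.1 x.2 := by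
  unfold pk
  have c1 := continuous_cl
  have c2 : Continuous fun x : ℝ => (x : Cir) := AddCircle.continuous_mk' 1
  apply (MT.mk dbl).continuous.comp
  exact (c2.comp continuous_fst).prodMk (c1.comp continuous_snd)

theorem pk_base {p h : ℝ} (hp : (p : Cir) = 0) (hh : h ≤ 0) : pk p h = kk0 := by
  unfold pk
  rw [hp, cl_le hh]
  rfl

theorem pk_top {p h : ℝ} (hh : 1 ≤ h) : pk p h = pk (p + p) 0 := by
  unfold pk
  rw [cl_ge hh, cl_le le_rfl, MT.glue, dbl_apply, AddCircle.coe_add]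

theorem pk_base' {p h : ℝ} (hp : (p : Cir) = 0) (hh : 1 ≤ h) : pk p h = kk0 := by
  rw [pk_top hh, pk_base _ le_rfl]
  rw [AddCircle.coe_add, hp, add_zero]

theorem coe0 : ((0 : ℝ) : Cir) = 0 := by simp

theorem coe1 : ((1 : ℝ) : Cir) = 0 := AddCircle.coe_period 1

theorem coe_cl_le {x : ℝ} (h : x ≤ 0) : (((cl x : I) : ℝ) : Cir) = 0 := by
  rw [cl_le h]
  exact coe0

theorem coe_cl_ge {x : ℝ} (h : 1 ≤ x) : (((cl x : I) : ℝ) : Cir) = 0 := by
  rw [cl_ge h]
  exact coe1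

theorem clv_le {x : ℝ} (h : x ≤ 0) : ((cl x : I) : ℝ) = 0 := by
  rw [cl_le h]
  rfl

theorem clv_ge {x : ℝ} (h : 1 ≤ x) : ((cl x : I) : ℝ) = 1 := by
  rw [cl_ge h]
  rfl

theorem pk_congr {p h h' : ℝ} (hh : cl h = cl h') : pk p h = pk p h' := by
  unfold pk
  rw [hh]

theorem continuous_clv : Continuous fun x : ℝ => ((cl x : I) : ℝ) :=
  continuous_subtype_val.comp continuous_cl

/-- A continuous family of paths in `KK`. -/
def pkF {T : Type} [TopologicalSpace T] (p h : T → ℝ) (hp : Continuous p) (hh : Continuous h) :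
    C(T, KK) := ⟨fun t => pk (p t) (h t), continuous_pk.comp (hp.prodMk hh)⟩

@[simp] theorem pkF_apply {T : Type} [TopologicalSpace T] (p h : T → ℝ) (hp : Continuous p)
    (hh : Continuous h) (t : T) : pkF p h hp hh t = pk (p t) (h t) := rfl

theorem cclv {T : Type} [TopologicalSpace T] {f : T → ℝ} (hf : Continuous f) :
    Continuous fun t => ((cl (f t) : I) : ℝ) := continuous_clv.comp hf

/-- the loop `a` -/
def wA : C(ℝ, KK) := pkF (fun x => ((cl x : I) : ℝ)) (fun _ => 0) (cclv continuous_id)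
  continuous_const

/-- the loop `s` -/
def wS : C(ℝ, KK) := pkF (fun _ => 0) (fun x => x) continuous_const continuous_id

/-- the inverse loop of `s` -/
def wV : C(ℝ, KK) := pkF (fun _ => 0) (fun x => 1 - x) continuous_const (by fun_prop)

theorem wA0 (x : ℝ) (hx : x ≤ 0) : wA x = kk0 := pk_base (coe_cl_le hx) le_rfl
theorem wA1 (x : ℝ) (hx : 1 ≤ x) : wA x = kk0 := pk_base (coe_cl_ge hx) le_rfl
theorem wS0 (x : ℝ) (hx : x ≤ 0) : wS x = kk0 := pk_base coe0 hx
theorem wS1 (x : ℝ) (hx : 1 ≤ x) : wS x = kk0 := pk_base' coe0 hx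
theorem wV0 (x : ℝ) (hx : x ≤ 0) : wV x = kk0 := pk_base' coe0 (by linarith)
theorem wV1 (x : ℝ) (hx : 1 ≤ x) : wV x = kk0 := pk_base coe0 (by linarith)

/-- prepending `a` -/
def cA : C(Moore kk0, Moore kk0) := preF wA 1 zero_le_one wA0 wA1
/-- prepending `s` -/
def cS : C(Moore kk0, Moore kk0) := preF wS 1 zero_le_one wS0 wS1
/-- prepending the inverse of `s` -/
def cV : C(Moore kk0, Moore kk0) := preF wV 1 zero_le_one wV0 wV1

theorem const_kk (x : ℝ) : ContinuousMap.const ℝ kk0 x = kk0 := rfl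

theorem preF_const : preF (k0 := kk0) (ContinuousMap.const ℝ kk0) 0 le_rfl
    (fun x _ => const_kk x) (fun x _ => const_kk x) = ContinuousMap.id (Moore kk0) := by
  ext γ
  apply Moore.ext'
  · intro x
    rw [preF_val]
    split_ifs with h
    · exact (γ.2.2.1 x h).symm
    · rw [sub_zero]
      rfl
  · rw [preF_len, zero_add]
    rfl

theorem over1 : OverH (Moore.fin kk0) (cV.comp cS) (ContinuousMap.id _) := by
  have hw0 : ∀ x : ℝ, x ≤ 0 → (pkF (fun _ => 0) (fun x : ℝ => |1 - x|) continuous_const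
      (by fun_prop) : C(ℝ, KK)) x = kk0 := fun x hx =>
    pk_base' coe0 (by change (1 : ℝ) ≤ |1 - x|; rw [abs_of_nonneg (by linarith)]; linarith)
  have hw1 : ∀ x : ℝ, 2 ≤ x → (pkF (fun _ => 0) (fun x : ℝ => |1 - x|) continuous_const
      (by fun_prop) : C(ℝ, KK)) x = kk0 := fun x hx =>
    pk_base' coe0 (by change (1 : ℝ) ≤ |1 - x|; rw [abs_of_nonpos (by linarith)]; linarith)
  have e1 : cV.comp cS = preF (k0 := kk0) (pkF (fun _ => 0) (fun x : ℝ => |1 - x|)
      continuous_const (by fun_prop)) 2 (by norm_num) hw0 hw1 := by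
    apply preF_comp
    · norm_num
    · intro x hx
      change pk 0 |1 - x| = pk 0 (1 - x)
      rw [abs_of_nonneg (by linarith)]
    · intro x hx _
      change pk 0 |1 - x| = pk 0 (x - 1)
      rw [abs_of_nonpos (by linarith), neg_sub]
  rw [e1, ← preF_const]
  refine over_fam (pkF (fun _ => 0) (fun y : I × ℝ => max |1 - y.2| (2 * (y.1 : ℝ)))
    continuous_const (by fun_prop)) ⟨fun t => min 2 (4 - 4 * (t : ℝ)), by fun_prop⟩ ?_ ?_ ?_ _ _
    _ _ _ _ _ _ _ _ ?_ ?_ ?_ ?_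
  · intro t
    exact le_min (by norm_num) (by linarith [t.2.2])
  · intro t x hx
    refine pk_base' coe0 (le_max_of_le_left ?_)
    rw [abs_of_nonneg (by linarith)]; linarith
  · intro t x hx
    change min 2 (4 - 4 * (t : ℝ)) ≤ x at hx
    rcases min_le_iff.mp hx with h | h
    · refine pk_base' coe0 (le_max_of_le_left ?_)
      rw [abs_of_nonpos (by linarith)]; linarith
    · by_cases h2 : 2 ≤ x
      · refine pk_base' coe0 (le_max_of_le_left ?_)
        rw [abs_of_nonpos (by linarith)]; linarith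
      · refine pk_base' coe0 (le_max_of_le_right ?_)
        linarith
  · intro x
    change pk 0 (max |1 - x| (2 * ((0 : I) : ℝ))) = pk 0 |1 - x|
    have e0 : ((0 : I) : ℝ) = 0 := rfl
    rw [e0, mul_zero, max_eq_left (abs_nonneg _)]
  · intro x
    have e1 : ((1 : I) : ℝ) = 1 := rfl
    refine pk_base' coe0 (le_max_of_le_right ?_)
    rw [e1]; norm_num
  · change min 2 (4 - 4 * ((0 : I) : ℝ)) = 2
    have e0 : ((0 : I) : ℝ) = 0 := rfl
    rw [e0]; norm_num
  · change min 2 (4 - 4 * ((1 : I) : ℝ)) = 0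
    have e1 : ((1 : I) : ℝ) = 1 := rfl
    rw [e1]; norm_num

theorem over2 : OverH (Moore.fin kk0) (cS.comp cV) (ContinuousMap.id _) := by
  have hw0 : ∀ x : ℝ, x ≤ 0 → (pkF (fun _ => 0) (fun x : ℝ => 1 - |1 - x|) continuous_const
      (by fun_prop) : C(ℝ, KK)) x = kk0 := fun x hx =>
    pk_base coe0 (by change 1 - |1 - x| ≤ 0; rw [abs_of_nonneg (by linarith)]; linarith)
  have hw1 : ∀ x : ℝ, 2 ≤ x → (pkF (fun _ => 0) (fun x : ℝ => 1 - |1 - x|) continuous_const
      (by fun_prop) : C(ℝ, KK)) x = kk0 := fun x hx =>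
    pk_base coe0 (by change 1 - |1 - x| ≤ 0; rw [abs_of_nonpos (by linarith)]; linarith)
  have e1 : cS.comp cV = preF (k0 := kk0) (pkF (fun _ => 0) (fun x : ℝ => 1 - |1 - x|)
      continuous_const (by fun_prop)) 2 (by norm_num) hw0 hw1 := by
    apply preF_comp
    · norm_num
    · intro x hx
      change pk 0 (1 - |1 - x|) = pk 0 x
      rw [abs_of_nonneg (by linarith)]
      congr 1
      ring
    · intro x hx _
      change pk 0 (1 - |1 - x|) = pk 0 (1 - (x - 1))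
      rw [abs_of_nonpos (by linarith), neg_sub]
  rw [e1, ← preF_const]
  refine over_fam (pkF (fun _ => 0) (fun y : I × ℝ => 1 - max |1 - y.2| (2 * (y.1 : ℝ)))
    continuous_const (by fun_prop)) ⟨fun t => min 2 (4 - 4 * (t : ℝ)), by fun_prop⟩ ?_ ?_ ?_ _ _
    _ _ _ _ _ _ _ _ ?_ ?_ ?_ ?_
  · intro t
    exact le_min (by norm_num) (by linarith [t.2.2])
  · intro t x hx
    refine pk_base coe0 (sub_nonpos.mpr (le_max_of_le_left ?_))
    rw [abs_of_nonneg (by linarith)]; linarith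
  · intro t x hx
    change min 2 (4 - 4 * (t : ℝ)) ≤ x at hx
    rcases min_le_iff.mp hx with h | h
    · refine pk_base coe0 (sub_nonpos.mpr (le_max_of_le_left ?_))
      rw [abs_of_nonpos (by linarith)]; linarith
    · by_cases h2 : 2 ≤ x
      · refine pk_base coe0 (sub_nonpos.mpr (le_max_of_le_left ?_))
        rw [abs_of_nonpos (by linarith)]; linarith
      · refine pk_base coe0 (sub_nonpos.mpr (le_max_of_le_right ?_))
        linarith
  · intro x
    change pk 0 (1 - max |1 - x| (2 * ((0 : I) : ℝ))) = pk 0 (1 - |1 - x|)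
    have e0 : ((0 : I) : ℝ) = 0 := rfl
    rw [e0, mul_zero, max_eq_left (abs_nonneg _)]
  · intro x
    have e1 : ((1 : I) : ℝ) = 1 := rfl
    refine pk_base coe0 (sub_nonpos.mpr (le_max_of_le_right ?_))
    rw [e1]; norm_num
  · change min 2 (4 - 4 * ((0 : I) : ℝ)) = 2
    have e0 : ((0 : I) : ℝ) = 0 := rfl
    rw [e0]; norm_num
  · change min 2 (4 - 4 * ((1 : I) : ℝ)) = 0
    have e1 : ((1 : I) : ℝ) = 1 := rfl
    rw [e1]; norm_num

theorem over3 : OverH (Moore.fin kk0) (cV.comp (cA.comp cS)) (cA.comp cA) := by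
  -- `a · s`
  have e1 : cA.comp cS = preF (k0 := kk0) (pkF (fun x => ((cl x : I) : ℝ)) (fun x : ℝ => x - 1)
      (cclv continuous_id) (by fun_prop)) 2 (by norm_num)
      (fun x hx => pk_base (coe_cl_le hx) (by linarith))
      (fun x hx => pk_base' (coe_cl_ge (by linarith)) (by linarith)) := by
    apply preF_comp
    · norm_num
    · intro x hx
      change pk _ (x - 1) = pk _ 0
      exact pk_congr (by rw [cl_le (by linarith), cl_le le_rfl])
    · intro x hx _
      change pk ((cl x : I) : ℝ) (x - 1) = pk 0 (x - 1)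
      unfold pk
      rw [coe_cl_ge (by linarith), coe0]
  -- `s⁻¹ · a · s`
  have h30 : ∀ x : ℝ, x ≤ 0 → (pkF (fun x => ((cl (x - 1) : I) : ℝ))
      (fun x : ℝ => max (1 - x) (x - 2)) (cclv (by fun_prop)) (by fun_prop) : C(ℝ, KK)) x =
      kk0 := fun x hx => pk_base' (coe_cl_le (by linarith)) (le_max_of_le_left (by linarith))
  have h31 : ∀ x : ℝ, 3 ≤ x → (pkF (fun x => ((cl (x - 1) : I) : ℝ))
      (fun x : ℝ => max (1 - x) (x - 2)) (cclv (by fun_prop)) (by fun_prop) : C(ℝ, KK)) x =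
      kk0 := fun x hx => pk_base' (coe_cl_ge (by linarith)) (le_max_of_le_right (by linarith))
  have e2 : cV.comp (cA.comp cS) = preF (k0 := kk0) (pkF (fun x => ((cl (x - 1) : I) : ℝ))
      (fun x : ℝ => max (1 - x) (x - 2)) (cclv (by fun_prop)) (by fun_prop)) 3 (by norm_num)
      h30 h31 := by
    rw [e1]
    apply preF_comp
    · norm_num
    · intro x hx
      change pk ((cl (x - 1) : I) : ℝ) (max (1 - x) (x - 2)) = pk 0 (1 - x)
      rw [clv_le (by linarith), max_eq_left (by linarith)]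
    · intro x hx _
      change pk ((cl (x - 1) : I) : ℝ) (max (1 - x) (x - 2)) = pk ((cl (x - 1) : I) : ℝ) (x - 1 - 1)
      apply pk_congr
      rcases le_total 0 (x - 2) with h | h
      · rw [max_eq_right (by linarith)]
        congr 1
        ring
      · rw [cl_le (max_le (by linarith) h), cl_le (by linarith)]
  -- `a · a`
  have h40 : ∀ x : ℝ, x ≤ 0 → (pkF (fun x => ((cl x : I) : ℝ) + ((cl (x - 1) : I) : ℝ))
      (fun _ : ℝ => 0) ((cclv continuous_id).add (cclv (by fun_prop))) continuous_const :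
      C(ℝ, KK)) x = kk0 := fun x hx => pk_base (by
        rw [AddCircle.coe_add, coe_cl_le hx, coe_cl_le (by linarith), add_zero]) le_rfl
  have h41 : ∀ x : ℝ, 2 ≤ x → (pkF (fun x => ((cl x : I) : ℝ) + ((cl (x - 1) : I) : ℝ))
      (fun _ : ℝ => 0) ((cclv continuous_id).add (cclv (by fun_prop))) continuous_const :
      C(ℝ, KK)) x = kk0 := fun x hx => pk_base (by
        rw [AddCircle.coe_add, coe_cl_ge (by linarith), coe_cl_ge (by linarith), add_zero]) le_rfl
  have e3 : cA.comp cA = preF (k0 := kk0) (pkF (fun x => ((cl x : I) : ℝ) +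
      ((cl (x - 1) : I) : ℝ)) (fun _ : ℝ => 0) ((cclv continuous_id).add (cclv (by fun_prop)))
      continuous_const) 2 (by norm_num) h40 h41 := by
    apply preF_comp
    · norm_num
    · intro x hx
      change pk (((cl x : I) : ℝ) + ((cl (x - 1) : I) : ℝ)) 0 = pk ((cl x : I) : ℝ) 0
      rw [clv_le (show x - 1 ≤ 0 by linarith), add_zero]
    · intro x hx _
      change pk (((cl x : I) : ℝ) + ((cl (x - 1) : I) : ℝ)) 0 = pk ((cl (x - 1) : I) : ℝ) 0
      unfold pk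
      rw [AddCircle.coe_add, coe_cl_ge hx, zero_add]
  -- the intermediate loop
  have h50 : ∀ x : ℝ, x ≤ 0 → (pkF (fun x => ((cl (x - 1) : I) : ℝ) + ((cl (x - 1) : I) : ℝ))
      (fun _ : ℝ => 0) ((cclv (by fun_prop)).add (cclv (by fun_prop))) continuous_const :
      C(ℝ, KK)) x = kk0 := fun x hx => pk_base (by
        rw [AddCircle.coe_add, coe_cl_le (by linarith), add_zero]) le_rfl
  have h51 : ∀ x : ℝ, 3 ≤ x → (pkF (fun x => ((cl (x - 1) : I) : ℝ) + ((cl (x - 1) : I) : ℝ))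
      (fun _ : ℝ => 0) ((cclv (by fun_prop)).add (cclv (by fun_prop))) continuous_const :
      C(ℝ, KK)) x = kk0 := fun x hx => pk_base (by
        rw [AddCircle.coe_add, coe_cl_ge (by linarith), add_zero]) le_rfl
  rw [e2, e3]
  refine OverH.trans (g := preF (k0 := kk0) (pkF (fun x => ((cl (x - 1) : I) : ℝ) +
    ((cl (x - 1) : I) : ℝ)) (fun _ : ℝ => 0) ((cclv (by fun_prop)).add (cclv (by fun_prop)))
    continuous_const) 3 (by norm_num) h50 h51) ?_ ?_
  · refine over_fam (pkF (fun y : I × ℝ => ((cl (y.2 - 1) : I) : ℝ))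
      (fun y : I × ℝ => max (max (1 - y.2) (y.2 - 2)) (y.1 : ℝ)) (cclv (by fun_prop))
      (by fun_prop)) (ContinuousMap.const _ 3) ?_ ?_ ?_ _ _ _ _ _ _ _ _ _ _ ?_ ?_ rfl rfl
    · intro t
      norm_num
    · intro t x hx
      exact pk_base' (coe_cl_le (by linarith)) (le_max_of_le_left (le_max_of_le_left
        (by linarith)))
    · intro t x hx
      change (3 : ℝ) ≤ x at hx
      exact pk_base' (coe_cl_ge (by linarith)) (le_max_of_le_left (le_max_of_le_right
        (by linarith)))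
    · intro x
      have e0 : ((0 : I) : ℝ) = 0 := rfl
      change pk ((cl (x - 1) : I) : ℝ) (max (max (1 - x) (x - 2)) ((0 : I) : ℝ)) =
        pk ((cl (x - 1) : I) : ℝ) (max (1 - x) (x - 2))
      apply pk_congr
      rw [e0]
      rcases le_total (max (1 - x) (x - 2)) 0 with h | h
      · rw [max_eq_right h, cl_le le_rfl, cl_le h]
      · rw [max_eq_left h]
    · intro x
      have e1 : ((1 : I) : ℝ) = 1 := rfl
      change pk ((cl (x - 1) : I) : ℝ) (max (max (1 - x) (x - 2)) ((1 : I) : ℝ)) =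
        pk (((cl (x - 1) : I) : ℝ) + ((cl (x - 1) : I) : ℝ)) 0
      exact pk_top (le_max_of_le_right e1.ge)
  · refine over_fam (pkF (fun y : I × ℝ => (1 - (y.1 : ℝ)) * (((cl (y.2 - 1) : I) : ℝ) +
      ((cl (y.2 - 1) : I) : ℝ)) + (y.1 : ℝ) * (((cl y.2 : I) : ℝ) + ((cl (y.2 - 1) : I) : ℝ)))
      (fun _ => 0) ?_ continuous_const) ⟨fun t => 3 - (t : ℝ), by fun_prop⟩ ?_ ?_ ?_ _ _ _ _ _
      _ _ _ _ _ ?_ ?_ ?_ ?_
    · have h1 : Continuous fun y : I × ℝ => ((cl (y.2 - 1) : I) : ℝ) := cclv (by fun_prop)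
      have h2 : Continuous fun y : I × ℝ => ((cl y.2 : I) : ℝ) := cclv (by fun_prop)
      fun_prop
    · intro t
      change 0 ≤ 3 - (t : ℝ)
      linarith [t.2.2]
    · intro t x hx
      refine pk_base ?_ le_rfl
      change (((1 - (t : ℝ)) * (((cl (x - 1) : I) : ℝ) + ((cl (x - 1) : I) : ℝ)) +
        (t : ℝ) * (((cl x : I) : ℝ) + ((cl (x - 1) : I) : ℝ)) : ℝ) : Cir) = 0
      rw [clv_le (show x - 1 ≤ 0 by linarith), clv_le hx]
      simp
    · intro t x hx
      change 3 - (t : ℝ) ≤ x at hx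
      have ht := t.2.2
      refine pk_base ?_ le_rfl
      change (((1 - (t : ℝ)) * (((cl (x - 1) : I) : ℝ) + ((cl (x - 1) : I) : ℝ)) +
        (t : ℝ) * (((cl x : I) : ℝ) + ((cl (x - 1) : I) : ℝ)) : ℝ) : Cir) = 0
      rw [clv_ge (show 1 ≤ x - 1 by linarith), clv_ge (show 1 ≤ x by linarith)]
      have h2 : (1 - (t : ℝ)) * (1 + 1) + (t : ℝ) * (1 + 1) = 1 + 1 := by ring
      rw [h2, AddCircle.coe_add, coe1, add_zero]
    · intro x
      have e0 : ((0 : I) : ℝ) = 0 := rfl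
      change pk ((1 - ((0 : I) : ℝ)) * (((cl (x - 1) : I) : ℝ) + ((cl (x - 1) : I) : ℝ)) +
        ((0 : I) : ℝ) * (((cl x : I) : ℝ) + ((cl (x - 1) : I) : ℝ))) 0 = pk _ 0
      rw [e0]
      congr 1
      ring
    · intro x
      have e1 : ((1 : I) : ℝ) = 1 := rfl
      change pk ((1 - ((1 : I) : ℝ)) * (((cl (x - 1) : I) : ℝ) + ((cl (x - 1) : I) : ℝ)) +
        ((1 : I) : ℝ) * (((cl x : I) : ℝ) + ((cl (x - 1) : I) : ℝ))) 0 = pk _ 0
      rw [e1]
      congr 1
      ring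
    · change 3 - ((0 : I) : ℝ) = 3
      have e0 : ((0 : I) : ℝ) = 0 := rfl
      rw [e0]; norm_num
    · change 3 - ((1 : I) : ℝ) = 2
      have e1 : ((1 : I) : ℝ) = 1 := rfl
      rw [e1]; norm_num

theorem cC : S_C := by
  refine ⟨Moore kk0, inferInstance, Moore.fin kk0, Moore.nil kk0, truncH kk0, cA, cS, cV, rfl,
    truncH_zero, truncH_one, truncH_nil, fun c => preF_fin _ _ _ _ _ _,
    fun c => preF_fin _ _ _ _ _ _, fun c => preF_fin _ _ _ _ _ _, over1, over2, over3, ?_⟩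
  intro s
  rw [truncH_fin]
  have h1 : (cA (Moore.nil kk0)).1.2 = 1 := by
    change (1 : ℝ) + 0 = 1
    norm_num
  rw [h1, mul_one]
  change (if (1 - (s : ℝ)) ≤ 1 then wA (1 - (s : ℝ)) else _) = _
  rw [if_pos (by linarith [s.2.1])]
  change pk ((cl (1 - (s : ℝ)) : I) : ℝ) 0 = _
  rw [coe_cl (by linarith [s.2.2]) (by linarith [s.2.1])]
  unfold pk
  rw [cl_le le_rfl]

end

end Pool.Agent.W622.SC
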