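import Pool.Agent.W622.SC.Fin1

/-! # Deductions for the hand-ins -/

set_option autoImplicit false

open unitInterval Topology ContinuousMap

namespace Pool.Agent.W622.SC

/-- The negation of the problem Q1 of MP_88597d_gt. -/
theorem Hyps.frozen (hy : Hyps) :
    ¬ (∀ (X : Type) [TopologicalSpace X] [T2Space X] [Topology.CWComplex (Set.univ : Set X)]
    [ConnectedSpace X] (x₀ : X) (φ : FundamentalGroup X x₀ →* Multiplicative ℤ),
    Function.Surjective φ →
    (∃ (n : ℕ) (R : Finset (FreeGroup (Fin n))),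
      Nonempty (↥φ.ker ≃* PresentedGroup (R : Set (FreeGroup (Fin n))))) →
    ∀ (k : ℕ), 1 < k →
    ∀ (Xk : Type) [TopologicalSpace Xk] [ConnectedSpace Xk] (pk : Xk → X) (h : C(X, Xk)),
      IsCoveringMap pk →
      (∀ γ : Path x₀ x₀, (∃ γ' : Path (h x₀) (h x₀), ∀ s, pk (γ' s) = γ s) ↔
          (k : ℤ) ∣ Multiplicative.toAdd (φ (FundamentalGroup.fromPath (Quotient.mk _ γ)))) →
      (∃ g : C(Xk, X), (g.comp h).Homotopic (ContinuousMap.id X) ∧
          (h.comp g).Homotopic (ContinuousMap.id Xk)) →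
      (∀ δ : Path (h x₀) (h x₀),
        (∃ γ : Path x₀ x₀, φ (FundamentalGroup.fromPath (Quotient.mk _ γ)) = 1 ∧
            ∀ s, pk (δ s) = γ s) ↔
        (∃ γ : Path x₀ x₀, φ (FundamentalGroup.fromPath (Quotient.mk _ γ)) = 1 ∧
            (γ.map h.continuous).Homotopic δ)) →
      (∃ (Y : Type) (_ : TopologicalSpace Y) (_ : T2Space Y)
          (_ : Topology.CWComplex (Set.univ : Set Y)),
        Topology.RelCWComplex.FiniteType (Set.univ : Set Y) ∧
          Nonempty (ContinuousMap.HomotopyEquiv X Y)) →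
      ∀ (Xinf : Type) [TopologicalSpace Xinf] [ConnectedSpace Xinf] (pinf : Xinf → X)
        (xinf : Xinf),
        IsCoveringMap pinf →
        (∀ γ : Path x₀ x₀, (∃ γ' : Path xinf xinf, ∀ s, pinf (γ' s) = γ s) ↔
          φ (FundamentalGroup.fromPath (Quotient.mk _ γ)) = 1) →
        ∃ (Y : Type) (_ : TopologicalSpace Y) (_ : T2Space Y)
          (_ : Topology.CWComplex (Set.univ : Set Y)),
          Topology.RelCWComplex.FiniteType (Set.univ : Set Y) ∧
            Nonempty (ContinuousMap.HomotopyEquiv Xinf Y)) := by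
  intro H
  obtain ⟨X, _, _, cw, x₀, φ, X₂, _, p, h, Z, _, pz, z₀, hx, hfin, hX, hX₂, hZ, hs, hfp, hcov,
    hcard, h2, ⟨g, hg0, hg1, hg2⟩, hφ2, hcond, hcz, hz0, hzl, hnd, hnf⟩ := hy.final
  apply hnf
  exact H X x₀ φ hs hfp 2 (by norm_num) X₂ p h hcov h2 ⟨g, hg1, hg2⟩ hcond
    ⟨X, inferInstance, inferInstance, cw, hfin.toFiniteType,
      ⟨ContinuousMap.HomotopyEquiv.refl X⟩⟩ Z pz z₀ hcz hzl

end Pool.Agent.W622.SC
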