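import Pool.Agent.W622.SC.Flow

/-! # `S_htpy`: mapping tori of homotopic maps -/

set_option autoImplicit false

open unitInterval Topology ContinuousMap

namespace Pool.Agent.W622.SC

noncomputable section

section Htpy

variable {E : Type} [TopologicalSpace E] {f f' : C(E, E)} (F : ContinuousMap.Homotopy f f')

/-- the map before descending -/
def hAF (x : E × I) : MT f' :=
  if (x.2 : ℝ) ≤ 1 / 2 then MT.mk f' (x.1, cl (2 * (x.2 : ℝ)))
  else MT.mk f' (F (cl (2 - 2 * (x.2 : ℝ)), x.1), 0)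

theorem hAF_le {x : E} {u : I} (h : (u : ℝ) ≤ 1 / 2) :
    hAF F (x, u) = MT.mk f' (x, cl (2 * (u : ℝ))) := by
  unfold hAF
  rw [if_pos h]

theorem hAF_ge {x : E} {u : I} (h : 1 / 2 ≤ (u : ℝ)) :
    hAF F (x, u) = MT.mk f' (F (cl (2 - 2 * (u : ℝ)), x), 0) := by
  unfold hAF
  split_ifs with h2
  · have h3 : (u : ℝ) = 1 / 2 := le_antisymm h2 h
    rw [h3, cl_ge (by norm_num), cl_ge (by norm_num), MT.glue, F.apply_one]
  · rfl

theorem continuous_hAF : Continuous (hAF F) := by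
  have c1 := continuous_cl
  unfold hAF
  apply Continuous.if_le
  · apply (MT.mk f').continuous.comp
    fun_prop
  · apply (MT.mk f').continuous.comp
    have : Continuous fun x : E × I => F (cl (2 - 2 * (x.2 : ℝ)), x.1) :=
      F.continuous.comp (by fun_prop)
    fun_prop
  · fun_prop
  · fun_prop
  · rintro ⟨x, u⟩ hu
    simp only at hu ⊢
    rw [hu, cl_ge (by norm_num), cl_ge (by norm_num), MT.glue, F.apply_one]

/-- The map `T(f) → T(f')`. -/
def hA : C(MT f, MT f') := MT.lift ⟨hAF F, continuous_hAF F⟩ (by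
  intro x
  change hAF F (x, 1) = hAF F (f x, 0)
  have e1 : ((1 : I) : ℝ) = 1 := rfl
  have e0 : ((0 : I) : ℝ) = 0 := rfl
  rw [hAF_ge F (by rw [e1]; norm_num), hAF_le F (by rw [e0]; norm_num), e1, e0,
    cl_le (by norm_num), cl_le (by norm_num), F.apply_zero])

theorem hA_mk (x : E × I) : hA F (MT.mk f x) = hAF F x := rfl

/-- the excursion -/
def thE (u : I) : I := cl (min (4 * (u : ℝ) - 1) (2 - 2 * (u : ℝ)))

theorem continuous_thE : Continuous thE := by
  have c1 := continuous_cl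
  unfold thE
  fun_prop

/-- the first homotopy -/
def exF (x : I × (E × I)) : MT f :=
  if (x.2.2 : ℝ) ≤ 1 / 4 then MT.mk f (x.2.1, cl (4 * (x.2.2 : ℝ)))
  else MT.mk f (F (x.1 * thE x.2.2, x.2.1), 0)

theorem exF_le {x : E} {u s : I} (h : (u : ℝ) ≤ 1 / 4) :
    exF F (s, (x, u)) = MT.mk f (x, cl (4 * (u : ℝ))) := by
  unfold exF
  rw [if_pos h]

theorem exF_ge {x : E} {u s : I} (h : 1 / 4 ≤ (u : ℝ)) :
    exF F (s, (x, u)) = MT.mk f (F (s * thE u, x), 0) := by
  unfold exF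
  split_ifs with h2
  · have h3 : (u : ℝ) = 1 / 4 := le_antisymm h2 h
    have h4 : thE u = 0 := by
      unfold thE
      rw [h3, cl_le (by norm_num)]
    simp only at h2 ⊢
    rw [h4, h3, cl_ge (by norm_num), MT.glue, mul_zero, F.apply_zero]
  · rfl

theorem continuous_exF : Continuous (exF F) := by
  have c1 := continuous_cl
  have c2 := continuous_thE
  unfold exF
  apply Continuous.if_le
  · apply (MT.mk f).continuous.comp
    fun_prop
  · apply (MT.mk f).continuous.comp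
    have : Continuous fun x : I × (E × I) => F (x.1 * thE x.2.2, x.2.1) :=
      F.continuous.comp (by fun_prop)
    fun_prop
  · fun_prop
  · fun_prop
  · rintro ⟨s, x, u⟩ hu
    simp only at hu ⊢
    have h4 : thE u = 0 := by
      unfold thE
      rw [hu, cl_le (by norm_num)]
    rw [h4, hu, cl_ge (by norm_num), MT.glue, mul_zero, F.apply_zero]

/-- the first homotopy -/
def ex : C(I × MT f, MT f) := MT.liftH ⟨exF F, continuous_exF F⟩ (by
  intro s x
  change exF F (s, (x, 1)) = exF F (s, (f x, 0))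
  have e1 : ((1 : I) : ℝ) = 1 := rfl
  have e0 : ((0 : I) : ℝ) = 0 := rfl
  have h4 : thE 1 = 0 := by
    unfold thE
    rw [e1, cl_le (by norm_num)]
  rw [exF_ge F (by rw [e1]; norm_num), exF_le F (by rw [e0]; norm_num), e0, h4, mul_zero,
    mul_zero, cl_le le_rfl, F.apply_zero])

/-- the second homotopy -/
def rp (f : C(E, E)) : C(I × MT f, MT f) := MT.liftH
  ⟨fun y => MT.mk f (y.2.1, cl ((1 + 3 * (y.1 : ℝ)) * (y.2.2 : ℝ))), by
    have c1 := continuous_cl
    fun_prop⟩ (by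
    intro s x
    have e1 : ((1 : I) : ℝ) = 1 := rfl
    have e0 : ((0 : I) : ℝ) = 0 := rfl
    change MT.mk f (x, cl ((1 + 3 * (s : ℝ)) * ((1 : I) : ℝ))) =
      MT.mk f (f x, cl ((1 + 3 * (s : ℝ)) * ((0 : I) : ℝ)))
    rw [e1, e0, mul_one, mul_zero, cl_ge (by linarith [s.2.1]), cl_le le_rfl, MT.glue])

theorem rp_zero (y : MT f) : rp f (0, y) = y := by
  revert y
  apply MT.ind
  intro x u
  change MT.mk f (x, cl ((1 + 3 * ((0 : I) : ℝ)) * (u : ℝ))) = _
  have e0 : ((0 : I) : ℝ) = 0 := rfl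
  rw [e0, mul_zero, add_zero, one_mul, cl_coe]

theorem rp_one (y : MT f) : rp f (1, y) = ex F (0, y) := by
  revert y
  apply MT.ind
  intro x u
  change MT.mk f (x, cl ((1 + 3 * ((1 : I) : ℝ)) * (u : ℝ))) = exF F (0, (x, u))
  have e1 : ((1 : I) : ℝ) = 1 := rfl
  rw [e1, show (1 : ℝ) + 3 * 1 = 4 by norm_num]
  rcases le_total (u : ℝ) (1 / 4) with hu | hu
  · rw [exF_le F hu]
  · rw [exF_ge F hu, zero_mul, F.apply_zero, cl_ge (by linarith), MT.glue]

theorem ex_one (y : MT f) : ex F (1, y) = hA F.symm (hA F y) := by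
  revert y
  apply MT.ind
  intro x u
  change exF F (1, (x, u)) = hA F.symm (hAF F (x, u))
  rcases le_total (u : ℝ) (1 / 2) with hu | hu
  · rw [hAF_le F hu, hA_mk]
    have e1 : ((cl (2 * (u : ℝ)) : I) : ℝ) = 2 * (u : ℝ) :=
      coe_cl (by linarith [u.2.1]) (by linarith)
    rcases le_total (u : ℝ) (1 / 4) with hv | hv
    · rw [exF_le F hv, hAF_le F.symm (by rw [e1]; linarith), e1, ← mul_assoc]
      norm_num
    · rw [exF_ge F hv, hAF_ge F.symm (by rw [e1]; linarith), e1, one_mul,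
        ContinuousMap.Homotopy.symm_apply]
      have h5 : thE u = σ (cl (2 - 2 * (2 * (u : ℝ)))) := by
        unfold thE
        apply Subtype.ext
        rw [min_eq_left (by linarith), unitInterval.coe_symm_eq, coe_cl (by linarith)
          (by linarith), coe_cl (by linarith) (by linarith)]
        ring
      rw [h5]
  · rw [exF_ge F (by linarith), hAF_ge F hu, hA_mk]
    have e0 : ((0 : I) : ℝ) = 0 := rfl
    rw [hAF_le F.symm (by rw [e0]; norm_num), e0, mul_zero, cl_le le_rfl, one_mul]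
    have h5 : thE u = cl (2 - 2 * (u : ℝ)) := by
      unfold thE
      rw [min_eq_right (by linarith)]
    rw [h5]

theorem hA_htpy : ((hA F.symm).comp (hA F)).Homotopic (ContinuousMap.id _) := by
  have h1 : (ContinuousMap.id (MT f)).Homotopic ⟨fun y => ex F (0, y), by fun_prop⟩ :=
    ⟨⟨rp f, rp_zero, rp_one F⟩⟩
  have h2 : (⟨fun y => ex F (0, y), by fun_prop⟩ : C(MT f, MT f)).Homotopic
      ((hA F.symm).comp (hA F)) := ⟨⟨ex F, fun _ => rfl, ex_one F⟩⟩
  exact (h1.trans h2).symm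

theorem hA_base (x : E) : hA F (MT.mk f (x, 0)) = MT.mk f' (x, 0) := by
  have e0 : ((0 : I) : ℝ) = 0 := rfl
  rw [hA_mk, hAF_le F (by rw [e0]; norm_num), e0, mul_zero, cl_le le_rfl]

theorem hA_ht : ((MT.ht f').comp (hA F)).Homotopic (MT.ht f) := by
  have c1 := continuous_cl
  refine ⟨ContinuousMap.Homotopy.symm ⟨MT.liftH (f := f)
    ⟨fun y => ((((cl ((1 + (y.1 : ℝ)) * (y.2.2 : ℝ)) : I) : ℝ)) : Cir), by fun_prop⟩ ?_,
    ?_, ?_⟩⟩
  · intro s x
    have e1 : ((1 : I) : ℝ) = 1 := rfl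
    have e0 : ((0 : I) : ℝ) = 0 := rfl
    change ((((cl ((1 + (s : ℝ)) * ((1 : I) : ℝ)) : I) : ℝ)) : Cir) =
      ((((cl ((1 + (s : ℝ)) * ((0 : I) : ℝ)) : I) : ℝ)) : Cir)
    rw [e1, e0, mul_one, mul_zero, cl_ge (by linarith [s.2.1]), cl_le le_rfl, e1, e0]
    simp
  · apply MT.ind
    intro x u
    change ((((cl ((1 + ((0 : I) : ℝ)) * (u : ℝ)) : I) : ℝ)) : Cir) = _
    have e0 : ((0 : I) : ℝ) = 0 := rfl
    rw [e0, add_zero, one_mul, cl_coe]
    rfl
  · apply MT.ind
    intro x u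
    change ((((cl ((1 + ((1 : I) : ℝ)) * (u : ℝ)) : I) : ℝ)) : Cir) = MT.ht f' (hAF F (x, u))
    have e1 : ((1 : I) : ℝ) = 1 := rfl
    have e0 : ((0 : I) : ℝ) = 0 := rfl
    rw [e1, show (1 : ℝ) + 1 = 2 by norm_num]
    rcases le_total (u : ℝ) (1 / 2) with hu | hu
    · rw [hAF_le F hu]
      rfl
    · rw [hAF_ge F hu, cl_ge (by linarith), MT.ht_mk, e1]
      change ((1 : ℝ) : Cir) = (((0 : I) : ℝ) : Cir)
      rw [e0]
      simp

end Htpy

theorem htpy : S_htpy := by
  intro E B _ f f' x ⟨F⟩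
  have hs : F.symm.symm = F := ContinuousMap.Homotopy.symm_symm F
  refine ⟨hA F, hA F.symm, hA_htpy F, ?_, fun i => hA_base F _, fun i => hA_base F.symm _,
    hA_ht F⟩
  have h1 := hA_htpy F.symm
  rw [hs] at h1
  exact h1

end

end Pool.Agent.W622.SC
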