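import Pool.Agent.W622.SC.Word

/-! # `S_PhiA` -/

set_option autoImplicit false

open unitInterval Topology ContinuousMap

namespace Pool.Agent.W622.SC

noncomputable section

theorem phiA : S_PhiA := by
  intro Q _ _ _ q0 F hF Y _ y0 d hd ε
  let k : C(Wd (Fin 3) (S2.pt q0), Y) := Wd.desc (fun j => if ε j = true then d.toMap else
    ContinuousMap.const _ y0) y0 (by
      intro j
      split_ifs
      · exact d.toMap_pt
      · rfl)
  have hk : k (Wd.pt (Fin 3) (S2.pt q0)) = y0 := rfl
  have hkj : ∀ j p, k (Wd.inJ (S2.pt q0) j p) = if ε j = true then d.toMap p else y0 := by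
    intro j p
    change (if ε j = true then d.toMap else ContinuousMap.const _ y0 : C(S2 q0, Y)) p = _
    split_ifs <;> rfl
  have hj : ∀ j, postHom q0 k hk (LP.inJ q0 j).cls = if ε j = true then d.cls else 1 := by
    intro j
    rw [postHom_cls]
    split_ifs with h
    · congr 1
      apply GenLoop.ext
      intro t
      apply Subtype.ext
      ext q
      change k (Wd.inJ (S2.pt q0) j (S2.mk q0 (t, q))) = _
      rw [hkj, if_pos h, LP.toMap_mk]
    · rw [one_eq_cls]
      congr 1
      apply GenLoop.ext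
      intro t
      apply Subtype.ext
      ext q
      change k (Wd.inJ (S2.pt q0) j (S2.mk q0 (t, q))) = _
      rw [hkj, if_neg h]
      rfl
  have h1 : (LP.post k hk F).cls = if (xor (ε 0) (ε 2)) = true then d.cls else 1 := by
    rw [← postHom_cls, hF, map_mul, map_mul, map_pow, hj, hj, hj]
    cases ε 0 <;> cases ε 1 <;> cases ε 2 <;> simp [hd, ← sq]
  have h2 : ∃ G : LP q0 y0, G.cls = (LP.post k hk F).cls ∧
      ∀ p, G.toMap p = if (xor (ε 0) (ε 2)) = true then d.toMap p else y0 := by
    by_cases h : (xor (ε 0) (ε 2)) = true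
    · refine ⟨d, ?_, fun p => ?_⟩
      · rw [h1, if_pos h]
      · rw [if_pos h]
    · refine ⟨GenLoop.const, ?_, fun p => ?_⟩
      · rw [h1, if_neg h, one_eq_cls]
      · rw [if_neg h]
        obtain ⟨⟨t, q⟩, rfl⟩ := S2.mk_surj q0 p
        rfl
  obtain ⟨G, hG1, hG2⟩ := h2
  obtain ⟨H, H0, H1, Hp⟩ := htpy_of_cls_eq hG1
  refine ⟨H, fun p => ?_, fun p j p' hp => ?_, Hp⟩
  · rw [H0, hG2]
  · rw [H1, LP.toMap_post, ContinuousMap.comp_apply, hp, hkj]

end

end Pool.Agent.W622.SC
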