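import Mathlib

/-! # A cocycle on a group with an element of infinite order -/

set_option autoImplicit false

namespace Pool.Agent.W622.SC

/-- antiderivatives of functions on `ℤ` -/
theorem exists_antideriv (b : ℤ → ZMod 2) : ∃ S : ℤ → ZMod 2, ∀ k, S (k + 1) = S k + b k := by
  refine ⟨fun k => (∑ i ∈ Finset.Ico 0 k, b i) + ∑ i ∈ Finset.Ico k 0, b i, ?_⟩
  intro k
  simp only
  rcases le_or_gt 0 k with hk | hk
  · have h1 : Finset.Ico (k + 1) 0 = ∅ := Finset.Ico_eq_empty (by omega)
    have h2 : Finset.Ico k 0 = ∅ := Finset.Ico_eq_empty (by omega)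
    have h3 : Finset.Ico 0 (k + 1) = insert k (Finset.Ico 0 k) := by
      ext i
      simp only [Finset.mem_Ico, Finset.mem_insert]
      omega
    rw [h1, h2, h3, Finset.sum_insert (by simp)]
    ring
  · have h1 : Finset.Ico 0 (k + 1) = ∅ := Finset.Ico_eq_empty (by omega)
    have h2 : Finset.Ico 0 k = ∅ := Finset.Ico_eq_empty (by omega)
    have h3 : Finset.Ico k 0 = insert k (Finset.Ico (k + 1) 0) := by
      ext i
      simp only [Finset.mem_Ico, Finset.mem_insert]
      omega
    rw [h1, h2, h3, Finset.sum_insert (by simp)]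
    have h4 : b k + b k = 0 := CharTwo.add_self_eq_zero _
    calc (∑ i ∈ (∅ : Finset ℤ), b i) + ∑ i ∈ Finset.Ico (k + 1) 0, b i
        = (∑ i ∈ (∅ : Finset ℤ), b i) + ∑ i ∈ Finset.Ico (k + 1) 0, b i + (b k + b k) := by
          rw [h4, add_zero]
      _ = _ := by ring

theorem exists_cocyc {G : Type*} [Group G] (β : G) (hβ : ∀ n : ℕ, 0 < n → β ^ n ≠ 1)
    (a : G → ZMod 2) : ∃ c : G → ZMod 2, ∀ g, c g + c (g * β) = a g := by
  have hinj : Function.Injective fun k : ℤ => β ^ k := by
    apply injective_zpow_iff_not_isOfFinOrder.mpr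
    rw [isOfFinOrder_iff_pow_eq_one]
    rintro ⟨n, hn, h⟩
    exact hβ n hn h
  let o : G → G := fun g => (QuotientGroup.mk g : G ⧸ Subgroup.zpowers β).out
  have ho : ∀ g, ∃ k : ℤ, g = o g * β ^ k := by
    intro g
    obtain ⟨⟨h, hh⟩, h1⟩ := QuotientGroup.mk_out_eq_mul (Subgroup.zpowers β) g
    obtain ⟨k, hk⟩ := Subgroup.mem_zpowers_iff.mp hh
    refine ⟨-k, ?_⟩
    change (QuotientGroup.mk g : G ⧸ Subgroup.zpowers β).out = g * h at h1
    change g = (QuotientGroup.mk g : G ⧸ Subgroup.zpowers β).out * β ^ (-k)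
    rw [h1, ← hk, zpow_neg, mul_inv_cancel_right]
  choose k hk using ho
  have ho2 : ∀ g, o (g * β) = o g := by
    intro g
    have : (QuotientGroup.mk (g * β) : G ⧸ Subgroup.zpowers β) = QuotientGroup.mk g := by
      rw [eq_comm, QuotientGroup.eq]
      simp
    change (QuotientGroup.mk (g * β) : G ⧸ Subgroup.zpowers β).out = _
    rw [this]
  have hk2 : ∀ g, k (g * β) = k g + 1 := by
    intro g
    have h1 := hk (g * β)
    rw [ho2] at h1
    have h2 : g * β = o g * β ^ (k g + 1) := by
      rw [zpow_add_one, ← mul_assoc, ← hk]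
    exact hinj (mul_left_cancel (h1.symm.trans h2))
  choose S hS using fun r : G => exists_antideriv (fun j => a (r * β ^ j))
  refine ⟨fun g => S (o g) (k g), fun g => ?_⟩
  simp only
  rw [ho2, hk2, hS, ← add_assoc, CharTwo.add_self_eq_zero, zero_add, ← hk]

/-- The sequence of functions used in the detection. -/
theorem exists_seq {G : Type*} [Group G] (β : G) (hβ : ∀ n : ℕ, 0 < n → β ^ n ≠ 1) (n : ℤ) :
    ∃ c : ℤ → G → ZMod 2, (∀ m < n, ∀ g, c m g = 0) ∧ (∀ g, c n g = 1) ∧
      ∀ m g, c m g = c (m + 1) g + c (m + 1) (g * β) := by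
  choose T hT using exists_cocyc β hβ
  let d : ℕ → G → ZMod 2 := fun k => T^[k] (fun _ => 1)
  refine ⟨fun m g => if m < n then 0 else d (m - n).toNat g, fun m hm g => if_pos hm,
    fun g => ?_, fun m g => ?_⟩
  · simp only [lt_irrefl, if_false, sub_self, Int.toNat_zero]
    rfl
  · simp only
    rcases lt_trichotomy (m + 1) n with h | h | h
    · rw [if_pos (by omega), if_pos h, if_pos h, add_zero]
    · rw [if_pos (by omega), if_neg (by omega), if_neg (by omega), h, sub_self, Int.toNat_zero]
      exact (CharTwo.add_self_eq_zero _).symm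
    · rw [if_neg (by omega), if_neg (by omega), if_neg (by omega)]
      have h1 : (m + 1 - n).toNat = (m - n).toNat + 1 := by omega
      rw [h1]
      have h2 : d ((m - n).toNat + 1) = T (d (m - n).toNat) := by
        change T^[(m - n).toNat + 1] _ = T (T^[(m - n).toNat] _)
        rw [Function.iterate_succ_apply']
      rw [h2, hT]

end Pool.Agent.W622.SC
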