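import Pool.Agent.W622.SC.Word
import Pool.Agent.W622.SC.Cocyc

/-! # `S_Phi` -/

set_option linter.unusedSectionVars false
set_option autoImplicit false

open unitInterval Topology ContinuousMap

namespace Pool.Agent.W622.SC

noncomputable section

/-- A quotient map times a locally compact space is a quotient map. -/
theorem quot_prod {X X' Y : Type} [TopologicalSpace X] [TopologicalSpace X'] [TopologicalSpace Y]
    [LocallyCompactSpace Y] {f : X → X'} (hf : IsQuotientMap f) :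
    IsQuotientMap (Prod.map f (id : Y → Y)) := by
  have hc : Continuous (Prod.map f (id : Y → Y)) := hf.continuous.prodMap continuous_id
  refine ⟨Topology.isCoinducing_iff.mpr ?_, hf.surjective.prodMap Function.surjective_id⟩
  intro s
  constructor
  · intro h
    have := @Topology.IsQuotientMap.continuous_lift_prod_left X X' Y (X' × Y) _ _ _
      (TopologicalSpace.coinduced (Prod.map f (id : Y → Y)) inferInstance) _ f hf id
      continuous_coinduced_rng
    exact (continuous_def.mp this) s (isOpen_coinduced.mpr h)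
  · intro h
    exact h.preimage hc

/-- `Z` with the indiscrete topology. -/
def Ind (Z : Type) : Type := Z

instance (Z : Type) : TopologicalSpace (Ind Z) := ⊤

/-- every function into an indiscrete space is continuous -/
def toInd {X Z : Type} [TopologicalSpace X] (g : X → Z) : C(X, Ind Z) :=
  ⟨g, continuous_top⟩

section Phi

variable {Q K C Kh G Y : Type} [TopologicalSpace Q] [CompactSpace Q] [T2Space Q] {q0 : Q}
  [TopologicalSpace K] [TopologicalSpace C] [TopologicalSpace Kh] [Group G] [MulAction G Kh]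
  [TopologicalSpace Y]

open Classical in
/-- The value. -/
def vl (y0 : Y) (c' : C(C, Kh)) (φ : ℤ → G → C(I × S2 q0, Y)) (m : ℤ) (u : I) (x : C × S2 q0)
    (k : Kh) : Y :=
  if h : ∃ g : G, k = g • c' x.1 then φ m h.choose (u, x.2) else y0

variable {e : C(C, K)} {q : Kh → K} (hq : IsQuotientCoveringMap q G) (c' : C(C, Kh))
  (hc' : ∀ c, q (c' c) = e c) (y0 : Y) (φ : ℤ → G → C(I × S2 q0, Y))

include hq in
theorem free_act {g g' : G} {x : Kh} (h : g • x = g' • x) : g = g' := by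
  have h1 : (g'⁻¹ * g) • x = x := by
    rw [mul_smul, h, inv_smul_smul]
  obtain ⟨U, hU, hU2⟩ := hq.disjoint x
  have h2 := hU2 (g'⁻¹ * g) ⟨x, ⟨x, mem_of_mem_nhds hU, h1⟩, mem_of_mem_nhds hU⟩
  exact (inv_mul_eq_one.mp h2).symm

include hq in
theorem vl_eq (m : ℤ) (u : I) (c : C) (p : S2 q0) (g : G) :
    vl y0 c' φ m u (c, p) (g • c' c) = φ m g (u, p) := by
  have h : ∃ g' : G, g • c' c = g' • c' c := ⟨g, rfl⟩
  unfold vl
  rw [dif_pos h]
  have h2 : h.choose = g := (free_act hq h.choose_spec).symm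
  rw [h2]

include hq hc' in
theorem vl_ne (m : ℤ) (u : I) (c : C) (p : S2 q0) (k : Kh) (hk : q k ≠ e c) :
    vl y0 c' φ m u (c, p) k = y0 := by
  unfold vl
  rw [dif_neg]
  rintro ⟨g, hg⟩
  apply hk
  rw [hg, ← hc' c]
  exact hq.apply_eq_iff_mem_orbit.mpr ⟨g, rfl⟩

include hq hc' in
theorem exists_g (c : C) (k : Kh) (hk : q k = e c) : ∃ g : G, k = g • c' c := by
  rw [← hc' c] at hk
  obtain ⟨g, hg⟩ := hq.apply_eq_iff_mem_orbit.mp hk
  exact ⟨g, hg.symm⟩

variable (hφ0 : ∀ m g u, φ m g (u, S2.pt q0) = y0)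

/-- The values over the point `x` of `K ∪ (C × P)`. -/
def v1 (m : ℤ) (u : I) : C(At e (S2.pt q0), Ind (Kh → Y)) :=
  At.lift (toInd fun _ _ => y0) (toInd fun x k => vl y0 c' φ m u x k) (by
    intro c
    funext k
    change vl y0 c' φ m u (c, S2.pt q0) k = y0
    unfold vl
    split_ifs with h
    · exact hφ0 _ _ _
    · rfl)

variable {τ : C(At e (S2.pt q0), At e (S2.pt q0))} (hτK : ∀ k, τ (At.inK e _ k) = At.inK e _ k)
  {A : C(C, C)} (hA : ∀ c, e (A c) = e c) {α : G} (hα : ∀ c, c' (A c) = α • c' c)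
  {F : LP q0 (Wd.pt (Fin 3) (S2.pt q0))}
  (hτ : ∀ c p, ∃ (j : Fin 3) (p' : S2 q0), F.toMap p = Wd.inJ (S2.pt q0) j p' ∧
    τ (At.inP e _ (c, p)) = At.inP e _ (A^[(j : ℕ)] c, p'))
  (hφ : ∀ m g p (j : Fin 3) p', F.toMap p = Wd.inJ (S2.pt q0) j p' →
    φ m g (1, p) = φ (m + 1) (g * (α⁻¹) ^ (j : ℕ)) (0, p'))

include hα in
theorem c'_iter (n : ℕ) (c : C) : c' (A^[n] c) = α ^ n • c' c := by
  induction n with
  | zero => simp
  | succ n ih => rw [Function.iterate_succ_apply', hα, ih, ← mul_smul, pow_succ']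

include hq hc' hτK hA hα hτ hφ in
theorem v1_glue (m : ℤ) (x : At e (S2.pt q0)) :
    v1 c' y0 φ hφ0 m 1 x = v1 c' y0 φ hφ0 (m + 1) 0 (τ x) := by
  revert x
  apply At.ind
  · intro k
    rw [hτK]
    rfl
  · intro c p
    obtain ⟨j, p', h1, h2⟩ := hτ c p
    rw [h2]
    funext k
    change vl y0 c' φ m 1 (c, p) k = vl y0 c' φ (m + 1) 0 (A^[(j : ℕ)] c, p') k
    by_cases hk : q k = e c
    · obtain ⟨g, rfl⟩ := exists_g hq c' hc' c k hk
      rw [vl_eq hq, hφ m g p j p' h1]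
      have h3 : g • c' c = (g * (α⁻¹) ^ (j : ℕ)) • c' (A^[(j : ℕ)] c) := by
        rw [c'_iter c' hα, ← mul_smul, inv_pow, inv_mul_cancel_right]
      rw [h3, vl_eq hq]
    · rw [vl_ne hq c' hc' _ _ _ _ _ _ _ hk, vl_ne hq c' hc']
      rw [e_pwr hA]
      exact hk

include hA hτK hτ in
theorem ret_τ (x : At e (S2.pt q0)) : At.ret e _ x = At.ret e _ (τ x) := by
  revert x
  apply At.ind
  · intro k
    rw [hτK]
  · intro c p
    obtain ⟨j, p', h1, h2⟩ := hτ c p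
    rw [h2]
    change e c = e (A^[(j : ℕ)] c)
    rw [e_pwr hA]

/-- The retraction. -/
def rr (hrτ : ∀ x, At.ret e (S2.pt q0) x = At.ret e _ (τ x)) : C(MT (lvl τ sh), K) :=
  MT.lift ⟨fun x => At.ret e _ x.1.1, by fun_prop⟩ (fun x => hrτ x.1)

/-- The values. -/
def v2 (hg : ∀ m x, v1 c' y0 φ hφ0 m 1 x = v1 c' y0 φ hφ0 (m + 1) 0 (τ x)) :
    C(MT (lvl τ sh), Ind (Kh → Y)) :=
  MT.lift (toInd fun x => v1 c' y0 φ hφ0 x.1.2 x.2 x.1.1) (fun x => hg x.2 x.1)

/-- The quotient map. -/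
def q0' (τ : C(At e (S2.pt q0), At e (S2.pt q0))) (x : (K ⊕ C × S2 q0) × (ℤ × I)) :
    MT (lvl τ sh) := MT.mk (lvl τ sh) ((At.mk e (S2.pt q0) x.1, x.2.1), x.2.2)

theorem q0'_quot : IsQuotientMap (q0' τ) := by
  have h1 : IsQuotientMap (Prod.map (At.mk e (S2.pt q0)) (id : ℤ × I → ℤ × I)) :=
    quot_prod (At.isQuotientMap _ _)
  have h2 : IsQuotientMap (Homeomorph.prodAssoc (At e (S2.pt q0)) ℤ I).symm :=
    (Homeomorph.prodAssoc _ _ _).symm.isQuotientMap
  exact (MT.isQuotientMap (lvl τ sh)).comp (h2.comp h1)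

include hq hc' in
theorem contOn (hrτ : ∀ x, At.ret e (S2.pt q0) x = At.ret e _ (τ x))
    (hg : ∀ m x, v1 c' y0 φ hφ0 m 1 x = v1 c' y0 φ hφ0 (m + 1) 0 (τ x))
    (ϕ : OpenPartialHomeomorph Kh K) (hϕ : (ϕ : Kh → K) = q) :
    ContinuousOn (fun x => v2 c' y0 φ hφ0 hg x (ϕ.symm (rr hrτ x))) (rr hrτ ⁻¹' ϕ.target) := by
  have : ContinuousConstSMul G Kh := hq.toContinuousConstSMul
  rw [q0'_quot.continuousOn_isOpen_iff (ϕ.open_target.preimage (rr hrτ).continuous)]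
  rintro ⟨s, m, u⟩ hz
  apply ContinuousAt.continuousWithinAt
  rcases s with k | ⟨c, p⟩
  · have h1 : IsOpenEmbedding (Prod.map (Sum.inl : K → K ⊕ C × S2 q0) (id : ℤ × I → ℤ × I)) :=
      IsOpenEmbedding.inl.prodMap IsOpenEmbedding.id
    exact (h1.continuousAt_iff (x := (k, (m, u)))).mp (continuousAt_const (y := y0))
  · have h1 : IsOpenEmbedding (Prod.map (Sum.inr : C × S2 q0 → K ⊕ C × S2 q0)
      (id : ℤ × I → ℤ × I)) := IsOpenEmbedding.inr.prodMap IsOpenEmbedding.id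
    refine (h1.continuousAt_iff (x := ((c, p), (m, u)))).mp ?_
    change ContinuousAt (fun x : (C × S2 q0) × (ℤ × I) =>
      vl y0 c' φ x.2.1 x.2.2 x.1 (ϕ.symm (e x.1.1))) ((c, p), (m, u))
    have hz1 : e c ∈ ϕ.target := hz
    have hk1 : q (ϕ.symm (e c)) = e c := by
      rw [← hϕ]
      exact ϕ.right_inv hz1
    obtain ⟨g, hgg⟩ := exists_g hq c' hc' c _ hk1
    have ev1 : ∀ᶠ x in 𝓝 (((c, p), (m, u)) : (C × S2 q0) × (ℤ × I)),
        g • c' x.1.1 ∈ ϕ.source := by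
      have hc : Continuous fun x : (C × S2 q0) × (ℤ × I) => g • c' x.1.1 := by fun_prop
      apply hc.continuousAt.eventually (ϕ.open_source.mem_nhds _)
      change g • c' c ∈ ϕ.source
      rw [← hgg]
      exact ϕ.map_target hz1
    have ev2 : ∀ᶠ x in 𝓝 (((c, p), (m, u)) : (C × S2 q0) × (ℤ × I)), x.2.1 = m := by
      have hc : Continuous fun x : (C × S2 q0) × (ℤ × I) => x.2.1 := by fun_prop
      have hc1 : Filter.Tendsto (fun x : (C × S2 q0) × (ℤ × I) => x.2.1)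
          (𝓝 ((c, p), (m, u))) (𝓝 m) := hc.tendsto ((c, p), (m, u))
      exact hc1.eventually ((isOpen_discrete ({m} : Set ℤ)).mem_nhds (Set.mem_singleton m))
    have ev3 : (fun x : (C × S2 q0) × (ℤ × I) => φ m g (x.2.2, x.1.2)) =ᶠ[
        𝓝 (((c, p), (m, u)) : (C × S2 q0) × (ℤ × I))] (fun x : (C × S2 q0) × (ℤ × I) =>
      vl y0 c' φ x.2.1 x.2.2 x.1 (ϕ.symm (e x.1.1))) := by
      filter_upwards [ev1, ev2] with x hx1 hx2
      have h3 : ϕ.symm (e x.1.1) = g • c' x.1.1 := by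
        have h4 : ϕ (g • c' x.1.1) = e x.1.1 := by
          rw [hϕ, ← hc' x.1.1]
          exact hq.apply_eq_iff_mem_orbit.mpr ⟨g, rfl⟩
        rw [← h4]
        exact ϕ.left_inv hx1
      rw [h3, hx2]
      exact (vl_eq hq c' y0 φ m x.2.2 x.1.1 x.1.2 g).symm
    refine ContinuousAt.congr ?_ ev3
    fun_prop

include hq hc' in
theorem cont_comp (hrτ : ∀ x, At.ret e (S2.pt q0) x = At.ret e _ (τ x))
    (hg : ∀ m x, v1 c' y0 φ hφ0 m 1 x = v1 c' y0 φ hφ0 (m + 1) 0 (τ x))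
    {D : Type} [TopologicalSpace D] (Γ : C(D, MT (lvl τ sh))) (Γ' : C(D, Kh))
    (h : ∀ a, q (Γ' a) = rr hrτ (Γ a)) :
    Continuous fun a => (v2 c' y0 φ hφ0 hg (Γ a) (Γ' a) : Y) := by
  rw [continuous_iff_continuousAt]
  intro a
  obtain ⟨ϕ, h1, h2⟩ := hq.isCoveringMap.isLocalHomeomorph (Γ' a)
  have h3 := contOn hq c' hc' y0 φ hφ0 hrτ hg ϕ h2.symm
  have h4 : rr hrτ (Γ a) ∈ ϕ.target := by
    rw [← h, h2]
    exact ϕ.map_source h1
  have h5 : ContinuousAt (fun x => v2 c' y0 φ hφ0 hg x (ϕ.symm (rr hrτ x))) (Γ a) :=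
    h3.continuousAt ((ϕ.open_target.preimage (rr hrτ).continuous).mem_nhds h4)
  have h6 : ContinuousAt (fun a => v2 c' y0 φ hφ0 hg (Γ a) (ϕ.symm (rr hrτ (Γ a)))) a :=
    h5.comp (f := Γ) Γ.continuous.continuousAt
  refine h6.congr ?_
  have ev : ∀ᶠ b in 𝓝 a, Γ' b ∈ ϕ.source :=
    Γ'.continuous.continuousAt.eventually (ϕ.open_source.mem_nhds h1)
  filter_upwards [ev] with b hb
  rw [← h, h2, ϕ.left_inv hb]

end Phi

theorem phiB (hA' : S_PhiA) : S_Phi := by
  intro Q _ _ _ q0 K C Kh G _ _ _ _ _ e c0 q hq c' hc' A hA α hα hinf F hF τ hτK hτ Y _ y0 d hd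
    hess N n hNn g hg hom
  apply hess
  obtain ⟨c, c1, c2, c3⟩ := exists_seq ((α⁻¹) ^ 2) (by
    intro n hn h
    rw [← pow_mul, inv_pow, inv_eq_one] at h
    exact hinf _ (by omega) h) n
  have key : ∀ (m : ℤ) (g : G), ∃ H : C(I × S2 q0, Y),
      (∀ p, H (0, p) = if c m g = 1 then d.toMap p else y0) ∧
      (∀ p (j : Fin 3) p', F.toMap p = Wd.inJ (S2.pt q0) j p' →
        H (1, p) = if c (m + 1) (g * (α⁻¹) ^ (j : ℕ)) = 1 then d.toMap p' else y0) ∧
      (∀ s, H (s, S2.pt q0) = y0) ∧ (m < n - 1 → ∀ x, H x = y0) := by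
    intro m g
    by_cases hm : m < n - 1
    · refine ⟨ContinuousMap.const _ y0, fun p => ?_, fun p j p' _ => ?_, fun _ => rfl,
        fun _ _ => rfl⟩
      · rw [c1 m (by omega), if_neg (by decide)]
        rfl
      · rw [c1 (m + 1) (by omega), if_neg (by decide)]
        rfl
    · obtain ⟨H, H0, H1, H2⟩ := hA' Q q0 F hF Y y0 d hd
        (fun j => decide (c (m + 1) (g * (α⁻¹) ^ (j : ℕ)) = 1))
      refine ⟨H, fun p => ?_, fun p j p' h => ?_, H2, fun h => absurd h hm⟩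
      · rw [H0]
        have h1 : (xor (decide (c (m + 1) (g * (α⁻¹) ^ ((0 : Fin 3) : ℕ)) = 1))
          (decide (c (m + 1) (g * (α⁻¹) ^ ((2 : Fin 3) : ℕ)) = 1)) = true) ↔ c m g = 1 := by
          rw [c3 m g]
          have e1 : g * (α⁻¹) ^ ((0 : Fin 3) : ℕ) = g := by simp
          have e2 : g * (α⁻¹) ^ ((2 : Fin 3) : ℕ) = g * (α⁻¹) ^ 2 := rfl
          rw [e1, e2]
          generalize c (m + 1) g = a
          generalize c (m + 1) (g * (α⁻¹) ^ 2) = b
          revert a b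
          decide
        simp only [h1]
      · rw [H1 p j p' h]
        simp only [decide_eq_true_eq]
  choose φ φ0 φ1 φ2 φ3 using key
  have hφ0 : ∀ m g u, φ m g (u, S2.pt q0) = y0 := fun m g u => φ2 m g u
  have hφ : ∀ m g p (j : Fin 3) p', F.toMap p = Wd.inJ (S2.pt q0) j p' →
      φ m g (1, p) = φ (m + 1) (g * (α⁻¹) ^ (j : ℕ)) (0, p') := by
    intro m g p j p' h
    rw [φ1 m g p j p' h, φ0]
  have hrτ := fun x => ret_τ (τ := τ) hτK hA hτ x
  have hgl := fun m x => v1_glue hq c' hc' y0 φ hφ0 hτK hA hα hτ hφ m x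
  obtain ⟨Γ⟩ := hom
  have cov := hq.isCoveringMap
  have hΓ0 : ∀ p, (rr hrτ).comp Γ.toContinuousMap (0, p) =
      q ((ContinuousMap.const (S2 q0) (c' c0)) p) := by
    intro p
    change rr hrτ (Γ (0, p)) = q (c' c0)
    rw [Γ.apply_zero, hc']
    rfl
  let Γ' := cov.liftHomotopy ((rr hrτ).comp Γ.toContinuousMap) (ContinuousMap.const _ (c' c0)) hΓ0
  have hΓ' : ∀ a, q (Γ' a) = rr hrτ (Γ.toContinuousMap a) := fun a =>
    congr_fun (cov.liftHomotopy_lifts _ _ hΓ0) a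
  have hΓ'0 : ∀ p, Γ' (0, p) = c' c0 := fun p => cov.liftHomotopy_zero _ _ hΓ0 p
  have hcont := cont_comp hq c' hc' y0 φ hφ0 hrτ hgl Γ.toContinuousMap Γ' hΓ'
  have hlow : ∀ (x : MT (lvl τ sh)) (k : Kh), MT.htZ τ x ≤ N →
      (v2 c' y0 φ hφ0 hgl x k : Y) = y0 := by
    apply MT.ind
    rintro ⟨b, m⟩ u k hh0
    have hh : (m : ℝ) + (u : ℝ) ≤ N := hh0
    clear hh0
    have hu := u.2.1
    have hm : m ≤ N := by
      have : (m : ℝ) ≤ N := by linarith
      exact_mod_cast this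
    revert b
    apply At.ind
    · intro _
      rfl
    · intro c p
      change vl y0 c' φ m u (c, p) k = y0
      unfold vl
      split_ifs with h
      · by_cases hm1 : m < n - 1
        · exact φ3 m _ hm1 _
        · have hm2 : m = N := by omega
          have hu0 : u = 0 := Subtype.ext (by
            change (u : ℝ) = 0
            rw [hm2] at hh
            linarith)
          rw [hu0, φ0, c1 m (by omega), if_neg (by decide)]
      · rfl
  refine ⟨y0, ⟨⟨⟨_, hcont⟩, ?_, ?_⟩⟩⟩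
  · intro p
    change (v2 c' y0 φ hφ0 hgl (Γ (0, p)) (Γ' (0, p)) : Y) = _
    rw [Γ.apply_zero, hΓ'0]
    change vl y0 c' φ n 0 (c0, p) (c' c0) = _
    have h1 : c' c0 = (1 : G) • c' c0 := (one_smul _ _).symm
    rw [h1]
    have h2 := vl_eq hq c' y0 φ n 0 c0 p 1
    rw [h2, φ0, c2, if_pos rfl]
  · intro p
    change (v2 c' y0 φ hφ0 hgl (Γ (1, p)) (Γ' (1, p)) : Y) = y0
    rw [Γ.apply_one]
    exact hlow _ _ (hg p)

end

end Pool.Agent.W622.SC
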