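import Pool.Agent.W622.SC.Fin1
import Pool.Agent.W622.SC.Htpy
import Pool.Agent.W622.SC.Act
import Pool.Agent.W622.SC.PhiA
import Pool.Agent.W622.SC.PhiB
import Pool.Agent.W622.SC.CC
import Pool.Agent.W344.SC.Cov
import Pool.Agent.W344.SC.Wind
import Pool.Agent.W344.SC.Loop
import Pool.Agent.W344.SC.Cond
import Pool.Agent.W400.SC.QQT2
import Pool.Agent.W400.SC.WPQ
import Pool.Agent.W400.SC.WPS2
import Pool.Agent.W400.SC.Trans
import Pool.Agent.W400.SC.J2
import Pool.Agent.W400.SC.Jlift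
import Pool.Agent.W417.SC.KHAT
import Pool.Agent.W417.SC.FP
import Pool.Agent.W930.SC.KerZ
import Pool.Agent.W749.SC.CwMT
import Pool.Agent.W749.SC.CwCir
import Pool.Agent.W826.SC.CwAt2
import Pool.Agent.W255.SC.CA1
import Pool.Agent.W255.SC.CA2
import Pool.Agent.W347.SC.Emb
import Pool.Agent.W340.SC.Det
import Pool.Agent.W417.SC.PI1K
import Pool.Agent.W622.SC.Fin2

/-! # All the parts -/

set_option autoImplicit false

namespace Pool.Agent.W622.SC

theorem hyps' (hpush : S_push) : Hyps where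
  swap := swap
  htpy := htpy
  dblT := dblT
  cov := Pool.Agent.W344.SC.Cov.main
  qq := Pool.Agent.W400.SC.QQT2.main
  wpq := Pool.Agent.W400.SC.WPQ.main
  wps2 := Pool.Agent.W400.SC.WPS2.main
  act := act
  trans := Pool.Agent.W400.SC.Trans.main
  j2 := Pool.Agent.W400.SC.J2.main
  jlift := Pool.Agent.W400.SC.Jlift.main
  rsq := Pool.Agent.W400.SC.J2.main2
  det := Pool.Agent.W340.SC.main
  phi := phiB phiA
  c := cC
  khat := Pool.Agent.W417.SC.KHAT.main
  push := hpush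
  pi1K := Pool.Agent.W417.SC.main_pi1k
  kerZ := Pool.Agent.W930.SC.KerZ.main
  cwMT := Pool.Agent.W749.SC.cwMT
  cwCir := Pool.Agent.W749.SC.cwCir
  cwAt := Pool.Agent.W826.SC.CwAt2.main_of_emb Pool.Agent.W347.SC.Emb.main
  ca := Pool.Agent.W255.SCCA2.main Pool.Agent.W255.SCCA1.main
  emb := Pool.Agent.W347.SC.Emb.main
  wind := Pool.Agent.W344.SC.Wind.main
  loopZ := Pool.Agent.W344.SC.Loop.mainZ Pool.Agent.W344.SC.Cov.main
  loop2 := Pool.Agent.W344.SC.Loop.main2 Pool.Agent.W344.SC.Cov.main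
  fp := Pool.Agent.W417.SC.main
  cond := Pool.Agent.W344.SC.Cond.main

end Pool.Agent.W622.SC
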