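import Pool.Agent.W622.SC.Stmts

/-! # The lift of the contractible space to the regular covering -/

set_option autoImplicit false

open unitInterval Topology ContinuousMap

namespace Pool.Agent.W622.SC

noncomputable section

theorem pathConnected_of_contr {C : Type} [TopologicalSpace C] (c0 : C) (h : C(I × C, C))
    (h0 : ∀ c, h (0, c) = c) (h1 : ∀ c, h (1, c) = c0) : PathConnectedSpace C := by
  rw [pathConnectedSpace_iff_eq, ]
  refine ⟨c0, ?_⟩
  ext c
  simp only [Set.mem_univ, iff_true]
  have : Joined c c0 := ⟨⟨⟨fun s => h (s, c), by fun_prop⟩, h0 c, h1 c⟩⟩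
  exact this.symm

theorem exists_clift {K C Kh G : Type} [TopologicalSpace K] [TopologicalSpace C]
    [TopologicalSpace Kh] [Group G] [MulAction G Kh] (e : C(C, K)) (c0 : C) (h : C(I × C, C))
    (h0 : ∀ c, h (0, c) = c) (h1 : ∀ c, h (1, c) = c0) (hc : ∀ s, h (s, c0) = c0)
    (A : C(C, C)) (hA : ∀ c, e (A c) = e c) (q : Kh → K) (hq : IsQuotientCoveringMap q G)
    (k : C(I, Kh)) (α : G) (hk1 : k 1 = α • k 0) (hk0 : q (k 0) = e c0)
    (hk : ∀ s : I, e (h (s, A c0)) = q (k (σ s))) :
    ∃ c' : C(C, Kh), (∀ c, q (c' c) = e c) ∧ ∀ c, c' (A c) = α • c' c := by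
  have cov : IsCoveringMap q := hq.isCoveringMap
  haveI := pathConnected_of_contr c0 h h0 h1
  haveI := hq.toContinuousConstSMul
  let H : C(I × C, K) := ⟨fun x => e (h (σ x.1, x.2)), by fun_prop⟩
  have H_0 : ∀ c, H (0, c) = q ((ContinuousMap.const C (k 0)) c) := by
    intro c
    change e (h (σ 0, c)) = q (k 0)
    rw [unitInterval.symm_zero, h1, hk0]
  let L := cov.liftHomotopy H (ContinuousMap.const C (k 0)) H_0
  have hL : ∀ x, q (L x) = H x := fun x => congr_fun (cov.liftHomotopy_lifts H _ H_0) x
  have hL0 : ∀ c, L (0, c) = k 0 := fun c => cov.liftHomotopy_zero H _ H_0 c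
  let c' : C(C, Kh) := ⟨fun c => L (1, c), by fun_prop⟩
  have hc' : ∀ c, q (c' c) = e c := by
    intro c
    change q (L (1, c)) = e c
    rw [hL]
    change e (h (σ 1, c)) = e c
    rw [unitInterval.symm_one, h0]
  have e1 : c' (A c0) = k 1 := by
    have hcont : Continuous fun s : I => L (s, A c0) := by fun_prop
    have := cov.eq_of_comp_eq (g₁ := fun s : I => L (s, A c0)) (g₂ := k) hcont k.continuous
      (by
        ext s
        change q (L (s, A c0)) = q (k s)
        rw [hL]
        change e (h (σ s, A c0)) = _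
        rw [hk, unitInterval.symm_symm]) 0 (hL0 _)
    exact congr_fun this 1
  have e2 : c' c0 = k 0 := by
    have hcont : Continuous fun s : I => L (s, c0) := by fun_prop
    have := cov.eq_of_comp_eq (g₁ := fun s : I => L (s, c0)) (g₂ := fun _ => k 0) hcont
      continuous_const
      (by
        ext s
        change q (L (s, c0)) = q (k 0)
        rw [hL]
        change e (h (σ s, c0)) = _
        rw [hc, hk0]) 0 (hL0 _)
    exact congr_fun this 1
  refine ⟨c', hc', ?_⟩
  have hcont1 : Continuous fun c => c' (A c) := by fun_prop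
  have hcont2 : Continuous fun c => α • c' c := c'.continuous.const_smul α
  have := cov.eq_of_comp_eq (g₁ := fun c => c' (A c)) (g₂ := fun c => α • c' c) hcont1 hcont2
    (by
      ext c
      change q (c' (A c)) = q (α • c' c)
      rw [hc', hA, ← hc' c]
      exact (hq.apply_eq_iff_mem_orbit.mpr ⟨α, rfl⟩).symm) c0 (by
      change c' (A c0) = α • c' c0
      rw [e1, e2, hk1])
  intro c
  exact congr_fun this c

end

end Pool.Agent.W622.SC
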