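import Pool.Agent.W622.SC.Defs

/-! # Composition of homotopy equivalences over the circle -/

set_option autoImplicit false

open unitInterval Topology ContinuousMap

namespace Pool.Agent.W622.SC

noncomputable section

variable {X Y Z S B : Type} [TopologicalSpace X] [TopologicalSpace Y] [TopologicalSpace Z]
  [TopologicalSpace S]

theorem comp_htpy_left {X Y Z : Type} [TopologicalSpace X] [TopologicalSpace Y]
    [TopologicalSpace Z] {f f' : C(X, Y)} (h : f.Homotopic f') (g : C(Y, Z)) :
    (g.comp f).Homotopic (g.comp f') :=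
  ContinuousMap.Homotopic.comp (ContinuousMap.Homotopic.refl g) h

theorem comp_htpy_right {X Y Z : Type} [TopologicalSpace X] [TopologicalSpace Y]
    [TopologicalSpace Z] {g g' : C(Y, Z)} (h : g.Homotopic g') (f : C(X, Y)) :
    (g.comp f).Homotopic (g'.comp f) :=
  ContinuousMap.Homotopic.comp h (ContinuousMap.Homotopic.refl f)

theorem HE.symm {p : C(X, S)} {q : C(Y, S)} {x : B → X} {y : B → Y} (h : HE p q x y) :
    HE q p y x := by
  obtain ⟨a, b, h1, h2, h3, h4, h5⟩ := h
  refine ⟨b, a, h2, h1, h4, h3, ?_⟩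
  have h6 : (p.comp b).Homotopic ((q.comp a).comp b) := (comp_htpy_right h5 b).symm
  have h7 : (q.comp (a.comp b)).Homotopic (q.comp (ContinuousMap.id Y)) := comp_htpy_left h2 q
  exact h6.trans h7

theorem HE.trans {p : C(X, S)} {q : C(Y, S)} {r : C(Z, S)} {x : B → X} {y : B → Y} {z : B → Z}
    (h : HE p q x y) (h' : HE q r y z) : HE p r x z := by
  obtain ⟨a, b, h1, h2, h3, h4, h5⟩ := h
  obtain ⟨a', b', h1', h2', h3', h4', h5'⟩ := h'
  refine ⟨a'.comp a, b.comp b', ?_, ?_, ?_, ?_, ?_⟩
  · have e1 : (b.comp ((b'.comp a').comp a)).Homotopic (b.comp ((ContinuousMap.id Y).comp a)) :=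
      comp_htpy_left (comp_htpy_right h1' a) b
    exact e1.trans h1
  · have e1 : (a'.comp ((a.comp b).comp b')).Homotopic (a'.comp ((ContinuousMap.id Y).comp b')) :=
      comp_htpy_left (comp_htpy_right h2 b') a'
    exact e1.trans h2'
  · intro i
    change a' (a (x i)) = z i
    rw [h3, h3']
  · intro i
    change b (b' (z i)) = x i
    rw [h4', h4]
  · have e1 : ((r.comp a').comp a).Homotopic (q.comp a) := comp_htpy_right h5' a
    exact e1.trans h5

theorem HE.refl (p : C(X, S)) (x : B → X) : HE p p x x :=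
  ⟨ContinuousMap.id X, ContinuousMap.id X, ContinuousMap.Homotopic.refl _,
    ContinuousMap.Homotopic.refl _, fun _ => rfl, fun _ => rfl, ContinuousMap.Homotopic.refl _⟩

end

end Pool.Agent.W622.SC
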