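import Pool.Agent.W622.SC.Stmts
import Pool.Agent.W622.SC.HEq

/-! # The mapping torus is homotopy equivalent to its double cover -/

set_option autoImplicit false

open unitInterval Topology ContinuousMap

namespace Pool.Agent.W622.SC

noncomputable section

theorem chain (hsw : S_swap) (hht : S_htpy) (hdb : S_dbl) {E B : Type} [TopologicalSpace E]
    [TopologicalSpace B] (i : C(E, B)) (j : C(B, E)) (τ s v : C(B, B)) (x : E) (y : B)
    (hx : i x = y) (hy : j y = x) (hτ : τ y = y) (hs : s y = y) (hv : v y = y)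
    (hij : (i.comp j).Homotopic (ContinuousMap.id B))
    (hss : (s.comp v).Homotopic (ContinuousMap.id B))
    (hk : (τ.comp τ).Homotopic (v.comp (τ.comp s))) :
    HE (MT.ht (j.comp (τ.comp i))) (MT.ht2 (j.comp (τ.comp i)))
      (fun _ : Unit => MT.mk (j.comp (τ.comp i)) (x, 0))
      (fun _ : Unit => MT.mk (lvl (j.comp (τ.comp i)) not) ((x, false), 0)) := by
  have s1 := hsw E B Unit (τ.comp i) j (fun _ => x) (fun _ => y)
    (fun _ => by change τ (i x) = y; rw [hx, hτ]) (fun _ => hy)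
  have s2 := hht B Unit ((τ.comp i).comp j) τ (fun _ => y) (by
    exact comp_htpy_left hij τ)
  have s3 := hht B Unit τ ((τ.comp s).comp v) (fun _ => y) (by
    exact (comp_htpy_left hss τ).symm)
  have s4 := hsw B B Unit v (τ.comp s) (fun _ => y) (fun _ => y) (fun _ => hv)
    (fun _ => by change τ (s y) = y; rw [hs, hτ])
  have s5 := hht B Unit (v.comp (τ.comp s)) (τ.comp τ) (fun _ => y) hk.symm
  have s6 := hht B Unit (τ.comp τ) ((τ.comp (τ.comp i)).comp j) (fun _ => y) (by
    exact (comp_htpy_left hij (τ.comp τ)).symm)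
  have s7 := hsw E B Unit (τ.comp (τ.comp i)) j (fun _ => x) (fun _ => y)
    (fun _ => by change τ (τ (i x)) = y; rw [hx, hτ, hτ]) (fun _ => hy)
  have s8 := hht E Unit (j.comp (τ.comp (τ.comp i)))
    ((j.comp (τ.comp i)).comp (j.comp (τ.comp i))) (fun _ => x) (by
    exact (comp_htpy_left (comp_htpy_left (comp_htpy_right hij (τ.comp i)) τ) j).symm)
  have s9 := hdb E Unit (j.comp (τ.comp i)) (fun _ => x)
  exact ((((((((s1.trans s2).trans s3).trans s4).trans s5).trans s6).trans s7.symm).trans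
    s8).trans s9)

/-! ### Comparison of infinite cyclic covers -/

section Cmp

variable {E B : Type} [TopologicalSpace E] [TopologicalSpace B] (i : C(E, B)) (j : C(B, E))
  (τ : C(B, B)) (H : C(I × B, B)) (h0 : ∀ b, H (0, b) = b) (h1 : ∀ b, H (1, b) = i (j b))

/-- Auxiliary function: `min (2 u) 1`. -/
def fstH (u : I) : I := ⟨min (2 * (u : ℝ)) 1, le_min (by have := u.2.1; positivity) (by norm_num),
  min_le_right _ _⟩

/-- Auxiliary function: `max (2 u - 1) 0`. -/
def sndH (u : I) : I := ⟨max (2 * (u : ℝ) - 1) 0, le_max_right _ _,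
  max_le (by have := u.2.2; linarith) (by norm_num)⟩

theorem continuous_fstH : Continuous fstH := by
  unfold fstH
  fun_prop

theorem continuous_sndH : Continuous sndH := by
  unfold sndH
  fun_prop

/-- The map of infinite cyclic covers `T(j τ i) → T(τ)`. -/
def cmpF (x : (E × ℤ) × I) : MT (lvl τ sh) :=
  if (x.2 : ℝ) ≤ 1 / 2 then MT.mk (lvl τ sh) ((i x.1.1, x.1.2), fstH x.2)
  else MT.mk (lvl τ sh) ((H (sndH x.2, τ (i x.1.1)), x.1.2 + 1), 0)

include h0 in
theorem continuous_cmpF : Continuous (cmpF i τ H) := by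
  have c1 := continuous_fstH
  have c2 := continuous_sndH
  have c3 : Continuous fun n : ℤ => n + 1 := continuous_of_discreteTopology
  unfold cmpF
  apply Continuous.if_le
  · apply (MT.mk (lvl τ sh)).continuous.comp
    fun_prop
  · apply (MT.mk (lvl τ sh)).continuous.comp
    have c4 : Continuous fun x : (E × ℤ) × I => x.1.2 + 1 :=
      c3.comp (continuous_snd.comp continuous_fst)
    fun_prop
  · fun_prop
  · fun_prop
  · rintro ⟨⟨x, n⟩, u⟩ hu
    simp only at hu ⊢
    have e1 : fstH u = 1 := Subtype.ext (by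
      change min (2 * (u : ℝ)) 1 = 1
      rw [hu]; norm_num)
    have e2 : sndH u = 0 := Subtype.ext (by
      change max (2 * (u : ℝ) - 1) 0 = 0
      rw [hu]; norm_num)
    rw [e1, e2, h0, MT.glue]
    rfl

include h0 h1 in
theorem exists_cmp : ∃ a : C(MT (lvl (j.comp (τ.comp i)) sh), MT (lvl τ sh)),
    (∀ x n, a (MT.mk _ ((x, n), 0)) = MT.mk _ ((i x, n), 0)) ∧
    ∀ y, MT.htZ τ (a y) ≤ MT.htZ (j.comp (τ.comp i)) y + 1 := by
  have key0 : ∀ x n, cmpF i τ H ((x, n), 0) = MT.mk (lvl τ sh) ((i x, n), 0) := by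
    intro x n
    have e1 : fstH 0 = 0 := Subtype.ext (by
      change min (2 * ((0 : I) : ℝ)) 1 = 0
      norm_num)
    unfold cmpF
    rw [if_pos (by norm_num), e1]
  have key1 : ∀ x n, cmpF i τ H ((x, n), 1) =
      MT.mk (lvl τ sh) ((i (j (τ (i x))), n + 1), 0) := by
    intro x n
    have e2 : sndH 1 = 1 := Subtype.ext (by
      change max (2 * ((1 : I) : ℝ) - 1) 0 = 1
      norm_num)
    unfold cmpF
    rw [if_neg (by norm_num), e2]
    simp only
    rw [h1]
  refine ⟨MT.lift ⟨cmpF i τ H, continuous_cmpF i τ H h0⟩ ?_, ?_, ?_⟩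
  · rintro ⟨x, n⟩
    change cmpF i τ H ((x, n), 1) = cmpF i τ H ((j (τ (i x)), n + 1), 0)
    rw [key0, key1]
  · intro x n
    exact key0 x n
  · apply MT.ind
    rintro ⟨x, n⟩ u
    change MT.htZ τ (cmpF i τ H ((x, n), u)) ≤ ((n : ℝ) + (u : ℝ)) + 1
    have hu := u.2.1
    have hu1 := u.2.2
    unfold cmpF
    split_ifs with h
    · change (n : ℝ) + ((fstH u : I) : ℝ) ≤ _
      have : ((fstH u : I) : ℝ) ≤ 1 := (fstH u).2.2
      linarith
    · change (((n + 1 : ℤ) : ℝ)) + ((0 : I) : ℝ) ≤ _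
      push_cast
      have : ((0 : I) : ℝ) = 0 := rfl
      linarith

/-- The map `T(j τ i) → T(τ)`. -/
def cmpG (x : E × I) : MT τ :=
  if (x.2 : ℝ) ≤ 1 / 2 then MT.mk τ (i x.1, fstH x.2)
  else MT.mk τ (H (sndH x.2, τ (i x.1)), 0)

include h0 in
theorem continuous_cmpG : Continuous (cmpG i τ H) := by
  have c1 := continuous_fstH
  have c2 := continuous_sndH
  unfold cmpG
  apply Continuous.if_le
  · apply (MT.mk τ).continuous.comp
    fun_prop
  · apply (MT.mk τ).continuous.comp
    fun_prop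
  · fun_prop
  · fun_prop
  · rintro ⟨x, u⟩ hu
    simp only at hu ⊢
    have e1 : fstH u = 1 := Subtype.ext (by
      change min (2 * (u : ℝ)) 1 = 1
      rw [hu]; norm_num)
    have e2 : sndH u = 0 := Subtype.ext (by
      change max (2 * (u : ℝ) - 1) 0 = 0
      rw [hu]; norm_num)
    rw [e1, e2, h0, MT.glue]

include h0 h1 in
theorem exists_cmpG : ∃ a : C(MT (j.comp (τ.comp i)), MT τ),
    ∀ x, a (MT.mk _ (x, 0)) = MT.mk _ (i x, 0) := by
  have key0 : ∀ x, cmpG i τ H (x, 0) = MT.mk τ (i x, 0) := by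
    intro x
    have e1 : fstH 0 = 0 := Subtype.ext (by
      change min (2 * ((0 : I) : ℝ)) 1 = 0
      norm_num)
    unfold cmpG
    rw [if_pos (by norm_num), e1]
  have key1 : ∀ x, cmpG i τ H (x, 1) = MT.mk τ (i (j (τ (i x))), 0) := by
    intro x
    have e2 : sndH 1 = 1 := Subtype.ext (by
      change max (2 * ((1 : I) : ℝ) - 1) 0 = 1
      norm_num)
    unfold cmpG
    rw [if_neg (by norm_num), e2]
    simp only
    rw [h1]
  refine ⟨MT.lift ⟨cmpG i τ H, continuous_cmpG i τ H h0⟩ ?_, ?_⟩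
  · intro x
    change cmpG i τ H (x, 1) = cmpG i τ H (j (τ (i x)), 0)
    rw [key0, key1]
  · intro x
    exact key0 x

end Cmp

end

end Pool.Agent.W622.SC
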