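import Mathlib

/-! # Definitions for the self-covering complex (MP_88597d_gt, MP_121bc0_gt)

Mapping tori, attaching `C × P` to `K` along `C × {p0} → K`, double suspensions, Moore paths. -/

set_option autoImplicit false

open unitInterval Topology ContinuousMap

namespace Pool.Agent.W622.SC

noncomputable section

/-! ## Mapping tori -/

section MT

variable {E : Type} [TopologicalSpace E]

open Classical in
/-- Normal form of a point of `E × I` in the mapping torus of `f`: `(x, 1) ~ (f x, 0)`. -/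
def MTnf (f : C(E, E)) (x : E × I) : E × I := if x.2 = 1 then (f x.1, 0) else x

/-- The mapping torus `E × I / (x, 1) ~ (f x, 0)`. -/
def MT (f : C(E, E)) : Type := Quotient (Setoid.ker (MTnf f))

instance (f : C(E, E)) : TopologicalSpace (MT f) :=
  inferInstanceAs (TopologicalSpace (Quotient (Setoid.ker (MTnf f))))

/-- The class of `(x, u)` in the mapping torus. -/
def MT.mk (f : C(E, E)) : C(E × I, MT f) :=
  ⟨Quotient.mk (Setoid.ker (MTnf f)), continuous_quotient_mk'⟩

theorem MT.mk_surj (f : C(E, E)) : Function.Surjective (MT.mk f) := Quotient.mk_surjective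

theorem MT.ind {f : C(E, E)} {p : MT f → Prop} (h : ∀ x u, p (MT.mk f (x, u))) : ∀ y, p y := by
  intro y
  obtain ⟨⟨x, u⟩, rfl⟩ := MT.mk_surj f y
  exact h x u

theorem MT.mk_eq_iff {f : C(E, E)} {x y : E × I} :
    MT.mk f x = MT.mk f y ↔ MTnf f x = MTnf f y := Quotient.eq

theorem MT.glue (f : C(E, E)) (x : E) : MT.mk f (x, 1) = MT.mk f (f x, 0) := by
  rw [MT.mk_eq_iff]
  simp [MTnf]

theorem MT.isQuotientMap (f : C(E, E)) : IsQuotientMap (MT.mk f) := isQuotientMap_quotient_mk'

variable {Z : Type} [TopologicalSpace Z]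

/-- A continuous map on `E × I` compatible with the identifications descends to the torus. -/
def MT.lift {f : C(E, E)} (g : C(E × I, Z)) (h : ∀ x, g (x, 1) = g (f x, 0)) : C(MT f, Z) where
  toFun := Quotient.lift g (by
    intro x y hxy
    have key : ∀ x, g x = g (MTnf f x) := by
      rintro ⟨x, u⟩
      unfold MTnf
      split_ifs with hu
      · simp only at hu ⊢
        rw [hu, h]
      · rfl
    have : MTnf f x = MTnf f y := hxy
    rw [key x, key y, this])
  continuous_toFun := g.continuous.quotient_lift _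

@[simp] theorem MT.lift_mk {f : C(E, E)} (g : C(E × I, Z)) (h : ∀ x, g (x, 1) = g (f x, 0))
    (x : E × I) : MT.lift g h (MT.mk f x) = g x := rfl

/-- A homotopy on `E × I` compatible with the identifications descends to the torus. -/
def MT.liftH {f : C(E, E)} (g : C(I × (E × I), Z)) (h : ∀ s x, g (s, (x, 1)) = g (s, (f x, 0))) :
    C(I × MT f, Z) :=
  ((MT.lift (f := f) ((g.comp ⟨Prod.swap, continuous_swap⟩).curry)
    (by intro x; ext s; exact h s x)).uncurry).comp ⟨Prod.swap, continuous_swap⟩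

@[simp] theorem MT.liftH_mk {f : C(E, E)} (g : C(I × (E × I), Z))
    (h : ∀ s x, g (s, (x, 1)) = g (s, (f x, 0))) (s : I) (x : E × I) :
    MT.liftH g h (s, MT.mk f x) = g (s, x) := rfl

/-- The height map of the mapping torus to the circle, `[x, u] ↦ u`. -/
def MT.ht (f : C(E, E)) : C(MT f, AddCircle (1 : ℝ)) :=
  MT.lift ⟨fun x => ((x.2 : ℝ) : AddCircle (1 : ℝ)), by fun_prop⟩ (by
    intro x
    simp)

@[simp] theorem MT.ht_mk (f : C(E, E)) (x : E × I) :
    MT.ht f (MT.mk f x) = ((x.2 : ℝ) : AddCircle (1 : ℝ)) := rfl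

/-- Functoriality. -/
def MT.map {E' : Type} [TopologicalSpace E'] {f : C(E, E)} {f' : C(E', E')} (φ : C(E, E'))
    (h : ∀ x, φ (f x) = f' (φ x)) : C(MT f, MT f') :=
  MT.lift ⟨fun x => MT.mk f' (φ x.1, x.2), by fun_prop⟩ (by
    intro x
    change MT.mk f' (φ x, 1) = MT.mk f' (φ (f x), 0)
    rw [MT.glue, h])

@[simp] theorem MT.map_mk {E' : Type} [TopologicalSpace E'] {f : C(E, E)} {f' : C(E', E')}
    (φ : C(E, E')) (h : ∀ x, φ (f x) = f' (φ x)) (x : E × I) :
    MT.map φ h (MT.mk f x) = MT.mk f' (φ x.1, x.2) := rfl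

/-! ### Covers of mapping tori -/

/-- `f × ν` on `E × J`, `J` discrete. Its mapping torus is a cover of the mapping torus of `f`
(for `ν` bijective). -/
def lvl (f : C(E, E)) {J : Type} [TopologicalSpace J] [DiscreteTopology J] (ν : J → J) :
    C(E × J, E × J) := f.prodMap ⟨ν, continuous_of_discreteTopology⟩

@[simp] theorem lvl_apply (f : C(E, E)) {J : Type} [TopologicalSpace J] [DiscreteTopology J]
    (ν : J → J) (x : E × J) : lvl f ν x = (f x.1, ν x.2) := rfl

/-- The projection `[(x, j), u] ↦ [x, u]`. -/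
def MT.down (f : C(E, E)) {J : Type} [TopologicalSpace J] [DiscreteTopology J] (ν : J → J) :
    C(MT (lvl f ν), MT f) := MT.map ⟨Prod.fst, continuous_fst⟩ (fun _ => rfl)

@[simp] theorem MT.down_mk (f : C(E, E)) {J : Type} [TopologicalSpace J] [DiscreteTopology J]
    (ν : J → J) (x : E) (j : J) (u : I) :
    MT.down f ν (MT.mk (lvl f ν) ((x, j), u)) = MT.mk f (x, u) := rfl

/-- The shift `n ↦ n + 1` of `ℤ`; `MT (lvl f sh)` is the infinite cyclic cover of `MT f`. -/
def sh (n : ℤ) : ℤ := n + 1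

@[simp] theorem sh_apply (n : ℤ) : sh n = n + 1 := rfl

/-- The height of a point of the infinite cyclic cover. -/
def MT.htZ (f : C(E, E)) : C(MT (lvl f sh), ℝ) :=
  MT.lift ⟨fun x => (x.1.2 : ℝ) + (x.2 : ℝ), by fun_prop⟩ (by
    rintro ⟨x, n⟩
    simp)

@[simp] theorem MT.htZ_mk (f : C(E, E)) (x : E) (n : ℤ) (u : I) :
    MT.htZ f (MT.mk (lvl f sh) ((x, n), u)) = (n : ℝ) + (u : ℝ) := rfl

/-- The double cover is `MT (lvl f not)`; this is its height map to the circle, i.e. half of the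
height in `ℝ / 2ℤ`. -/
def MT.ht2 (f : C(E, E)) : C(MT (lvl f not), AddCircle (1 : ℝ)) :=
  MT.lift ⟨fun x => ((((x.2 : ℝ) + (if x.1.2 then 1 else 0)) / 2 : ℝ) : AddCircle (1 : ℝ)), by
    have h : Continuous fun b : Bool => (if b then (1 : ℝ) else 0) :=
      continuous_of_discreteTopology
    have h2 : Continuous fun x : (E × Bool) × I =>
      (((x.2 : ℝ) + (if x.1.2 then 1 else 0)) / 2 : ℝ) :=
      (((continuous_subtype_val.comp continuous_snd).add
        (h.comp (continuous_snd.comp continuous_fst))).div_const 2)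
    exact (AddCircle.continuous_mk' 1).comp h2⟩ (by
    rintro ⟨x, b⟩
    cases b
    · change (((((1 : I) : ℝ) + (if false = true then 1 else 0)) / 2 : ℝ) : AddCircle (1 : ℝ)) =
        (((((0 : I) : ℝ) + (if true = true then 1 else 0)) / 2 : ℝ) : AddCircle (1 : ℝ))
      norm_num
    · change (((((1 : I) : ℝ) + (if true = true then 1 else 0)) / 2 : ℝ) : AddCircle (1 : ℝ)) =
        (((((0 : I) : ℝ) + (if false = true then 1 else 0)) / 2 : ℝ) : AddCircle (1 : ℝ))
      norm_num)

@[simp] theorem MT.ht2_mk (f : C(E, E)) (x : E) (b : Bool) (u : I) :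
    MT.ht2 f (MT.mk (lvl f not) ((x, b), u)) =
      ((((u : ℝ) + (if b then 1 else 0)) / 2 : ℝ) : AddCircle (1 : ℝ)) := rfl

end MT

/-- `HE p q x y`: there is a homotopy equivalence `X → Y` and a homotopy inverse of it which match
the families of base points `x`, `y`, and such that the map carries `q` to `p` up to homotopy. -/
def HE {X Y S B : Type} [TopologicalSpace X] [TopologicalSpace Y] [TopologicalSpace S]
    (p : C(X, S)) (q : C(Y, S)) (x : B → X) (y : B → Y) : Prop :=
  ∃ (a : C(X, Y)) (b : C(Y, X)), (b.comp a).Homotopic (ContinuousMap.id X) ∧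
    (a.comp b).Homotopic (ContinuousMap.id Y) ∧ (∀ i, a (x i) = y i) ∧ (∀ i, b (y i) = x i) ∧
    (q.comp a).Homotopic p

/-! ## Attaching `C × P` to `K` along `(c, p0) ~ e c` -/

section At

variable {K C P : Type} [TopologicalSpace K] [TopologicalSpace C] [TopologicalSpace P]

open Classical in
/-- Normal form of a point of `K ⊕ C × P`: `(c, p0) ~ e c`. -/
def Atnf (e : C(C, K)) (p0 : P) : K ⊕ C × P → K ⊕ C × P
  | .inl k => .inl k
  | .inr x => if x.2 = p0 then .inl (e x.1) else .inr x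

/-- The space `K ∪ (C × P)`, where `(c, p0)` is identified with `e c`. -/
def At (e : C(C, K)) (p0 : P) : Type := Quotient (Setoid.ker (Atnf e p0))

instance (e : C(C, K)) (p0 : P) : TopologicalSpace (At e p0) :=
  inferInstanceAs (TopologicalSpace (Quotient (Setoid.ker (Atnf e p0))))

/-- The quotient map. -/
def At.mk (e : C(C, K)) (p0 : P) : C(K ⊕ C × P, At e p0) :=
  ⟨Quotient.mk (Setoid.ker (Atnf e p0)), continuous_quotient_mk'⟩

/-- The inclusion of `K`. -/
def At.inK (e : C(C, K)) (p0 : P) : C(K, At e p0) :=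
  (At.mk e p0).comp ⟨Sum.inl, continuous_inl⟩

/-- The map on `C × P`. -/
def At.inP (e : C(C, K)) (p0 : P) : C(C × P, At e p0) :=
  (At.mk e p0).comp ⟨Sum.inr, continuous_inr⟩

theorem At.mk_eq_iff {e : C(C, K)} {p0 : P} {x y : K ⊕ C × P} :
    At.mk e p0 x = At.mk e p0 y ↔ Atnf e p0 x = Atnf e p0 y := Quotient.eq

theorem At.mk_inl (e : C(C, K)) (p0 : P) (k : K) : At.mk e p0 (.inl k) = At.inK e p0 k := rfl

theorem At.mk_inr (e : C(C, K)) (p0 : P) (x : C × P) : At.mk e p0 (.inr x) = At.inP e p0 x := rfl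

theorem At.glue (e : C(C, K)) (p0 : P) (c : C) : At.inP e p0 (c, p0) = At.inK e p0 (e c) := by
  change At.mk e p0 _ = At.mk e p0 _
  rw [At.mk_eq_iff]
  simp [Atnf]

theorem At.ind {e : C(C, K)} {p0 : P} {p : At e p0 → Prop} (hK : ∀ k, p (At.inK e p0 k))
    (hP : ∀ c x, p (At.inP e p0 (c, x))) : ∀ y, p y := by
  intro y
  obtain ⟨x, rfl⟩ := Quotient.mk_surjective y
  rcases x with k | ⟨c, x⟩
  · exact hK k
  · exact hP c x

theorem At.isQuotientMap (e : C(C, K)) (p0 : P) : IsQuotientMap (At.mk e p0) :=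
  isQuotientMap_quotient_mk'

theorem At.inK_inj (e : C(C, K)) (p0 : P) {k k' : K} (h : At.inK e p0 k = At.inK e p0 k') :
    k = k' := by
  have := At.mk_eq_iff.mp h
  simpa [Atnf] using this

theorem At.inP_eq_inK_iff (e : C(C, K)) (p0 : P) {c : C} {p : P} {k : K} :
    At.inP e p0 (c, p) = At.inK e p0 k ↔ p = p0 ∧ e c = k := by
  change At.mk e p0 (.inr (c, p)) = At.mk e p0 (.inl k) ↔ _
  rw [At.mk_eq_iff]
  simp only [Atnf]
  split_ifs with h
  · simp [h]
  · simp [h]

theorem At.inP_eq_inP_iff (e : C(C, K)) (p0 : P) {c c' : C} {p p' : P} :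
    At.inP e p0 (c, p) = At.inP e p0 (c', p') ↔
      (p = p0 ∧ p' = p0 ∧ e c = e c') ∨ (p ≠ p0 ∧ c = c' ∧ p = p') := by
  change At.mk e p0 (.inr (c, p)) = At.mk e p0 (.inr (c', p')) ↔ _
  rw [At.mk_eq_iff]
  simp only [Atnf]
  split_ifs with h h' h'
  · simp [h, h']
  · simp [h, h']
  · simp only [Sum.inr.injEq, reduceCtorEq, false_iff, not_or, not_and]
    exact ⟨fun h2 => absurd h2 h, fun _ _ h3 => h (h3.trans h')⟩
  · simp [h]

variable {Z : Type} [TopologicalSpace Z]

/-- Maps out of `At e p0`. -/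
def At.lift {e : C(C, K)} {p0 : P} (gK : C(K, Z)) (gP : C(C × P, Z))
    (h : ∀ c, gP (c, p0) = gK (e c)) : C(At e p0, Z) where
  toFun := Quotient.lift (Sum.elim gK gP) (by
    intro x y hxy
    have key : ∀ x, Sum.elim gK gP x = Sum.elim gK gP (Atnf e p0 x) := by
      rintro (k | ⟨c, p⟩)
      · rfl
      · simp only [Atnf]
        split_ifs with hp
        · simp [hp, h]
        · rfl
    have : Atnf e p0 x = Atnf e p0 y := hxy
    rw [key x, key y, this])
  continuous_toFun := (gK.continuous.sumElim gP.continuous).quotient_lift _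

@[simp] theorem At.lift_inK {e : C(C, K)} {p0 : P} (gK : C(K, Z)) (gP : C(C × P, Z))
    (h : ∀ c, gP (c, p0) = gK (e c)) (k : K) : At.lift gK gP h (At.inK e p0 k) = gK k := rfl

@[simp] theorem At.lift_inP {e : C(C, K)} {p0 : P} (gK : C(K, Z)) (gP : C(C × P, Z))
    (h : ∀ c, gP (c, p0) = gK (e c)) (x : C × P) : At.lift gK gP h (At.inP e p0 x) = gP x := rfl

/-- Homotopies on `At e p0`. -/
def At.liftH {e : C(C, K)} {p0 : P} (gK : C(I × K, Z)) (gP : C(I × (C × P), Z))
    (h : ∀ s c, gP (s, (c, p0)) = gK (s, e c)) : C(I × At e p0, Z) :=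
  ((At.lift (e := e) (p0 := p0) ((gK.comp ⟨Prod.swap, continuous_swap⟩).curry)
    ((gP.comp ⟨Prod.swap, continuous_swap⟩).curry)
    (by intro c; ext s; exact h s c)).uncurry).comp ⟨Prod.swap, continuous_swap⟩

@[simp] theorem At.liftH_inK {e : C(C, K)} {p0 : P} (gK : C(I × K, Z)) (gP : C(I × (C × P), Z))
    (h : ∀ s c, gP (s, (c, p0)) = gK (s, e c)) (s : I) (k : K) :
    At.liftH gK gP h (s, At.inK e p0 k) = gK (s, k) := rfl

@[simp] theorem At.liftH_inP {e : C(C, K)} {p0 : P} (gK : C(I × K, Z)) (gP : C(I × (C × P), Z))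
    (h : ∀ s c, gP (s, (c, p0)) = gK (s, e c)) (s : I) (x : C × P) :
    At.liftH gK gP h (s, At.inP e p0 x) = gP (s, x) := rfl

/-- The retraction onto `K`. -/
def At.ret (e : C(C, K)) (p0 : P) : C(At e p0, K) :=
  At.lift (ContinuousMap.id K) ⟨fun x => e x.1, by fun_prop⟩ (fun _ => rfl)

@[simp] theorem At.ret_inK (e : C(C, K)) (p0 : P) (k : K) : At.ret e p0 (At.inK e p0 k) = k := rfl

@[simp] theorem At.ret_inP (e : C(C, K)) (p0 : P) (x : C × P) :
    At.ret e p0 (At.inP e p0 x) = e x.1 := rfl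

end At

/-- The wedge `K ∨ P`, with `p0` attached at `k0`. -/
abbrev Wg {K P : Type} [TopologicalSpace K] [TopologicalSpace P] (k0 : K) (p0 : P) : Type :=
  At (⟨fun _ => k0, continuous_const⟩ : C(Unit, K)) p0

/-- The wedge of copies of `P` indexed by the discrete space `J`. -/
abbrev Wd (J : Type) [TopologicalSpace J] {P : Type} [TopologicalSpace P] (p0 : P) : Type :=
  At (⟨fun _ => (), continuous_const⟩ : C(J, Unit)) p0

/-- The base point of the wedge. -/
def Wd.pt (J : Type) [TopologicalSpace J] {P : Type} [TopologicalSpace P] (p0 : P) : Wd J p0 :=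
  At.inK _ p0 ()

/-- The `j`-th copy of `P` in the wedge. -/
def Wd.inJ {J : Type} [TopologicalSpace J] {P : Type} [TopologicalSpace P] (p0 : P) (j : J) :
    C(P, Wd J p0) := (At.inP _ p0).comp ⟨fun p => (j, p), by fun_prop⟩

/-- Data exhibiting `p0` as a nice base point of `P`: a function `rho` vanishing exactly at the base
point and a homotopy `lam` starting at the identity, which at time one sends the neighbourhood
`rho ≤ 1/2` of the base point to the base point. -/
structure WP (P : Type) [TopologicalSpace P] (p0 : P) where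
  /-- the size of a point -/
  rho : C(P, ℝ)
  rho_nonneg : ∀ p, 0 ≤ rho p
  rho_le_one : ∀ p, rho p ≤ 1
  rho_eq_zero : ∀ p, rho p = 0 ↔ p = p0
  /-- the homotopy -/
  lam : C(I × P, P)
  lam_zero : ∀ p, lam (0, p) = p
  lam_base : ∀ s, lam (s, p0) = p0
  lam_one : ∀ p, rho p ≤ 1 / 2 → lam (1, p) = p0

/-! ## Double suspensions -/

section S2

variable {Q : Type} [TopologicalSpace Q]

/-- The points of `I² × Q` which are collapsed in the reduced double suspension. -/
def S2bad (q0 : Q) (x : (Fin 2 → I) × Q) : Prop := x.1 ∈ Cube.boundary (Fin 2) ∨ x.2 = q0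

open Classical in
/-- Normal form. -/
def S2nf (q0 : Q) (x : (Fin 2 → I) × Q) : Option ((Fin 2 → I) × Q) :=
  if S2bad q0 x then none else some x

/-- The reduced double suspension of `(Q, q0)`. -/
def S2 (q0 : Q) : Type := Quotient (Setoid.ker (S2nf q0))

instance (q0 : Q) : TopologicalSpace (S2 q0) :=
  inferInstanceAs (TopologicalSpace (Quotient (Setoid.ker (S2nf q0))))

/-- The class of `(t, q)`. -/
def S2.mk (q0 : Q) : C((Fin 2 → I) × Q, S2 q0) :=
  ⟨Quotient.mk (Setoid.ker (S2nf q0)), continuous_quotient_mk'⟩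

/-- The base point of the double suspension. -/
def S2.pt (q0 : Q) : S2 q0 := S2.mk q0 (0, q0)

theorem S2.mk_surj (q0 : Q) : Function.Surjective (S2.mk q0) := Quotient.mk_surjective

theorem S2.isQuotientMap (q0 : Q) : IsQuotientMap (S2.mk q0) := isQuotientMap_quotient_mk'

theorem S2.mk_eq_iff {q0 : Q} {x y : (Fin 2 → I) × Q} :
    S2.mk q0 x = S2.mk q0 y ↔ S2nf q0 x = S2nf q0 y := Quotient.eq

theorem S2.mk_eq_iff' {q0 : Q} {x y : (Fin 2 → I) × Q} :
    S2.mk q0 x = S2.mk q0 y ↔ (S2bad q0 x ∧ S2bad q0 y) ∨ (¬ S2bad q0 x ∧ x = y) := by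
  rw [S2.mk_eq_iff]
  unfold S2nf
  split_ifs with h h' h'
  · simp [h, h']
  · simp [h, h']
  · simp only [reduceCtorEq, false_iff, not_or, not_and]
    exact ⟨fun h2 => absurd h2 h, fun _ h3 => h (h3 ▸ h')⟩
  · simp [h]

theorem S2.mk_eq_pt_iff {q0 : Q} {x : (Fin 2 → I) × Q} :
    S2.mk q0 x = S2.pt q0 ↔ S2bad q0 x := by
  unfold S2.pt
  rw [S2.mk_eq_iff']
  have : S2bad q0 ((0 : Fin 2 → I), q0) := Or.inr rfl
  constructor
  · rintro (h | ⟨-, h⟩)
    · exact h.1
    · rw [h]; exact this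
  · intro h
    exact Or.inl ⟨h, this⟩

theorem S2.mk_bad {q0 : Q} {x : (Fin 2 → I) × Q} (h : S2bad q0 x) : S2.mk q0 x = S2.pt q0 :=
  S2.mk_eq_pt_iff.mpr h

variable {Z : Type} [TopologicalSpace Z]

/-- Maps out of the double suspension. -/
def S2.lift {q0 : Q} (g : C((Fin 2 → I) × Q, Z)) (z : Z) (h : ∀ x, S2bad q0 x → g x = z) :
    C(S2 q0, Z) where
  toFun := Quotient.lift g (by
    intro x y hxy
    have : S2.mk q0 x = S2.mk q0 y := Quotient.sound hxy
    rcases S2.mk_eq_iff'.mp this with h1 | h1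
    · rw [h _ h1.1, h _ h1.2]
    · rw [h1.2])
  continuous_toFun := g.continuous.quotient_lift _

@[simp] theorem S2.lift_mk {q0 : Q} (g : C((Fin 2 → I) × Q, Z)) (z : Z)
    (h : ∀ x, S2bad q0 x → g x = z) (x : (Fin 2 → I) × Q) :
    S2.lift g z h (S2.mk q0 x) = g x := rfl

@[simp] theorem S2.lift_pt {q0 : Q} (g : C((Fin 2 → I) × Q, Z)) (z : Z)
    (h : ∀ x, S2bad q0 x → g x = z) : S2.lift g z h (S2.pt q0) = z := h _ (Or.inr rfl)

/-- Homotopies on the double suspension. -/
def S2.liftH {q0 : Q} (g : C(I × ((Fin 2 → I) × Q), Z)) (z : C(I, Z))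
    (h : ∀ s x, S2bad q0 x → g (s, x) = z s) : C(I × S2 q0, Z) :=
  ((S2.lift (q0 := q0) ((g.comp ⟨Prod.swap, continuous_swap⟩).curry) z
    (by intro x hx; ext s; exact h s x hx)).uncurry).comp ⟨Prod.swap, continuous_swap⟩

@[simp] theorem S2.liftH_mk {q0 : Q} (g : C(I × ((Fin 2 → I) × Q), Z)) (z : C(I, Z))
    (h : ∀ s x, S2bad q0 x → g (s, x) = z s) (s : I) (x : (Fin 2 → I) × Q) :
    S2.liftH g z h (s, S2.mk q0 x) = g (s, x) := rfl

@[simp] theorem S2.liftH_pt {q0 : Q} (g : C(I × ((Fin 2 → I) × Q), Z)) (z : C(I, Z))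
    (h : ∀ s x, S2bad q0 x → g (s, x) = z s) (s : I) :
    S2.liftH g z h (s, S2.pt q0) = z s := h _ _ (Or.inr rfl)

end S2

/-! ## Pointed mapping spaces and the groups `[Σ²Q, Y] = π₂(Map_*(Q, Y))` -/

section PM

variable {Q Y : Type} [TopologicalSpace Q] [TopologicalSpace Y]

/-- The space of pointed maps `(Q, q0) → (Y, y0)`. -/
def PM (q0 : Q) (y0 : Y) : Type := {f : C(Q, Y) // f q0 = y0}

instance (q0 : Q) (y0 : Y) : TopologicalSpace (PM q0 y0) :=
  inferInstanceAs (TopologicalSpace {f : C(Q, Y) // f q0 = y0})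

/-- The constant pointed map. -/
def PM.const (q0 : Q) (y0 : Y) : PM q0 y0 := ⟨ContinuousMap.const Q y0, rfl⟩

/-- The pointed maps `Σ²Q → Y`, as `2`-dimensional loops in the space of pointed maps `Q → Y`. -/
abbrev LP (q0 : Q) (y0 : Y) : Type := GenLoop (Fin 2) (PM q0 y0) (PM.const q0 y0)

/-- The group `[Σ²Q, Y]_* = π₂(Map_*(Q, Y))`. -/
abbrev PG (q0 : Q) (y0 : Y) : Type := HomotopyGroup (Fin 2) (PM q0 y0) (PM.const q0 y0)

/-- The class of a `2`-dimensional loop. -/
def LP.cls {q0 : Q} {y0 : Y} (g : LP q0 y0) : PG q0 y0 :=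
  Quotient.mk (GenLoop.Homotopic.setoid (Fin 2) _) g

/-- The pointed map `Σ²Q → Y` corresponding to a `2`-dimensional loop. -/
def LP.toMap [LocallyCompactSpace Q] {q0 : Q} {y0 : Y} (g : LP q0 y0) : C(S2 q0, Y) :=
  S2.lift (⟨fun x => (g x.1).1 x.2, by
    have h1 : Continuous fun x : (Fin 2 → I) × Q => (g x.1).1 :=
      continuous_subtype_val.comp (g.1.continuous.comp continuous_fst)
    exact h1.eval continuous_snd⟩ : C((Fin 2 → I) × Q, Y)) y0 (by
    rintro ⟨t, q⟩ (h | h)
    · have := g.2 t h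
      change (g.1 t).1 q = y0
      rw [this]
      rfl
    · simp only at h
      subst h
      exact (g t).2)

@[simp] theorem LP.toMap_mk [LocallyCompactSpace Q] {q0 : Q} {y0 : Y} (g : LP q0 y0)
    (t : Fin 2 → I) (q : Q) : g.toMap (S2.mk q0 (t, q)) = (g t).1 q := rfl

@[simp] theorem LP.toMap_pt [LocallyCompactSpace Q] {q0 : Q} {y0 : Y} (g : LP q0 y0) :
    g.toMap (S2.pt q0) = y0 := S2.lift_pt _ _ _

/-- Postcomposition with a pointed map. -/
def PM.post {Y' : Type} [TopologicalSpace Y'] {q0 : Q} {y0 : Y} {y0' : Y'} (k : C(Y, Y'))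
    (hk : k y0 = y0') : C(PM q0 y0, PM q0 y0') where
  toFun f := ⟨k.comp f.1, (congrArg k f.2).trans hk⟩
  continuous_toFun := by
    apply Continuous.subtype_mk
    exact (ContinuousMap.continuous_postcomp k).comp continuous_subtype_val

/-- Postcomposition with a pointed map. -/
def LP.post {Y' : Type} [TopologicalSpace Y'] {q0 : Q} {y0 : Y} {y0' : Y'} (k : C(Y, Y'))
    (hk : k y0 = y0') (g : LP q0 y0) : LP q0 y0' :=
  ⟨(PM.post k hk).comp g.1, by
    intro t ht
    have := g.2 t ht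
    rw [ContinuousMap.comp_apply, this]
    apply Subtype.ext
    ext q
    exact hk⟩

@[simp] theorem LP.post_apply {Y' : Type} [TopologicalSpace Y'] {q0 : Q} {y0 : Y} {y0' : Y'}
    (k : C(Y, Y')) (hk : k y0 = y0') (g : LP q0 y0) (t : Fin 2 → I) :
    (LP.post k hk g t).1 = k.comp (g t).1 := rfl

theorem LP.toMap_post [LocallyCompactSpace Q] {Y' : Type} [TopologicalSpace Y'] {q0 : Q} {y0 : Y}
    {y0' : Y'} (k : C(Y, Y')) (hk : k y0 = y0') (g : LP q0 y0) :
    (LP.post k hk g).toMap = k.comp g.toMap := by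
  ext x
  obtain ⟨⟨t, q⟩, rfl⟩ := S2.mk_surj q0 x
  rfl

/-- The tautological element of `[Σ²Q, Σ²Q]`. -/
def LP.taut (q0 : Q) : LP q0 (S2.pt q0) :=
  ⟨⟨fun t => ⟨⟨fun q => S2.mk q0 (t, q), by fun_prop⟩, S2.mk_bad (Or.inr rfl)⟩, by
    apply Continuous.subtype_mk
    exact ((S2.mk q0).curry).continuous⟩, by
    intro t ht
    apply Subtype.ext
    ext q
    exact S2.mk_bad (Or.inl ht)⟩

@[simp] theorem LP.taut_apply (q0 : Q) (t : Fin 2 → I) (q : Q) :
    (LP.taut q0 t).1 q = S2.mk q0 (t, q) := rfl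

theorem LP.toMap_taut [LocallyCompactSpace Q] (q0 : Q) :
    (LP.taut q0).toMap = ContinuousMap.id _ := by
  ext x
  obtain ⟨⟨t, q⟩, rfl⟩ := S2.mk_surj q0 x
  rfl

/-- The inclusion of the `j`-th summand, as an element of `[Σ²Q, ⋁_J Σ²Q]`. -/
def LP.inJ {J : Type} [TopologicalSpace J] (q0 : Q) (j : J) : LP q0 (Wd.pt J (S2.pt q0)) :=
  LP.post (Wd.inJ (S2.pt q0) j) (At.glue _ _ _) (LP.taut q0)

end PM

/-! ## Moore paths -/

section Moore

variable {K : Type} [TopologicalSpace K]

/-- Moore paths starting at `k0`: a length `ℓ ≥ 0` and a map `ℝ → K` which is `k0` on `(-∞, 0]`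
and constant on `[ℓ, ∞)`. -/
def Moore (k0 : K) : Type :=
  {γ : C(ℝ, K) × ℝ // 0 ≤ γ.2 ∧ (∀ x ≤ 0, γ.1 x = k0) ∧ ∀ x, γ.2 ≤ x → γ.1 x = γ.1 γ.2}

instance (k0 : K) : TopologicalSpace (Moore k0) :=
  inferInstanceAs (TopologicalSpace {γ : C(ℝ, K) × ℝ //
    0 ≤ γ.2 ∧ (∀ x ≤ 0, γ.1 x = k0) ∧ ∀ x, γ.2 ≤ x → γ.1 x = γ.1 γ.2})

/-- The end point. -/
def Moore.fin (k0 : K) : C(Moore k0, K) :=
  ⟨fun γ => γ.1.1 γ.1.2, by
    exact (continuous_fst.comp continuous_subtype_val).eval
      (continuous_snd.comp continuous_subtype_val)⟩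

/-- The constant path of length zero. -/
def Moore.nil (k0 : K) : Moore k0 :=
  ⟨(ContinuousMap.const ℝ k0, 0), le_rfl, fun _ _ => rfl, fun _ _ => rfl⟩

@[simp] theorem Moore.fin_nil (k0 : K) : Moore.fin k0 (Moore.nil k0) = k0 := rfl

/-- Moore loops at `k0`. -/
def MLoop (k0 : K) : Type := {γ : Moore k0 // Moore.fin k0 γ = k0}

instance (k0 : K) : TopologicalSpace (MLoop k0) :=
  inferInstanceAs (TopologicalSpace {γ : Moore k0 // Moore.fin k0 γ = k0})

end Moore

/-! ## The complex `K` -/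

/-- The circle. -/
abbrev Cir : Type := AddCircle (1 : ℝ)

/-- The map of degree two of the circle. -/
def dbl : C(Cir, Cir) := ⟨fun x => x + x, by fun_prop⟩

@[simp] theorem dbl_apply (x : Cir) : dbl x = x + x := rfl

/-- The mapping torus of the map of degree two of the circle: a finite complex with fundamental
group `BS(1,2)`. -/
abbrev KK : Type := MT dbl

/-- Its base point. -/
def kk0 : KK := MT.mk dbl (0, 0)

/-! ## The pointed space `Q`: the reduced mapping cone of the map of degree two of `I/∂I` -/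

/-- The points `(w, r)` of the square which are collapsed to the base point. -/
def Qbad (x : I × I) : Prop := x.1 = 0 ∨ x.1 = 1 ∨ x.2 = 1 ∨ (x.2 = 0 ∧ (x.1 : ℝ) = 1 / 2)

open Classical in
/-- Normal form: `(w, 0) ~ (w + 1/2, 0)` and the bad points are identified. -/
def Qnf (x : I × I) : Option (ℝ × ℝ) :=
  if Qbad x then none else if x.2 = 0 then some (Int.fract (2 * (x.1 : ℝ)), 0) else some (x.1, x.2)

/-- The pointed space `Q`: the square `{(w, r)}` with `w = 0`, `w = 1`, `r = 1`,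
`(1/2, 0)` collapsed to the base point, and `(w, 0) ~ (w + 1/2, 0)`. -/
def QQ : Type := Quotient (Setoid.ker Qnf)

instance : TopologicalSpace QQ := inferInstanceAs (TopologicalSpace (Quotient (Setoid.ker Qnf)))

instance : CompactSpace QQ := inferInstanceAs (CompactSpace (Quotient (Setoid.ker Qnf)))

/-- The class of `(w, r)`. -/
def QQ.mk : C(I × I, QQ) := ⟨Quotient.mk (Setoid.ker Qnf), continuous_quotient_mk'⟩

/-- The base point. -/
def QQ.pt : QQ := QQ.mk (0, 0)

theorem QQ.mk_surj : Function.Surjective QQ.mk := Quotient.mk_surjective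

theorem QQ.isQuotientMap : IsQuotientMap QQ.mk := isQuotientMap_quotient_mk'

theorem QQ.mk_eq_iff {x y : I × I} : QQ.mk x = QQ.mk y ↔ Qnf x = Qnf y := Quotient.eq

/-- Maps out of `Q`. -/
def QQ.lift {Z : Type} [TopologicalSpace Z] (g : C(I × I, Z)) (z : Z)
    (hb : ∀ x, Qbad x → g x = z)
    (h : ∀ w w' : I, (w' : ℝ) = w + 1 / 2 → g (w, 0) = g (w', 0)) : C(QQ, Z) where
  toFun := Quotient.lift g (by
    intro x y hxy
    have hxy : Qnf x = Qnf y := hxy
    unfold Qnf at hxy
    by_cases h1 : Qbad x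
    · by_cases h4 : Qbad y
      · rw [hb x h1, hb y h4]
      · rw [if_pos h1, if_neg h4] at hxy
        split_ifs at hxy
    · by_cases h4 : Qbad y
      · rw [if_neg h1, if_pos h4] at hxy
        split_ifs at hxy
      · rw [if_neg h1, if_neg h4] at hxy
        by_cases h3 : x.2 = 0
        · by_cases h5 : y.2 = 0
          · rw [if_pos h3, if_pos h5] at hxy
            obtain ⟨w, r⟩ := x
            obtain ⟨w', r'⟩ := y
            simp only at h3 h5
            subst h3 h5
            simp only [Option.some.injEq, Prod.mk.injEq, and_true] at hxy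
            obtain ⟨n, hn⟩ := Int.fract_eq_fract.mp hxy
            have hw0 : (0 : ℝ) < w :=
              lt_of_le_of_ne w.2.1 (fun h => h1 (Or.inl (Subtype.ext h.symm)))
            have hw1 : (w : ℝ) < 1 :=
              lt_of_le_of_ne w.2.2 (fun h => h1 (Or.inr (Or.inl (Subtype.ext h))))
            have hv0 : (0 : ℝ) < w' :=
              lt_of_le_of_ne w'.2.1 (fun h => h4 (Or.inl (Subtype.ext h.symm)))
            have hv1 : (w' : ℝ) < 1 :=
              lt_of_le_of_ne w'.2.2 (fun h => h4 (Or.inr (Or.inl (Subtype.ext h))))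
            have hn1 : (n : ℝ) < 2 := by linarith
            have hn2 : (-2 : ℝ) < n := by linarith
            have hn1' : n < 2 := by exact_mod_cast hn1
            have hn2' : -2 < n := by exact_mod_cast hn2
            obtain rfl | rfl | rfl : n = -1 ∨ n = 0 ∨ n = 1 := by omega
            · exact h w w' (by push_cast at hn; linarith)
            · have : w = w' := Subtype.ext (by push_cast at hn; linarith)
              rw [this]
            · exact (h w' w (by push_cast at hn; linarith)).symm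
          · rw [if_pos h3, if_neg h5] at hxy
            simp only [Option.some.injEq, Prod.mk.injEq] at hxy
            exact absurd (Subtype.ext hxy.2.symm) h5
        · by_cases h5 : y.2 = 0
          · rw [if_neg h3, if_pos h5] at hxy
            simp only [Option.some.injEq, Prod.mk.injEq] at hxy
            exact absurd (Subtype.ext hxy.2) h3
          · rw [if_neg h3, if_neg h5] at hxy
            simp only [Option.some.injEq, Prod.mk.injEq] at hxy
            have : x = y := Prod.ext (Subtype.ext hxy.1) (Subtype.ext hxy.2)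
            rw [this])
  continuous_toFun := g.continuous.quotient_lift _

@[simp] theorem QQ.lift_mk {Z : Type} [TopologicalSpace Z] (g : C(I × I, Z)) (z : Z)
    (hb : ∀ x, Qbad x → g x = z)
    (h : ∀ w w' : I, (w' : ℝ) = w + 1 / 2 → g (w, 0) = g (w', 0)) (x : I × I) :
    QQ.lift g z hb h (QQ.mk x) = g x := rfl

end

end Pool.Agent.W622.SC
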