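import Pool.Agent.W622.SC.Model

/-! # Consequences of the model -/

set_option autoImplicit false

open unitInterval Topology ContinuousMap

namespace Pool.Agent.W622.SC

noncomputable section

theorem exists_lift_cir {X : Type} [TopologicalSpace X] (ht : C(X, Cir)) {x y : X}
    (γ : Path x y) : ∃ l : C(I, ℝ), ∀ s, ((l s : ℝ) : Cir) = ht (γ s) := by
  have cov : IsCoveringMap ((↑) : ℝ → Cir) := AddCircle.isCoveringMap_coe 1
  obtain ⟨r, hr⟩ := QuotientAddGroup.mk_surjective (ht (γ 0))
  obtain ⟨l, hl, -⟩ := cov.exists_path_lifts (ht.comp γ.toContinuousMap) r hr.symm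
  exact ⟨l, fun s => congr_fun hl s⟩

/-- A space is finitely dominated. -/
def FinDom (X : Type) [TopologicalSpace X] : Prop :=
  ∃ (K : Type) (_ : TopologicalSpace K) (_ : T2Space K)
    (_ : Topology.CWComplex (Set.univ : Set K)),
    Topology.RelCWComplex.Finite (Set.univ : Set K) ∧
    ∃ (i : C(X, K)) (r : C(K, X)), (r.comp i).Homotopic (ContinuousMap.id X)

/-- A space is homotopy equivalent to a CW complex of finite type. -/
def FinTyp (X : Type) [TopologicalSpace X] : Prop :=
  ∃ (Y : Type) (_ : TopologicalSpace Y) (_ : T2Space Y)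
    (_ : Topology.CWComplex (Set.univ : Set Y)),
    Topology.RelCWComplex.FiniteType (Set.univ : Set Y) ∧
      Nonempty (ContinuousMap.HomotopyEquiv X Y)

theorem compact_skel {Y : Type} [TopologicalSpace Y] [T2Space Y]
    [Topology.CWComplex (Set.univ : Set Y)]
    (h : Topology.RelCWComplex.FiniteType (Set.univ : Set Y)) (n : ℕ) :
    IsCompact (Topology.RelCWComplex.skeletonLT (Set.univ : Set Y) (n : ℕ∞) : Set Y) := by
  induction n with
  | zero =>
    have : (Topology.RelCWComplex.skeletonLT (Set.univ : Set Y) ((0 : ℕ) : ℕ∞) : Set Y) = ∅ :=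
      Topology.CWComplex.skeletonLT_zero_eq_empty
    rw [this]
    exact isCompact_empty
  | succ n ih =>
    have h1 := Topology.RelCWComplex.skeletonLT_union_iUnion_closedCell_eq_skeletonLT_succ
      (C := (Set.univ : Set Y)) n
    have h2 : ((n + 1 : ℕ) : ℕ∞) = (n : ℕ∞) + 1 := by push_cast; rfl
    rw [h2, ← h1]
    have := h.finite_cell n
    exact ih.union (isCompact_iUnion fun j => Topology.RelCWComplex.isCompact_closedCell)

theorem compact_of_finite {Y : Type} [TopologicalSpace Y] [T2Space Y]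
    [Topology.CWComplex (Set.univ : Set Y)]
    (h : Topology.RelCWComplex.Finite (Set.univ : Set Y)) : CompactSpace Y := by
  have h0 := h.toFiniteDimensional.eventually_isEmpty_cell
  obtain ⟨N, hN⟩ := Filter.eventually_atTop.mp h0
  have h1 : ∀ n, N ≤ n →
      (Topology.RelCWComplex.skeletonLT (Set.univ : Set Y) (n : ℕ∞) : Set Y) =
      (Topology.RelCWComplex.skeletonLT (Set.univ : Set Y) (N : ℕ∞) : Set Y) := by
    intro n hn
    induction n, hn using Nat.le_induction with
    | base => rfl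
    | succ n hn ih =>
      have h1 := Topology.RelCWComplex.skeletonLT_union_iUnion_closedCell_eq_skeletonLT_succ
        (C := (Set.univ : Set Y)) n
      have h2 : ((n + 1 : ℕ) : ℕ∞) = (n : ℕ∞) + 1 := by push_cast; rfl
      rw [h2, ← h1, ih]
      have := hN n hn
      simp
  have h3 : (Set.univ : Set Y) =
      (Topology.RelCWComplex.skeletonLT (Set.univ : Set Y) (N : ℕ∞) : Set Y) := by
    apply Set.Subset.antisymm
    · intro x _
      have h4 : x ∈ (Topology.RelCWComplex.skeletonLT (Set.univ : Set Y) ⊤ : Set Y) := by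
        rw [Topology.RelCWComplex.skeletonLT_top]; trivial
      have h5 := Topology.CWComplex.iUnion_skeletonLT_eq_complex (C := (Set.univ : Set Y))
      have h6 : x ∈ ⋃ (n : ℕ),
        (Topology.RelCWComplex.skeletonLT (Set.univ : Set Y) (n : ℕ∞) : Set Y) := by
        rw [h5]; trivial
      obtain ⟨n, hn⟩ := Set.mem_iUnion.mp h6
      by_cases hn2 : N ≤ n
      · rw [← h1 n hn2]; exact hn
      · exact Topology.RelCWComplex.skeletonLT_mono (by
          exact_mod_cast (not_le.mp hn2).le) hn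
    · exact Set.subset_univ _
  rw [← isCompact_univ_iff, h3]
  exact compact_skel h.toFiniteType N

/-- The non-compressibility statement implies that the infinite cyclic cover is not dominated by a
compact space. -/
theorem noDom {P Z : Type} [TopologicalSpace P] [TopologicalSpace Z] (H : C(Z, ℝ))
    (inc : ℤ → C(P, Z)) (hnc : ∀ (N n : ℤ), N + 1 < n → ∀ g : C(P, Z), (∀ p, H (g p) ≤ N) →
      ¬ (inc n).Homotopic g) {Y : Type} [TopologicalSpace Y] [CompactSpace Y] (i : C(Z, Y))
    (r : C(Y, Z)) (h : (r.comp i).Homotopic (ContinuousMap.id Z)) : False := by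
  obtain ⟨M, hM⟩ : ∃ M : ℝ, ∀ y, H (r y) ≤ M := by
    obtain ⟨M, hM⟩ := (isCompact_range (H.comp r).continuous).bddAbove
    exact ⟨M, fun y => hM ⟨y, rfl⟩⟩
  obtain ⟨N, hN⟩ := exists_int_gt M
  apply hnc N (N + 2) (by omega) ((r.comp i).comp (inc (N + 2)))
    (fun p => ((hM _).trans hN.le))
  exact (comp_htpy_right h (inc (N + 2))).symm

/-- The non-compressibility statement implies that the infinite cyclic cover is not of finite
type. -/
theorem noFT (hca : S_CA) {P Z : Type} [TopologicalSpace P] [CompactSpace P] [TopologicalSpace Z]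
    (H : C(Z, ℝ)) (inc : ℤ → C(P, Z))
    (hnc : ∀ (N n : ℤ), N + 1 < n → ∀ g : C(P, Z), (∀ p, H (g p) ≤ N) →
      ¬ (inc n).Homotopic g) {N0 : ℕ} (φ : P → EuclideanSpace ℝ (Fin N0))
    (hφ : Topology.IsEmbedding φ) (hφ4 : dimH (Set.range φ) ≤ 4) : ¬ FinTyp Z := by
  rintro ⟨Y, _, _, cw, hft, ⟨he⟩⟩
  have hc : IsCompact (Set.range φ) := isCompact_range hφ.continuous
  let ψ : P ≃ₜ Set.range φ := hφ.toHomeomorph
  let S : Set Y := (Topology.RelCWComplex.skeletonLT (Set.univ : Set Y) (5 : ℕ∞) : Set Y)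
  have hS : IsCompact S := compact_skel hft 5
  obtain ⟨M, hM⟩ : ∃ M : ℝ, ∀ y ∈ S, H (he.invFun y) ≤ M := by
    obtain ⟨M, hM⟩ := (hS.image (H.comp he.invFun).continuous).bddAbove
    exact ⟨M, fun y hy => hM ⟨y, hy, rfl⟩⟩
  obtain ⟨N, hN⟩ := exists_int_gt M
  obtain ⟨g', hg, hg'⟩ := hca N0 (Set.range φ) hc hφ4 Y cw
    ((he.toFun.comp (inc (N + 2))).comp ⟨ψ.symm, ψ.symm.continuous⟩)
  apply hnc N (N + 2) (by omega) (he.invFun.comp (g'.comp ⟨ψ, ψ.continuous⟩))
    (fun p => (hM _ (hg' _)).trans hN.le)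
  have h1 := comp_htpy_left (comp_htpy_right hg ⟨ψ, ψ.continuous⟩) he.invFun
  have h2 : he.invFun.comp (((he.toFun.comp (inc (N + 2))).comp
      ⟨ψ.symm, ψ.symm.continuous⟩).comp ⟨ψ, ψ.continuous⟩) =
      (he.invFun.comp he.toFun).comp (inc (N + 2)) := by
    ext p
    change he.invFun (he.toFun (inc (N + 2) (ψ.symm (ψ p)))) = _
    rw [Homeomorph.symm_apply_apply]
    rfl
  rw [h2] at h1
  have h3 := comp_htpy_right he.left_inv (inc (N + 2))
  exact h3.symm.trans h1

theorem card_fibre {E : Type} [TopologicalSpace E] (f : C(E, E)) (y : MT f) :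
    Nat.card (MT.down f not ⁻¹' {y}) = 2 := by
  obtain ⟨x, u, hu, rfl⟩ : ∃ (x : E) (u : I), u ≠ 1 ∧ MT.mk f (x, u) = y := by
    revert y
    apply MT.ind
    intro x u
    by_cases hu : u = 1
    · exact ⟨f x, 0, by norm_num, by rw [hu, MT.glue]⟩
    · exact ⟨x, u, hu, rfl⟩
  have hinj : Function.Injective fun b : Bool => MT.mk (lvl f not) ((x, b), u) := by
    intro b b' hb
    have h1 := MT.mk_eq_iff.mp hb
    unfold MTnf at h1
    rw [if_neg hu, if_neg hu] at h1
    exact congrArg (fun z : (E × Bool) × I => z.1.2) h1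
  have hr : (MT.down f not ⁻¹' {MT.mk f (x, u)}) =
      Set.range fun b : Bool => MT.mk (lvl f not) ((x, b), u) := by
    ext z
    constructor
    · revert z
      apply MT.ind
      rintro ⟨x', b⟩ v hz
      have h1 : MT.mk f (x', v) = MT.mk f (x, u) := hz
      have h2 := MT.mk_eq_iff.mp h1
      unfold MTnf at h2
      by_cases hv : v = 1
      · rw [if_pos hv, if_neg hu] at h2
        refine ⟨!b, ?_⟩
        have h3 : f x' = x := congrArg Prod.fst h2
        have h4 : (0 : I) = u := congrArg Prod.snd h2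
        change MT.mk (lvl f not) ((x, !b), u) = _
        rw [hv, MT.glue, ← h4, ← h3]
        rfl
      · rw [if_neg hv, if_neg hu] at h2
        refine ⟨b, ?_⟩
        have h3 : x' = x := congrArg Prod.fst h2
        have h4 : v = u := congrArg Prod.snd h2
        rw [h3, h4]
    · rintro ⟨b, rfl⟩
      rfl
  rw [hr, Nat.card_range_of_injective hinj]
  simp

end

end Pool.Agent.W622.SC
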