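import Pool.Agent.W622.SC.Fin0

/-! # The final form of the example -/

set_option autoImplicit false

open unitInterval Topology ContinuousMap

namespace Pool.Agent.W622.SC

noncomputable section

theorem lvl_inc_cont {E P : Type} [TopologicalSpace E] [TopologicalSpace P] (f : C(E, E))
    (inc : C(P, E)) (n : ℤ) : Continuous fun p => MT.mk (lvl f sh) ((inc p, n), 0) := by
  fun_prop

/-- A self-covering complex. -/
theorem Hyps.final (hy : Hyps) : ∃ (X : Type) (_ : TopologicalSpace X) (_ : T2Space X)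
    (_ : Topology.CWComplex (Set.univ : Set X)) (x₀ : X)
    (φ : FundamentalGroup X x₀ →* Multiplicative ℤ)
    (X₂ : Type) (_ : TopologicalSpace X₂) (p : C(X₂, X)) (h : C(X, X₂))
    (Z : Type) (_ : TopologicalSpace Z) (pz : C(Z, X)) (z₀ : Z) (hx : x₀ = p (h x₀)),
    Topology.RelCWComplex.Finite (Set.univ : Set X) ∧ PathConnectedSpace X ∧
    PathConnectedSpace X₂ ∧ PathConnectedSpace Z ∧
    Function.Surjective φ ∧
    (∃ (n : ℕ) (R : Finset (FreeGroup (Fin n))),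
      Nonempty (↥φ.ker ≃* PresentedGroup (R : Set (FreeGroup (Fin n))))) ∧
    IsCoveringMap p ∧ (∀ x, Nat.card (p ⁻¹' {x}) = 2) ∧
    (∀ γ : Path x₀ x₀, (∃ γ' : Path (h x₀) (h x₀), ∀ s, p (γ' s) = γ s) ↔
      (2 : ℤ) ∣ Multiplicative.toAdd (φ (FundamentalGroup.fromPath (Quotient.mk _ γ)))) ∧
    (∃ g : C(X₂, X), g (h x₀) = x₀ ∧ (g.comp h).Homotopic (ContinuousMap.id X) ∧
      (h.comp g).Homotopic (ContinuousMap.id X₂)) ∧
    (∀ γ : Path x₀ x₀, φ (FundamentalGroup.fromPath (Quotient.mk _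
      (((γ.map h.continuous).map p.continuous).cast hx hx))) =
      φ (FundamentalGroup.fromPath (Quotient.mk _ γ)) ^ 2) ∧
    (∀ δ : Path (h x₀) (h x₀),
      (∃ γ : Path x₀ x₀, φ (FundamentalGroup.fromPath (Quotient.mk _ γ)) = 1 ∧
        ∀ s, p (δ s) = γ s) ↔
      (∃ γ : Path x₀ x₀, φ (FundamentalGroup.fromPath (Quotient.mk _ γ)) = 1 ∧
        (γ.map h.continuous).Homotopic δ)) ∧
    IsCoveringMap pz ∧ pz z₀ = x₀ ∧
    (∀ γ : Path x₀ x₀, (∃ γ' : Path z₀ z₀, ∀ s, pz (γ' s) = γ s) ↔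
      φ (FundamentalGroup.fromPath (Quotient.mk _ γ)) = 1) ∧
    (∀ (Y : Type) (_ : TopologicalSpace Y) (_ : CompactSpace Y) (i : C(Z, Y)) (r : C(Y, Z)),
      ¬ (r.comp i).Homotopic (ContinuousMap.id Z)) ∧
    ¬ FinTyp Z := by
  obtain ⟨E, P, _, _, j0, f, R, inc, hP, hE, hfj, hR, hpush, hHE, hnc, ⟨hT2, cw, hfin⟩, N0, φe,
    hφe, hφd⟩ := hy.model
  have hHE2 := hHE
  obtain ⟨h, g, hgh, hhg, hh0, hg0, hht⟩ := hHE
  have hh0 : h (MT.mk f (j0 kk0, 0)) = MT.mk (lvl f not) ((j0 kk0, false), 0) := hh0 ()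
  have hg0 : g (MT.mk (lvl f not) ((j0 kk0, false), 0)) = MT.mk f (j0 kk0, 0) := hg0 ()
  let x₀ : MT f := MT.mk f (j0 kk0, 0)
  have hx : x₀ = MT.down f not (h x₀) := by
    change MT.mk f (j0 kk0, 0) = MT.down f not (h (MT.mk f (j0 kk0, 0)))
    rw [hh0]
    rfl
  obtain ⟨φ, hφ⟩ := hy.wind (MT f) x₀ (MT.ht f)
  have hcond := hy.cond (MT f) (MT (lvl f not)) x₀ (MT.ht f) (MT.ht2 f) (MT.down f not) h φ hφ hx
    (by
      apply MT.ind
      rintro ⟨x, b⟩ u
      change (((u : ℝ)) : Cir) = ((((u : ℝ) + (if b then 1 else 0)) / 2 : ℝ) : Cir) +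
        ((((u : ℝ) + (if b then 1 else 0)) / 2 : ℝ) : Cir)
      rw [← AddCircle.coe_add]
      cases b
      · congr 1
        norm_num
      · have h1 : (((u : ℝ) + (if true = true then 1 else 0)) / 2 +
          ((u : ℝ) + (if true = true then 1 else 0)) / 2 : ℝ) = (u : ℝ) + 1 := by
          norm_num
        rw [h1, AddCircle.coe_add, AddCircle.coe_period, add_zero]) hht ⟨g, hgh, hhg⟩
  have hwind1 : ∀ γ : Path x₀ x₀, ∀ l : C(I, ℝ), (∀ s, ((l s : ℝ) : Cir) = MT.ht f (γ s)) →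
      (l 1 = l 0 ↔ φ (FundamentalGroup.fromPath (Quotient.mk _ γ)) = 1) := by
    intro γ l hl
    have h1 := hφ γ l hl
    constructor
    · intro h2
      rw [h2, sub_self] at h1
      have h3 : Multiplicative.toAdd (φ (FundamentalGroup.fromPath (Quotient.mk _ γ))) = 0 := by
        exact_mod_cast h1.symm
      exact h3
    · intro h2
      rw [h2] at h1
      have h3 : ((Multiplicative.toAdd (1 : Multiplicative ℤ) : ℤ) : ℝ) = 0 := by
        rw [toAdd_one, Int.cast_zero]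
      rw [h3] at h1
      linarith
  have hshb : Function.Bijective sh := ⟨fun a b h => by unfold sh at h; omega,
    fun b => ⟨b - 1, by unfold sh; omega⟩⟩
  have hnotb : Function.Bijective not := Bool.involutive_not.bijective
  have hlift1 : ∀ γ : Path x₀ x₀, (∃ γ' : Path (MT.mk (lvl f sh) ((j0 kk0, 0), 0))
      (MT.mk (lvl f sh) ((j0 kk0, 0), 0)), ∀ s, MT.down f sh (γ' s) = γ s) ↔
      φ (FundamentalGroup.fromPath (Quotient.mk _ γ)) = 1 := by
    intro γ
    obtain ⟨l, hl⟩ := exists_lift_cir (MT.ht f) γ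
    rw [← hwind1 γ l hl]
    exact hy.loopZ E f (j0 kk0) (hfj kk0) γ l hl
  refine ⟨MT f, inferInstance, hT2, cw, x₀, φ, MT (lvl f not), inferInstance, MT.down f not, h,
    MT (lvl f sh), inferInstance, MT.down f sh, MT.mk (lvl f sh) ((j0 kk0, 0), 0), hx, hfin,
    pc_MT f, pc_MT_not f, pc_MT_sh f, ?_, ?_, hy.cov E Bool f not hnotb, card_fibre f, ?_,
    ⟨g, ?_, hgh, hhg⟩, hcond.1, hcond.2, hy.cov E ℤ f sh hshb, rfl, hlift1, ?_, ?_⟩
  · -- surjectivity
    have hend : MT.mk f (j0 kk0, 1) = x₀ := by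
      rw [MT.glue, hfj]
    let γ0 : Path x₀ x₀ := ⟨⟨fun u => MT.mk f (j0 kk0, u), by fun_prop⟩, rfl, hend⟩
    have h1 := hφ γ0 ⟨fun u => (u : ℝ), by fun_prop⟩ (fun s => rfl)
    have h2 : Multiplicative.toAdd (φ (FundamentalGroup.fromPath (Quotient.mk _ γ0))) = 1 := by
      have h3 : ((1 : I) : ℝ) - ((0 : I) : ℝ) = 1 := by norm_num
      have h4 : (1 : ℝ) =
        ((Multiplicative.toAdd (φ (FundamentalGroup.fromPath (Quotient.mk _ γ0))) : ℤ) : ℝ) := by
        rw [← h1]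
        exact h3.symm
      exact_mod_cast h4.symm
    intro m
    refine ⟨(FundamentalGroup.fromPath (Quotient.mk _ γ0)) ^ (Multiplicative.toAdd m), ?_⟩
    rw [map_zpow]
    apply Multiplicative.toAdd.injective
    rw [toAdd_zpow, h2]
    simp
  · -- finite presentation of the kernel
    refine hy.fp (MT f) KK kk0 ((MT.mk f).comp ⟨fun k => (j0 k, 0), by fun_prop⟩) R hR φ ?_ ?_
      hy.pi1K
    · intro γ hγ
      obtain ⟨γ', hγ'⟩ := (hlift1 γ).mpr hγ
      exact hy.kerZ KK E j0 f hfj hpush kk0 γ γ' hγ'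
    · intro δ
      exact (hwind1 _ (ContinuousMap.const I 0) (fun s => rfl)).mp rfl
  · -- the double cover
    intro γ
    obtain ⟨l, hl⟩ := exists_lift_cir (MT.ht f) γ
    have h1 := hy.loop2 E f (j0 kk0) (hfj kk0) γ l hl
    have h2 := hφ γ l hl
    have h3 : (∃ γ' : Path (h x₀) (h x₀), ∀ s, MT.down f not (γ' s) = γ s) ↔
        (∃ γ' : Path (MT.mk (lvl f not) ((j0 kk0, false), 0))
          (MT.mk (lvl f not) ((j0 kk0, false), 0)), ∀ s, MT.down f not (γ' s) = γ s) := by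
      constructor
      · rintro ⟨γ', h⟩
        exact ⟨γ'.cast hh0.symm hh0.symm, h⟩
      · rintro ⟨γ', h⟩
        exact ⟨γ'.cast hh0 hh0, h⟩
    rw [h3, h1]
    constructor
    · rintro ⟨m, hm⟩
      refine ⟨m, ?_⟩
      rw [h2] at hm
      exact_mod_cast hm
    · rintro ⟨m, hm⟩
      refine ⟨m, ?_⟩
      rw [h2, hm]
      push_cast
      ring
  · change g (h (MT.mk f (j0 kk0, 0))) = _
    rw [hh0, hg0]
  · intro Y _ _ i r hri
    exact noDom (MT.htZ f) (fun n => ⟨fun p => MT.mk (lvl f sh) ((inc p, n), 0),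
      lvl_inc_cont f inc n⟩) hnc i r hri
  · exact noFT hy.ca (MT.htZ f) (fun n => ⟨fun p => MT.mk (lvl f sh) ((inc p, n), 0),
      lvl_inc_cont f inc n⟩) hnc φe hφe hφd

end

end Pool.Agent.W622.SC
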