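import Pool.Agent.W622.SC.Stmts

/-! # The flow on a mapping torus; `S_swap`, `S_dbl` -/

set_option autoImplicit false

open unitInterval Topology ContinuousMap

namespace Pool.Agent.W622.SC

noncomputable section

/-- clamp to the unit interval -/
def cl (x : ℝ) : I := Set.projIcc 0 1 zero_le_one x

theorem continuous_cl : Continuous cl := continuous_projIcc (h := zero_le_one)

theorem cl_coe (u : I) : cl (u : ℝ) = u := Set.projIcc_val _ _

theorem cl_of_mem {x : ℝ} (h0 : 0 ≤ x) (h1 : x ≤ 1) : cl x = ⟨x, h0, h1⟩ :=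
  Set.projIcc_of_mem _ ⟨h0, h1⟩

theorem cl_le {x : ℝ} (h : x ≤ 0) : cl x = 0 := Set.projIcc_of_le_left _ h

theorem cl_ge {x : ℝ} (h : 1 ≤ x) : cl x = 1 := Set.projIcc_of_right_le _ h

theorem coe_cl {x : ℝ} (h0 : 0 ≤ x) (h1 : x ≤ 1) : ((cl x : I) : ℝ) = x := by
  rw [cl_of_mem h0 h1]

section Flow

variable {E : Type} [TopologicalSpace E] (f : C(E, E))

/-- The flow before descending. -/
def flF (x : I × (E × I)) : MT f :=
  if (x.2.2 : ℝ) + (x.1 : ℝ) ≤ 1 then MT.mk f (x.2.1, cl ((x.2.2 : ℝ) + (x.1 : ℝ)))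
  else MT.mk f (f x.2.1, cl ((x.2.2 : ℝ) + (x.1 : ℝ) - 1))

theorem continuous_flF : Continuous (flF f) := by
  have c1 := continuous_cl
  unfold flF
  apply Continuous.if_le
  · apply (MT.mk f).continuous.comp
    fun_prop
  · apply (MT.mk f).continuous.comp
    fun_prop
  · fun_prop
  · fun_prop
  · rintro ⟨s, x, u⟩ hu
    simp only at hu ⊢
    rw [hu, cl_ge le_rfl, sub_self, cl_le le_rfl, MT.glue]

/-- The flow. -/
def fl : C(I × MT f, MT f) := MT.liftH ⟨flF f, continuous_flF f⟩ (by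
  intro s x
  change flF f (s, (x, 1)) = flF f (s, (f x, 0))
  have hs0 := s.2.1
  have hs1 := s.2.2
  have e1 : ((1 : I) : ℝ) = 1 := rfl
  have e0 : ((0 : I) : ℝ) = 0 := rfl
  have h2 : flF f (s, (f x, 0)) = MT.mk f (f x, s) := by
    unfold flF
    simp only [e0, zero_add]
    rw [if_pos hs1, cl_coe]
  rw [h2]
  unfold flF
  simp only [e1]
  split_ifs with h
  · have hs : s = 0 := Subtype.ext (by
      change (s : ℝ) = 0
      linarith)
    subst hs
    rw [e0, add_zero, cl_ge le_rfl, MT.glue]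
  · rw [show (1 : ℝ) + (s : ℝ) - 1 = (s : ℝ) by ring, cl_coe])

theorem fl_of_le {x : E} {u s : I} (h : (u : ℝ) + (s : ℝ) ≤ 1) :
    fl f (s, MT.mk f (x, u)) = MT.mk f (x, cl ((u : ℝ) + (s : ℝ))) := by
  change flF f (s, (x, u)) = _
  unfold flF
  rw [if_pos h]

theorem fl_of_ge {x : E} {u s : I} (h : 1 ≤ (u : ℝ) + (s : ℝ)) :
    fl f (s, MT.mk f (x, u)) = MT.mk f (f x, cl ((u : ℝ) + (s : ℝ) - 1)) := by
  change flF f (s, (x, u)) = _
  unfold flF
  split_ifs with h2
  · have h3 : (u : ℝ) + (s : ℝ) = 1 := le_antisymm h2 h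
    rw [h3, cl_ge le_rfl, sub_self, cl_le le_rfl, MT.glue]
  · rfl

theorem fl_zero (y : MT f) : fl f (0, y) = y := by
  revert y
  apply MT.ind
  intro x u
  have e0 : ((0 : I) : ℝ) = 0 := rfl
  rw [fl_of_le f (by rw [e0, add_zero]; exact u.2.2), e0, add_zero, cl_coe]

theorem fl_one (x : E) (u : I) : fl f (1, MT.mk f (x, u)) = MT.mk f (f x, u) := by
  have e1 : ((1 : I) : ℝ) = 1 := rfl
  rw [fl_of_ge f (by rw [e1]; linarith [u.2.1]), e1, add_sub_cancel_right, cl_coe]

end Flow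

theorem swap_aux {E E' : Type} [TopologicalSpace E] [TopologicalSpace E'] (f : C(E, E'))
    (g : C(E', E)) : ((MT.map (f := f.comp g) (f' := g.comp f) g (fun _ => rfl)).comp
      (MT.map (f := g.comp f) (f' := f.comp g) f (fun _ => rfl))).Homotopic
      (ContinuousMap.id (MT (g.comp f))) := by
  refine ⟨ContinuousMap.Homotopy.symm ⟨fl (g.comp f), fl_zero _, ?_⟩⟩
  apply MT.ind
  intro x u
  exact fl_one _ x u

theorem swap : S_swap := by
  intro E E' B _ _ f g x y hx hy
  refine ⟨MT.map f (fun _ => rfl), MT.map g (fun _ => rfl), swap_aux f g, swap_aux g f, ?_, ?_, ?_⟩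
  · intro i
    rw [MT.map_mk, hx]
  · intro i
    rw [MT.map_mk, hy]
  · have : (MT.ht (f.comp g)).comp (MT.map (f := g.comp f) (f' := f.comp g) f (fun _ => rfl)) =
        MT.ht (g.comp f) := by
      ext y
      revert y
      apply MT.ind
      intro x u
      rfl
    rw [this]

/-! ### The double cover -/

section Dbl

variable {E : Type} [TopologicalSpace E] (f : C(E, E))

/-- `T(f ∘ f) → T₂(f)` before descending. -/
def dbF (x : E × I) : MT (lvl f not) :=
  if (x.2 : ℝ) ≤ 1 / 2 then MT.mk (lvl f not) ((x.1, false), cl (2 * (x.2 : ℝ)))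
  else MT.mk (lvl f not) ((f x.1, true), cl (2 * (x.2 : ℝ) - 1))

theorem continuous_dbF : Continuous (dbF f) := by
  have c1 := continuous_cl
  unfold dbF
  apply Continuous.if_le
  · apply (MT.mk (lvl f not)).continuous.comp
    fun_prop
  · apply (MT.mk (lvl f not)).continuous.comp
    fun_prop
  · fun_prop
  · fun_prop
  · rintro ⟨x, u⟩ hu
    simp only at hu ⊢
    rw [hu, cl_ge (by norm_num), cl_le (by norm_num), MT.glue]
    rfl

theorem dbF_le {x : E} {u : I} (h : (u : ℝ) ≤ 1 / 2) :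
    dbF f (x, u) = MT.mk (lvl f not) ((x, false), cl (2 * (u : ℝ))) := by
  unfold dbF
  rw [if_pos h]

theorem dbF_ge {x : E} {u : I} (h : 1 / 2 ≤ (u : ℝ)) :
    dbF f (x, u) = MT.mk (lvl f not) ((f x, true), cl (2 * (u : ℝ) - 1)) := by
  unfold dbF
  split_ifs with h2
  · have h3 : (u : ℝ) = 1 / 2 := le_antisymm h2 h
    rw [h3, cl_ge (by norm_num), cl_le (by norm_num), MT.glue]
    rfl
  · rfl

/-- `T(f ∘ f) → T₂(f)`. -/
def dbA : C(MT (f.comp f), MT (lvl f not)) := MT.lift ⟨dbF f, continuous_dbF f⟩ (by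
  intro x
  change dbF f (x, 1) = dbF f (f (f x), 0)
  have e1 : ((1 : I) : ℝ) = 1 := rfl
  have e0 : ((0 : I) : ℝ) = 0 := rfl
  rw [dbF_ge f (by rw [e1]; norm_num), dbF_le f (by rw [e0]; norm_num), e1, e0,
    cl_ge (by norm_num), cl_le (by norm_num), MT.glue]
  rfl)

theorem dbA_mk (x : E × I) : dbA f (MT.mk (f.comp f) x) = dbF f x := rfl

/-- `T₂(f) → T(f ∘ f)` before descending. -/
def dbG (x : (E × Bool) × I) : MT (f.comp f) :=
  if x.1.2 = true then MT.mk (f.comp f) (f x.1.1, 0) else MT.mk (f.comp f) (x.1.1, x.2)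

theorem continuous_dbG : Continuous (dbG f) := by
  have h1 : Continuous fun x : Bool × (E × I) => dbG f ((x.2.1, x.1), x.2.2) := by
    rw [continuous_prod_of_discrete_left]
    intro b
    cases b
    · exact (MT.mk (f.comp f)).continuous
    · change Continuous fun x : E × I => MT.mk (f.comp f) (f x.1, 0)
      fun_prop
  have h2 : Continuous fun x : (E × Bool) × I => (x.1.2, (x.1.1, x.2)) := by fun_prop
  exact h1.comp h2

/-- `T₂(f) → T(f ∘ f)`. -/
def dbB : C(MT (lvl f not), MT (f.comp f)) := MT.lift ⟨dbG f, continuous_dbG f⟩ (by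
  rintro ⟨x, b⟩
  cases b
  · change MT.mk (f.comp f) (x, 1) = MT.mk (f.comp f) (f (f x), 0)
    exact MT.glue _ _
  · rfl)

/-- The time function. -/
def tmF (x : (E × Bool) × I) : I := if x.1.2 = true then σ x.2 else x.2

theorem continuous_tmF : Continuous (tmF (E := E)) := by
  have h1 : Continuous fun x : Bool × (E × I) => tmF ((x.2.1, x.1), x.2.2) := by
    rw [continuous_prod_of_discrete_left]
    intro b
    cases b
    · change Continuous fun x : E × I => x.2
      fun_prop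
    · change Continuous fun x : E × I => σ x.2
      fun_prop
  have h2 : Continuous fun x : (E × Bool) × I => (x.1.2, (x.1.1, x.2)) := by fun_prop
  exact h1.comp h2

/-- The time function. -/
def tm : C(MT (lvl f not), I) := MT.lift ⟨tmF, continuous_tmF⟩ (by
  rintro ⟨x, b⟩
  cases b
  · change (1 : I) = σ 0
    rw [unitInterval.symm_zero]
  · change σ 1 = (0 : I)
    rw [unitInterval.symm_one])

theorem dbl_ab : ((dbA f).comp (dbB f)).Homotopic (ContinuousMap.id _) := by
  refine ⟨ContinuousMap.Homotopy.symm ⟨⟨fun y => fl (lvl f not) (y.1 * tm f y.2, y.2),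
    by fun_prop⟩, ?_, ?_⟩⟩
  · intro y
    change fl (lvl f not) (0 * tm f y, y) = y
    rw [zero_mul, fl_zero]
  · apply MT.ind
    rintro ⟨x, b⟩ u
    change fl (lvl f not) (1 * tmF ((x, b), u), MT.mk (lvl f not) ((x, b), u)) =
      dbA f (dbG f ((x, b), u))
    rw [one_mul]
    cases b
    · change fl (lvl f not) (u, MT.mk (lvl f not) ((x, false), u)) = dbF f (x, u)
      rcases le_total (u : ℝ) (1 / 2) with hu | hu
      · rw [fl_of_le _ (by linarith), dbF_le f hu, two_mul]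
      · rw [fl_of_ge _ (by linarith), dbF_ge f hu, two_mul]
        rfl
    · change fl (lvl f not) (σ u, MT.mk (lvl f not) ((x, true), u)) = dbF f (f x, 0)
      have e0 : ((0 : I) : ℝ) = 0 := rfl
      have h1 : (u : ℝ) + ((σ u : I) : ℝ) = 1 := by rw [unitInterval.coe_symm_eq]; ring
      rw [fl_of_ge _ h1.ge, h1, dbF_le f (by rw [e0]; norm_num), e0, sub_self, mul_zero]
      rfl

theorem dbl_ba : ((dbB f).comp (dbA f)).Homotopic (ContinuousMap.id _) := by
  have c1 := continuous_cl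
  refine ⟨ContinuousMap.Homotopy.symm ⟨MT.liftH (f := f.comp f)
    ⟨fun y => MT.mk (f.comp f) (y.2.1, cl ((1 + (y.1 : ℝ)) * (y.2.2 : ℝ))), by fun_prop⟩ ?_,
    ?_, ?_⟩⟩
  · intro s x
    have e1 : ((1 : I) : ℝ) = 1 := rfl
    have e0 : ((0 : I) : ℝ) = 0 := rfl
    change MT.mk (f.comp f) (x, cl ((1 + (s : ℝ)) * ((1 : I) : ℝ))) =
      MT.mk (f.comp f) (f (f x), cl ((1 + (s : ℝ)) * ((0 : I) : ℝ)))
    rw [e1, e0, mul_one, mul_zero, cl_ge (by linarith [s.2.1]), cl_le le_rfl, MT.glue]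
    rfl
  · apply MT.ind
    intro x u
    change MT.mk (f.comp f) (x, cl ((1 + ((0 : I) : ℝ)) * (u : ℝ))) = _
    have e0 : ((0 : I) : ℝ) = 0 := rfl
    rw [e0, add_zero, one_mul, cl_coe]
    rfl
  · apply MT.ind
    intro x u
    change MT.mk (f.comp f) (x, cl ((1 + ((1 : I) : ℝ)) * (u : ℝ))) = dbB f (dbF f (x, u))
    have e1 : ((1 : I) : ℝ) = 1 := rfl
    rw [e1, show (1 : ℝ) + 1 = 2 by norm_num]
    rcases le_total (u : ℝ) (1 / 2) with hu | hu
    · rw [dbF_le f hu]
      rfl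
    · rw [dbF_ge f hu, cl_ge (by linarith), MT.glue]
      rfl

end Dbl

theorem dblT : S_dbl := by
  intro E B _ f x
  refine ⟨dbA f, dbB f, dbl_ba f, dbl_ab f, ?_, ?_, ?_⟩
  · intro i
    have e0 : ((0 : I) : ℝ) = 0 := rfl
    rw [dbA_mk, dbF_le f (by rw [e0]; norm_num), e0, mul_zero, cl_le le_rfl]
  · intro i
    rfl
  · have : (MT.ht2 f).comp (dbA f) = MT.ht (f.comp f) := by
      ext y
      revert y
      apply MT.ind
      intro x u
      change MT.ht2 f (dbF f (x, u)) = ((u : ℝ) : Cir)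
      rcases le_total (u : ℝ) (1 / 2) with hu | hu
      · rw [dbF_le f hu, MT.ht2_mk, coe_cl (by linarith [u.2.1]) (by linarith)]
        congr 1
        norm_num
      · rw [dbF_ge f hu, MT.ht2_mk, coe_cl (by linarith) (by linarith [u.2.2])]
        congr 1
        norm_num
    rw [this]

end

end Pool.Agent.W622.SC
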