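import Pool.Agent.W622.SC.Defs

/-! # Postcomposition on the groups `[Σ²Q, Y]` -/

set_option autoImplicit false

open unitInterval Topology ContinuousMap

namespace Pool.Agent.W622.SC

noncomputable section

variable {Q Y Y' : Type} [TopologicalSpace Q] [TopologicalSpace Y] [TopologicalSpace Y']
variable {q0 : Q} {y0 : Y} {y0' : Y'}

theorem cls_mul (i : Fin 2) (g g' : LP q0 y0) :
    g.cls * g'.cls = LP.cls (GenLoop.transAt i g' g) := HomotopyGroup.mul_spec

theorem cls_eq_iff {g g' : LP q0 y0} : g.cls = g'.cls ↔ GenLoop.Homotopic g g' :=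
  ⟨fun h => Quotient.exact h, fun h => Quotient.sound h⟩

theorem one_eq_cls : (1 : PG q0 y0) = LP.cls GenLoop.const := HomotopyGroup.one_def

theorem post_transAt (k : C(Y, Y')) (hk : k y0 = y0') (i : Fin 2) (g g' : LP q0 y0) :
    LP.post k hk (GenLoop.transAt i g g') =
      GenLoop.transAt i (LP.post k hk g) (LP.post k hk g') := by
  apply GenLoop.ext
  intro t
  apply Subtype.ext
  rw [LP.post_apply]
  simp only [GenLoop.transAt, GenLoop.coe_copy]
  split_ifs
  · rfl
  · rfl

theorem post_homotopic (k : C(Y, Y')) (hk : k y0 = y0') {g g' : LP q0 y0}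
    (h : GenLoop.Homotopic g g') : GenLoop.Homotopic (LP.post k hk g) (LP.post k hk g') := by
  obtain ⟨H⟩ := h
  exact ⟨H.compContinuousMap (PM.post k hk)⟩

/-- Postcomposition as a homomorphism. -/
def postHom (q0 : Q) (k : C(Y, Y')) (hk : k y0 = y0') : PG q0 y0 →* PG q0 y0' where
  toFun := Quotient.map' (LP.post k hk) (fun _ _ h => post_homotopic k hk h)
  map_one' := by
    change LP.cls (LP.post k hk GenLoop.const) = _
    rw [one_eq_cls]
    congr 1
    apply GenLoop.ext
    intro t
    apply Subtype.ext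
    rw [LP.post_apply]
    ext q
    exact hk
  map_mul' := by
    rintro ⟨a⟩ ⟨b⟩
    change Quotient.map' (LP.post k hk) _ (LP.cls a * LP.cls b) = LP.cls (LP.post k hk a) *
      LP.cls (LP.post k hk b)
    rw [cls_mul 0, cls_mul 0]
    change LP.cls (LP.post k hk (GenLoop.transAt 0 b a)) = _
    rw [post_transAt]

@[simp] theorem postHom_cls (k : C(Y, Y')) (hk : k y0 = y0') (g : LP q0 y0) :
    postHom q0 k hk g.cls = (LP.post k hk g).cls := rfl

/-- Loops with the same class give homotopic maps (relative to the base point). -/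
theorem htpy_of_cls_eq [LocallyCompactSpace Q] {g g' : LP q0 y0} (h : g.cls = g'.cls) :
    ∃ H : C(I × S2 q0, Y), (∀ p, H (0, p) = g.toMap p) ∧ (∀ p, H (1, p) = g'.toMap p) ∧
      ∀ s, H (s, S2.pt q0) = y0 := by
  obtain ⟨H⟩ := cls_eq_iff.mp h
  have hc : Continuous fun x : I × ((Fin 2 → I) × Q) => (H (x.1, x.2.1)).1 x.2.2 := by
    have h1 : Continuous fun x : I × ((Fin 2 → I) × Q) => (H (x.1, x.2.1)).1 :=
      continuous_subtype_val.comp (H.continuous.comp (by fun_prop))
    exact h1.eval (by fun_prop)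
  refine ⟨S2.liftH ⟨_, hc⟩ (ContinuousMap.const I y0) ?_, ?_, ?_, ?_⟩
  · rintro s ⟨t, q⟩ (ht | hq)
    · change (H (s, t)).1 q = y0
      have h2 : H (s, t) = g.1 t := H.eq_fst s ht
      rw [h2]
      have h3 := g.2 t ht
      rw [h3]
      rfl
    · simp only at hq
      subst hq
      exact (H (s, t)).2
  · intro p
    obtain ⟨⟨t, q⟩, rfl⟩ := S2.mk_surj q0 p
    change (H (0, t)).1 q = _
    rw [H.apply_zero]
    rfl
  · intro p
    obtain ⟨⟨t, q⟩, rfl⟩ := S2.mk_surj q0 p
    change (H (1, t)).1 q = _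
    rw [H.apply_one]
    rfl
  · intro s
    exact S2.liftH_pt _ _ _ s

/-- Every class is represented by a pointed map. -/
theorem cls_surj (x : PG q0 y0) : ∃ g : LP q0 y0, g.cls = x := by
  obtain ⟨g, rfl⟩ := Quotient.exists_rep x
  exact ⟨g, rfl⟩

end

end Pool.Agent.W622.SC
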