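import Pool.Agent.W622.SC.Word
import Pool.Agent.W622.SC.Chain
import Pool.Agent.W622.SC.CLift

/-! # The example -/

set_option autoImplicit false

open unitInterval Topology ContinuousMap

namespace Pool.Agent.W622.SC

noncomputable section

/-- All the parts. -/
structure Hyps : Prop where
  swap : S_swap
  htpy : S_htpy
  dblT : S_dbl
  cov : S_cov
  qq : S_QQ
  wpq : S_WPQ
  wps2 : S_WPS2
  act : S_act
  trans : S_trans
  j2 : S_J2
  jlift : S_Jlift
  rsq : S_Rsq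
  det : S_det
  phi : S_Phi
  c : S_C
  khat : S_Khat
  push : S_push
  pi1K : S_pi1K
  kerZ : S_kerZ
  cwMT : S_cwMT
  cwCir : S_cwCir
  cwAt : S_cwAt
  ca : S_CA
  emb : S_emb
  wind : S_wind
  loopZ : S_loopZ
  loop2 : S_loop2
  fp : S_fp
  cond : S_cond

theorem Hyps.exp4 (hy : Hyps) {Y : Type} [TopologicalSpace Y] {y0 : Y} (x : PG QQ.pt y0) :
    x ^ 4 = 1 := by
  obtain ⟨g, rfl⟩ := cls_surj x
  obtain ⟨g1, h1, h2⟩ := hy.rsq Y y0 g
  obtain ⟨g2, h3, h4⟩ := hy.jlift Y y0 g1 h2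
  have h5 := hy.j2 Y y0 g2 h4
  rw [h3, h1, ← pow_mul] at h5
  exact h5

/-! ### Connectivity -/

theorem pc_S2 {Q : Type} [TopologicalSpace Q] (q0 : Q) : PathConnectedSpace (S2 q0) := by
  rw [pathConnectedSpace_iff_eq]
  refine ⟨S2.pt q0, ?_⟩
  ext x
  simp only [Set.mem_univ, iff_true]
  obtain ⟨⟨t, q⟩, rfl⟩ := S2.mk_surj q0 x
  have hc : Continuous fun s : I => S2.mk q0 ((fun i => s * t i : Fin 2 → I), q) := by
    fun_prop
  refine ⟨⟨⟨_, hc⟩, ?_, ?_⟩⟩
  · apply S2.mk_bad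
    left
    refine ⟨0, Or.inl ?_⟩
    simp
  · change S2.mk q0 ((fun i => 1 * t i : Fin 2 → I), q) = S2.mk q0 (t, q)
    simp

theorem pc_At {K C P : Type} [TopologicalSpace K] [TopologicalSpace C] [TopologicalSpace P]
    [PathConnectedSpace K] [PathConnectedSpace P] (e : C(C, K)) (p0 : P) :
    PathConnectedSpace (At e p0) := by
  have k0 : K := Classical.arbitrary K
  have hK : ∀ k, Joined (At.inK e p0 k0) (At.inK e p0 k) := fun k =>
    (PathConnectedSpace.joined k0 k).map (At.inK e p0).continuous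
  rw [pathConnectedSpace_iff_eq]
  refine ⟨At.inK e p0 k0, ?_⟩
  ext x
  simp only [Set.mem_univ, iff_true]
  revert x
  apply At.ind
  · exact hK
  · intro c p
    have h1 : Joined (At.inP e p0 (c, p0)) (At.inP e p0 (c, p)) :=
      (PathConnectedSpace.joined p0 p).map (f := fun p => At.inP e p0 (c, p)) (by fun_prop)
    rw [At.glue] at h1
    exact (hK (e c)).trans h1

theorem pc_I : PathConnectedSpace I :=
  isPathConnected_iff_pathConnectedSpace.mp
    ((convex_Icc (0 : ℝ) 1).isPathConnected ⟨0, by norm_num, by norm_num⟩)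

theorem joined_mk {E : Type} [TopologicalSpace E] (f : C(E, E)) (x : E) (u v : I) :
    Joined (MT.mk f (x, u)) (MT.mk f (x, v)) :=
  have := pc_I
  (PathConnectedSpace.joined u v).map (f := fun u => MT.mk f (x, u)) (by fun_prop)

theorem pc_MT {E : Type} [TopologicalSpace E] [PathConnectedSpace E] (f : C(E, E)) :
    PathConnectedSpace (MT f) := by
  have x0 : E := Classical.arbitrary E
  rw [pathConnectedSpace_iff_eq]
  refine ⟨MT.mk f (x0, 0), ?_⟩
  ext x
  simp only [Set.mem_univ, iff_true]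
  revert x
  apply MT.ind
  intro x u
  have h1 : Joined (MT.mk f (x0, 0)) (MT.mk f (x, 0)) :=
    (PathConnectedSpace.joined x0 x).map (f := fun x => MT.mk f (x, 0)) (by fun_prop)
  exact h1.trans (joined_mk f x 0 u)

theorem joined_lvl {E J : Type} [TopologicalSpace E] [TopologicalSpace J] [DiscreteTopology J]
    [PathConnectedSpace E] (f : C(E, E)) (ν : J → J) (x y : E) (j : J) (u v : I) :
    Joined (MT.mk (lvl f ν) ((x, j), u)) (MT.mk (lvl f ν) ((y, j), v)) := by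
  have h1 : Joined (MT.mk (lvl f ν) ((x, j), u)) (MT.mk (lvl f ν) ((y, j), u)) :=
    (PathConnectedSpace.joined x y).map (f := fun x => MT.mk (lvl f ν) ((x, j), u)) (by fun_prop)
  exact h1.trans (joined_mk _ _ u v)

theorem joined_next {E J : Type} [TopologicalSpace E] [TopologicalSpace J] [DiscreteTopology J]
    [PathConnectedSpace E] (f : C(E, E)) (ν : J → J) (x y : E) (j : J) (u v : I) :
    Joined (MT.mk (lvl f ν) ((x, j), u)) (MT.mk (lvl f ν) ((y, ν j), v)) := by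
  have h1 := joined_lvl f ν x x j u 1
  rw [MT.glue] at h1
  exact h1.trans (joined_lvl f ν (f x) y (ν j) 0 v)

theorem pc_MT_not {E : Type} [TopologicalSpace E] [PathConnectedSpace E] (f : C(E, E)) :
    PathConnectedSpace (MT (lvl f not)) := by
  have x0 : E := Classical.arbitrary E
  rw [pathConnectedSpace_iff_eq]
  refine ⟨MT.mk _ ((x0, false), 0), ?_⟩
  ext x
  simp only [Set.mem_univ, iff_true]
  revert x
  apply MT.ind
  rintro ⟨x, b⟩ u
  cases b
  · exact joined_lvl f not x0 x false 0 u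
  · exact joined_next f not x0 x false 0 u

theorem pc_MT_sh {E : Type} [TopologicalSpace E] [PathConnectedSpace E] (f : C(E, E)) :
    PathConnectedSpace (MT (lvl f sh)) := by
  have x0 : E := Classical.arbitrary E
  have h1 : ∀ n : ℤ, Joined (MT.mk (lvl f sh) ((x0, 0), 0)) (MT.mk (lvl f sh) ((x0, n), 0)) := by
    intro n
    induction n using Int.induction_on with
    | zero => exact Joined.refl _
    | succ n ih => exact ih.trans (joined_next f sh x0 x0 n 0 0)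
    | pred n ih =>
      have h2 := joined_next f sh x0 x0 (-(n : ℤ) - 1) 0 0
      have h3 : sh (-(n : ℤ) - 1) = -(n : ℤ) := by unfold sh; ring
      rw [h3] at h2
      exact ih.trans h2.symm
  rw [pathConnectedSpace_iff_eq]
  refine ⟨MT.mk _ ((x0, 0), 0), ?_⟩
  ext x
  simp only [Set.mem_univ, iff_true]
  revert x
  apply MT.ind
  rintro ⟨x, n⟩ u
  exact (h1 n).trans (joined_lvl f sh x0 x n 0 u)

/-- The example. -/
theorem Hyps.model (hy : Hyps) : ∃ (E P : Type) (_ : TopologicalSpace E) (_ : TopologicalSpace P)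
    (j0 : C(KK, E)) (f : C(E, E)) (R : C(MT f, KK)) (inc : C(P, E)),
    CompactSpace P ∧ PathConnectedSpace E ∧ (∀ k, f (j0 k) = j0 k) ∧
    (∀ k, R (MT.mk f (j0 k, 0)) = k) ∧
    (∀ (x y : KK) (γ : Path (j0 x) (j0 y)), ∃ δ : Path x y,
      γ.Homotopic (δ.map j0.continuous)) ∧
    HE (MT.ht f) (MT.ht2 f) (fun _ : Unit => MT.mk f (j0 kk0, 0))
      (fun _ : Unit => MT.mk (lvl f not) ((j0 kk0, false), 0)) ∧
    (∀ (N n : ℤ), N + 1 < n → ∀ g : C(P, MT (lvl f sh)), (∀ p, MT.htZ f (g p) ≤ N) →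
      ¬ (((MT.mk (lvl f sh)).comp ⟨fun p => ((inc p, n), 0), by fun_prop⟩ :
        C(P, MT (lvl f sh))).Homotopic g)) ∧
    (∃ (_ : T2Space (MT f)) (cw : Topology.CWComplex (Set.univ : Set (MT f))),
      Topology.RelCWComplex.Finite (Set.univ : Set (MT f))) ∧
    ∃ (N : ℕ) (φ : P → EuclideanSpace ℝ (Fin N)), Topology.IsEmbedding φ ∧
      dimH (Set.range φ) ≤ 4 := by
  have : T2Space QQ := hy.qq
  obtain ⟨C, _, e, c0, h, A, S, S', he0, h0, h1, hc, hA, hS, hS', o1, o2, o3, hpath⟩ := hy.c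
  obtain ⟨WQ, hWQ⟩ := hy.wpq
  obtain ⟨W, hW⟩ := hy.wps2 QQ QQ.pt WQ
  obtain ⟨N0, φ0, hφ0, hφ1⟩ := hy.emb
  have : T2Space (S2 QQ.pt) := hφ0.t2Space
  have : PathConnectedSpace Cir := inferInstance
  have : PathConnectedSpace KK := pc_MT (E := Cir) dbl
  have : PathConnectedSpace (S2 QQ.pt) := pc_S2 QQ.pt
  obtain ⟨i, j, hij, hji, hiK, hjK, hiP, hjP⟩ := hy.trans KK C (S2 QQ.pt) e (S2.pt QQ.pt) W c0 h
    h0 h1 hc
  obtain ⟨F, hF, hFQ⟩ := exists_F QQ.pt
  obtain ⟨τ, hτ⟩ := exists_tw W hy.act (fun j : Fin 3 => pwr A j) (fun j c => e_pwr hA _ _) F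
  obtain ⟨W0, _, w0, d, hd1, hd2⟩ := hy.det
  have hd : d.cls ^ 2 = 1 := hy.j2 W0 w0 d hd1
  obtain ⟨Kh, _, G, _, _, q, k, α, hq, hqk, hk1, hα⟩ := hy.khat
  have hkk : e c0 = kk0 := he0
  obtain ⟨c', hc'1, hc'2⟩ := exists_clift e c0 h h0 h1 hc A hA q hq k α hk1 (by
    rw [hqk, he0]
    rfl) (by
    intro s
    rw [hpath, hqk]
    rfl)
  let P0 : S2 QQ.pt := S2.pt QQ.pt
  let f : C(Wg (e c0) P0, Wg (e c0) P0) := j.comp (τ.comp i)
  let inc : C(S2 QQ.pt, Wg (e c0) P0) := (At.inP _ P0).comp ⟨fun p => ((), p), by fun_prop⟩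
  have hinc : ∀ p, i (inc p) = At.inP e P0 (c0, p) := hiP
  have hfK : ∀ k, f (At.inK _ P0 k) = At.inK _ P0 k := by
    intro k
    change j (τ (i (At.inK _ P0 k))) = _
    rw [hiK, hτ.1, hjK]
  obtain ⟨H⟩ := hij
  have H0 : ∀ b, H.symm.toContinuousMap (0, b) = b := H.symm.map_zero_left
  have H1 : ∀ b, H.symm.toContinuousMap (1, b) = i (j b) := H.symm.map_one_left
  obtain ⟨a, ha⟩ := exists_cmpG i j τ H.symm.toContinuousMap H0 H1
  obtain ⟨a', ha1, ha2⟩ := exists_cmp i j τ H.symm.toContinuousMap H0 H1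
  have hret : ∀ x, At.ret e P0 x = At.ret e P0 (τ x) := by
    apply At.ind
    · intro k
      rw [hτ.1]
    · intro c p
      obtain ⟨l, p', h'⟩ := Wd.exists_inJ (F.toMap p)
      rw [hτ.2 c p l p' h']
      change e c = e (A^[(l : ℕ)] c)
      rw [e_pwr hA]
  let R : C(MT f, KK) := (MT.lift (f := τ) ⟨fun x => At.ret e P0 x.1, by fun_prop⟩ hret).comp a
  have hk : (τ.comp τ).Homotopic ((ovr e P0 S' hS').comp (τ.comp (ovr e P0 S hS))) := by
    obtain ⟨ρ, hρ⟩ := exists_tw W hy.act (fun j : Fin 3 => pwr A (2 * j))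
      (fun j c => e_pwr hA _ _) F
    have t1 : (τ.comp τ).Homotopic ρ := tw_htpy_cls W hy.act (fun k : Fin 5 => pwr A k)
      (fun j c => e_pwr hA _ _) (cls_kap (fun x => hy.exp4 x) F hF) (tw_sq hA hτ) (tw_dbl hA hρ)
    have t2 := tw_htpy_over W hy.act _ (fun j : Fin 3 => pwr A (2 * j))
      (fun j => over_conj hA hS hS' o1 o2 o3 j) (fun j c => by
        change e (S' (A^[(j : ℕ)] (S c))) = e c
        rw [hS', e_pwr hA, hS]) (tw_conj hA hS hS' hτ) hρ
    exact t1.trans t2.symm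
  refine ⟨Wg (e c0) P0, S2 QQ.pt, inferInstance, inferInstance, At.inK _ P0, f, R, inc,
    inferInstance, pc_At _ _, hfK, ?_, ?_, ?_, ?_, ?_, N0, φ0, hφ0, hφ1⟩
  · intro k
    change MT.lift (f := τ) ⟨fun x => At.ret e P0 x.1, by fun_prop⟩ hret (a (MT.mk _ (_, 0))) = k
    rw [ha, hiK]
    rfl
  · intro x y γ
    exact hy.push QQ QQ.pt WQ KK (e c0) x y γ
  · exact chain hy.swap hy.htpy hy.dblT i j τ (ovr e P0 S hS) (ovr e P0 S' hS')
      (At.inK _ P0 kk0) (At.inK _ P0 kk0) (hiK kk0) (hjK kk0) (hτ.1 kk0) rfl rfl ⟨H⟩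
      (ovr_htpy P0 S S' hS hS' o2) hk
  · intro N n hNn g hg hom
    have p1 : ∀ c p, ∃ (j : Fin 3) (p' : S2 QQ.pt), F.toMap p = Wd.inJ (S2.pt QQ.pt) j p' ∧
        τ (At.inP e _ (c, p)) = At.inP e _ (A^[(j : ℕ)] c, p') := by
      intro c p
      obtain ⟨l, p', h'⟩ := Wd.exists_inJ (F.toMap p)
      exact ⟨l, p', h', hτ.2 c p l p' h'⟩
    apply hy.phi QQ QQ.pt KK C Kh G e c0 q hq c' hc'1 A hA α hc'2 hα F hF τ hτ.1 p1 W0 w0 d hd
      hd2 (N + 1) n hNn (a'.comp g) (fun p => by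
        have t1 := ha2 (g p)
        have t2 := hg p
        change MT.htZ τ (a' (g p)) ≤ _
        push_cast
        linarith)
    have t3 := comp_htpy_left hom a'
    convert t3 using 1
    ext p
    change _ = a' (MT.mk _ ((inc p, n), 0))
    rw [ha1, hinc]
    rfl
  · obtain ⟨cwC, finC, cellC, dimC⟩ := hy.cwCir
    obtain ⟨t2K, cwK, finK, dimK⟩ := hy.cwMT Cir cwC finC dbl cellC
    obtain ⟨t2E, cwE, finE, cellE⟩ := hy.cwAt KK cwK finK (dimK 1 dimC) (e c0)
    obtain ⟨t2X, cwX, finX, _⟩ := hy.cwMT (Wg (e c0) P0) cwE finE f (cellE f hfK (by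
      intro t w
      obtain ⟨l, t', h'⟩ := qpres_toMap hFQ t (QQ.mk (w, 0))
      have t1 : f (At.inP _ P0 ((), S2.mk QQ.pt (t, QQ.mk (w, 0)))) =
          j (At.inP e P0 (A^[(l : ℕ)] c0, S2.mk QQ.pt (t', QQ.mk (w, 0)))) := by
        change j (τ (i (At.inP _ P0 ((), S2.mk QQ.pt (t, QQ.mk (w, 0)))))) = _
        rw [hiP, hτ.2 c0 _ l _ h']
        rfl
      rw [t1]
      rcases hjP (A^[(l : ℕ)] c0) (S2.mk QQ.pt (t', QQ.mk (w, 0))) with h3 | h3
      · exact Or.inl h3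
      · right
        obtain ⟨t2, ht2⟩ := hW t' (QQ.mk (w, 0))
        obtain ⟨w', hw'⟩ := hWQ w
        refine ⟨t2, w', ?_⟩
        rw [h3, ht2, hw']))
    exact ⟨t2X, cwX, finX⟩

end

end Pool.Agent.W622.SC
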