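import Pool.Agent.W622.SC.Grp
import Pool.Agent.W622.SC.Stmts
import Pool.Agent.W622.SC.HEq

/-! # Self-maps of `K ∪ (C × P)` given by words -/

set_option autoImplicit false

open unitInterval Topology ContinuousMap

namespace Pool.Agent.W622.SC

noncomputable section

section Wedge

variable {P Z J : Type} [TopologicalSpace P] [TopologicalSpace Z] [TopologicalSpace J]
  [DiscreteTopology J] {p0 : P}

/-- Maps out of a wedge. -/
def Wd.desc (g : J → C(P, Z)) (z : Z) (h : ∀ j, g j p0 = z) : C(Wd J p0, Z) :=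
  At.lift (ContinuousMap.const _ z) ⟨fun x => g x.1 x.2, by
    rw [continuous_prod_of_discrete_left]
    intro j
    exact (g j).continuous⟩ (fun j => h j)

@[simp] theorem Wd.desc_inJ (g : J → C(P, Z)) (z : Z) (h : ∀ j, g j p0 = z) (j : J) (p : P) :
    Wd.desc g z h (Wd.inJ p0 j p) = g j p := rfl

@[simp] theorem Wd.desc_pt (g : J → C(P, Z)) (z : Z) (h : ∀ j, g j p0 = z) :
    Wd.desc g z h (Wd.pt J p0) = z := rfl

theorem Wd.inJ_pt (j : J) : Wd.inJ p0 j p0 = Wd.pt J p0 := At.glue _ _ _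

theorem Wd.exists_inJ [Nonempty J] (x : Wd J p0) : ∃ j p, x = Wd.inJ p0 j p := by
  revert x
  apply At.ind
  · intro k
    refine ⟨Classical.arbitrary J, p0, ?_⟩
    rw [Wd.inJ_pt]
    rfl
  · intro j p
    exact ⟨j, p, rfl⟩

theorem Wd.inJ_eq_iff {j j' : J} {p p' : P} : Wd.inJ p0 j p = Wd.inJ p0 j' p' ↔
    (p = p0 ∧ p' = p0) ∨ (j = j' ∧ p = p') := by
  change At.inP _ p0 (j, p) = At.inP _ p0 (j', p') ↔ _
  rw [At.inP_eq_inP_iff]
  constructor
  · rintro (h | h)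
    · exact Or.inl ⟨h.1, h.2.1⟩
    · exact Or.inr h.2
  · rintro (h | h)
    · exact Or.inl ⟨h.1, h.2, rfl⟩
    · by_cases hp : p = p0
      · exact Or.inl ⟨hp, h.2 ▸ hp, rfl⟩
      · exact Or.inr ⟨hp, h⟩

end Wedge

instance {Q : Type} [TopologicalSpace Q] [CompactSpace Q] (q0 : Q) : CompactSpace (S2 q0) :=
  inferInstanceAs (CompactSpace (Quotient (Setoid.ker (S2nf q0))))

section Tw

variable {Q : Type} [TopologicalSpace Q] [CompactSpace Q] [T2Space Q] {q0 : Q}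
variable {K C : Type} [TopologicalSpace K] [TopologicalSpace C]

/-- `τ` is the self-map of `K ∪ (C × Σ²Q)` over `K` given by the word `G` with letters `θ`. -/
def IsTw (e : C(C, K)) {J : Type} [TopologicalSpace J] (θ : J → C(C, C))
    (G : LP q0 (Wd.pt J (S2.pt q0))) (τ : C(At e (S2.pt q0), At e (S2.pt q0))) : Prop :=
  (∀ k, τ (At.inK e _ k) = At.inK e _ k) ∧ ∀ c p j p', G.toMap p = Wd.inJ (S2.pt q0) j p' →
    τ (At.inP e _ (c, p)) = At.inP e _ (θ j c, p')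

variable {e : C(C, K)} {J : Type} [TopologicalSpace J] [DiscreteTopology J]

theorem inP_congr {P : Type} [TopologicalSpace P] {p0 : P} (θ : J → C(C, C))
    (hθ : ∀ j c, e (θ j c) = e c) {j j' : J} {p p' : P} (h : Wd.inJ p0 j p = Wd.inJ p0 j' p')
    (c : C) : At.inP e p0 (θ j c, p) = At.inP e p0 (θ j' c, p') := by
  rcases Wd.inJ_eq_iff.mp h with h | h
  · rw [h.1, h.2, At.glue, At.glue, hθ, hθ]
  · rw [h.1, h.2]

theorem isTw_of [Nonempty J] (θ : J → C(C, C)) (hθ : ∀ j c, e (θ j c) = e c)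
    (G : LP q0 (Wd.pt J (S2.pt q0))) (τ : C(At e (S2.pt q0), At e (S2.pt q0)))
    (h1 : ∀ k, τ (At.inK e _ k) = At.inK e _ k)
    (h2 : ∀ c p, ∃ j p', G.toMap p = Wd.inJ (S2.pt q0) j p' ∧
      τ (At.inP e _ (c, p)) = At.inP e _ (θ j c, p')) : IsTw e θ G τ := by
  refine ⟨h1, fun c p j p' h => ?_⟩
  obtain ⟨j', p'', h3, h4⟩ := h2 c p
  rw [h4]
  exact inP_congr θ hθ (h3.symm.trans h) c

variable [T2Space (S2 q0)] (W : WP (S2 q0) (S2.pt q0)) (hact : S_act) [Finite J]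

include W hact

theorem exists_tw (θ : J → C(C, C)) (hθ : ∀ j c, e (θ j c) = e c)
    (G : LP q0 (Wd.pt J (S2.pt q0))) : ∃ τ, IsTw e θ G τ := by
  obtain ⟨Λ, h1, h2⟩ := hact K C (S2 q0) C J e (S2.pt q0) W θ e hθ
  refine ⟨At.lift (At.inK e _) ⟨fun x => Λ (x.1, G.toMap x.2), by fun_prop⟩ ?_, ?_, ?_⟩
  · intro c
    change Λ (c, G.toMap (S2.pt q0)) = _
    rw [LP.toMap_pt, h2]
  · intro k
    rfl
  · intro c p j p' h
    change Λ (c, G.toMap p) = _
    rw [h, h1]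

theorem tw_htpy_cls [Nonempty J] (θ : J → C(C, C)) (hθ : ∀ j c, e (θ j c) = e c)
    {G G' : LP q0 (Wd.pt J (S2.pt q0))} (hG : G.cls = G'.cls)
    {τ τ' : C(At e (S2.pt q0), At e (S2.pt q0))} (hτ : IsTw e θ G τ) (hτ' : IsTw e θ G' τ') :
    τ.Homotopic τ' := by
  obtain ⟨Λ, h1, h2⟩ := hact K C (S2 q0) C J e (S2.pt q0) W θ e hθ
  obtain ⟨H, H0, H1, Hp⟩ := htpy_of_cls_eq hG
  refine ⟨⟨At.liftH (e := e) (p0 := S2.pt q0) ⟨fun x => At.inK e _ x.2, by fun_prop⟩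
    ⟨fun x => Λ (x.2.1, H (x.1, x.2.2)), by fun_prop⟩ ?_, ?_, ?_⟩⟩
  · intro s c
    change Λ (c, H (s, S2.pt q0)) = At.inK e _ (e c)
    rw [Hp, h2]
  · apply At.ind
    · intro k
      exact (hτ.1 k).symm
    · intro c p
      change Λ (c, H (0, p)) = _
      obtain ⟨j, p', h⟩ := Wd.exists_inJ (G.toMap p)
      rw [H0, hτ.2 c p j p' h, h, h1]
  · apply At.ind
    · intro k
      exact (hτ'.1 k).symm
    · intro c p
      change Λ (c, H (1, p)) = _
      obtain ⟨j, p', h⟩ := Wd.exists_inJ (G'.toMap p)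
      rw [H1, hτ'.2 c p j p' h, h, h1]

theorem tw_htpy_over [Nonempty J] (θ θ' : J → C(C, C)) (hθ : ∀ j, OverH e (θ j) (θ' j))
    (hθe : ∀ j c, e (θ j c) = e c)
    {G : LP q0 (Wd.pt J (S2.pt q0))}
    {τ τ' : C(At e (S2.pt q0), At e (S2.pt q0))} (hτ : IsTw e θ G τ) (hτ' : IsTw e θ' G τ') :
    τ.Homotopic τ' := by
  choose Θ h0 h1 h2 using hθ
  obtain ⟨Λ, h3, h4⟩ := hact K C (S2 q0) (I × C) J e (S2.pt q0) W Θ
    (e.comp ⟨Prod.snd, continuous_snd⟩) (fun j d => h2 j d.1 d.2)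
  refine ⟨⟨At.liftH (e := e) (p0 := S2.pt q0) ⟨fun x => At.inK e _ x.2, by fun_prop⟩
    ⟨fun x => Λ ((x.1, x.2.1), G.toMap x.2.2), by fun_prop⟩ ?_, ?_, ?_⟩⟩
  · intro s c
    change Λ ((s, c), G.toMap (S2.pt q0)) = At.inK e _ (e c)
    rw [LP.toMap_pt, h4]
    rfl
  · apply At.ind
    · intro k
      exact (hτ.1 k).symm
    · intro c p
      change Λ ((0, c), G.toMap p) = _
      obtain ⟨j, p', h⟩ := Wd.exists_inJ (G.toMap p)
      rw [hτ.2 c p j p' h, h, h3, h0]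
  · apply At.ind
    · intro k
      exact (hτ'.1 k).symm
    · intro c p
      change Λ ((1, c), G.toMap p) = _
      obtain ⟨j, p', h⟩ := Wd.exists_inJ (G.toMap p)
      rw [hτ'.2 c p j p' h, h, h3, h1]

end Tw

end

end Pool.Agent.W622.SC
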